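import Pool.Agent.Y62.GA.M3

/-!
The two cases of the model when no element inverts.
-/

set_option linter.style.haveILetI false
set_option linter.unusedSectionVars false

open scoped BigOperators Classical
open Pool.Agent.Helper884 Representation Pool.Agent.H254R3.IN

noncomputable section

namespace Pool.Agent.Y62.GA

open Pool.Agent.Y62

variable {G : Type} [Group G] [Fintype G]

/-- conjugation invariance of the averages -/
lemma vv_conj {χ : G → ℂ} (hχ : IsIrr χ) {x g : G} {t : ℕ} (hg : g⁻¹ * x * g = x ^ t)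
    {K : Subgroup G} (hK : ∀ s, s ∈ K ↔ Commute x s ∧ ¬ 3 ∣ orderOf s) :
    vv K (x ^ t) χ = vv K x χ := by
  unfold vv ips
  congr 1
  have hmap : ∀ h : K, g * (h : G) * g⁻¹ ∈ K := by
    intro h
    rw [hK]
    obtain ⟨h1, h2⟩ := (hK h).mp h.2
    have h3 : Commute (g⁻¹ * x * g) (h : G) := by
      rw [hg]
      exact h1.pow_left t
    constructor
    · have h4 : g⁻¹ * x * g * h = h * (g⁻¹ * x * g) := h3.eq
      change x * (g * (h : G) * g⁻¹) = g * h * g⁻¹ * x
      calc x * (g * (h : G) * g⁻¹) = g * (g⁻¹ * x * g * h) * g⁻¹ := by group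
        _ = g * (h * (g⁻¹ * x * g)) * g⁻¹ := by rw [h4]
        _ = _ := by group
    · have h5 : orderOf (g * (h : G) * g⁻¹) = orderOf (h : G) :=
        orderOf_isConj (isConj_iff.mpr ⟨g⁻¹, by group⟩)
      rw [h5]
      exact h2
  let f : K → K := fun h => ⟨g * h * g⁻¹, hmap h⟩
  have hf : Function.Bijective f := by
    rw [Finite.injective_iff_bijective.symm]
    intro a b hab
    have h1 := congrArg Subtype.val hab
    have h2 : g * (a : G) * g⁻¹ = g * b * g⁻¹ := h1
    apply Subtype.ext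
    exact mul_left_cancel (mul_right_cancel h2)
  refine Function.Bijective.sum_comp hf (fun h : K => χ (x * h) * (fun _ => (1 : ℂ)) h⁻¹) ▸ ?_
  refine Finset.sum_congr rfl fun h _ => ?_
  rw [← hg]
  congr 1
  have h3 : x * (g * (h : G) * g⁻¹) = g * (g⁻¹ * x * g * h) * g⁻¹ := by group
  change χ (g⁻¹ * x * g * h) = χ (x * (g * (h : G) * g⁻¹))
  rw [h3, hχ.conj]

namespace Ctx

variable {O : ValuationSubring ℂ} {N : Subgroup G} {y : G} {P : Sylow 3 G} (c : Ctx O N y P)

include c

lemma lin_pow (hDEF : S_DEF) (hBRC : S_BRC) {t : ℕ} (ht : y⁻¹ * y ^ t ∈ N) :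
    ¬ 3 ∣ t ∧ ∃ s, t = s + 1 ∧ N.index ∣ s := by
  obtain ⟨l, hl, hprim, hT, r, hr1, hr⟩ := c.lin hDEF hBRC
  have hyN : y⁻¹ * y ∈ N := by rw [inv_mul_cancel]; exact N.one_mem
  have hp := hprim y hyN
  have h1 := (hl _).mpr ht
  rw [map_mul, map_inv, map_pow, inv_mul_eq_one] at h1
  have h2 : ((l y : ℂˣ) : ℂ) ^ t = ((l y : ℂˣ) : ℂ) := by
    rw [← Units.val_pow_eq_pow_val, ← h1]
  have h3q : 3 ∣ N.index := by
    rw [hr]
    exact dvd_pow_self 3 (by omega)
  have ht0 : t ≠ 0 := by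
    rintro rfl
    rw [pow_zero] at h2
    have h3 : N.index = 1 := by
      have := hp.dvd_of_pow_eq_one 1 (by rw [pow_one, ← h2])
      exact Nat.dvd_one.mp this
    rw [h3] at h3q
    norm_num at h3q
  obtain ⟨s, rfl⟩ := Nat.exists_eq_succ_of_ne_zero ht0
  have h4 : ((l y : ℂˣ) : ℂ) ^ s = 1 := by
    rw [Nat.succ_eq_add_one, pow_succ] at h2
    exact (mul_eq_right₀ (Units.ne_zero _)).mp h2
  have h5 := hp.dvd_of_pow_eq_one s h4
  refine ⟨?_, s, rfl, h5⟩
  have := h3q.trans h5
  omega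

lemma index_dvd_ord (hDEF : S_DEF) (hBRC : S_BRC) : N.index ∣ orderOf y := by
  obtain ⟨l, hl, hprim, hT, r, hr1, hr⟩ := c.lin hDEF hBRC
  have hyN : y⁻¹ * y ∈ N := by rw [inv_mul_cancel]; exact N.one_mem
  apply (hprim y hyN).dvd_of_pow_eq_one
  rw [← Units.val_pow_eq_pow_val, ← map_pow, pow_orderOf_eq_one, map_one, Units.val_one]

section two

variable (hDEF : S_DEF) (hBRC : S_BRC) (hEQ : S_EQ) (hNV : S_NV) {x₁ : G} (h1P : x₁ ∈ P)
  (h1N : y⁻¹ * x₁ ∈ N) (hnc : ¬ IsConj y x₁) {K₀ K₁ : Subgroup G}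
  (hK₀ : ∀ s, s ∈ K₀ ↔ Commute y s ∧ ¬ 3 ∣ orderOf s)
  (hK₁ : ∀ s, s ∈ K₁ ↔ Commute x₁ s ∧ ¬ 3 ∣ orderOf s)
  (hc₀ : Nat.card (Subgroup.centralizer ({y} : Set G)) = 3 * N.index * Nat.card K₀)
  (hc₁ : Nat.card (Subgroup.centralizer ({x₁} : Set G)) = 3 * N.index * Nat.card K₁)

include hDEF hBRC hEQ hNV h1P h1N hnc hK₀ hK₁ hc₀ hc₁

/-- the split case -/
theorem alpha (hcase : ¬ (orderOf y = 3 * N.index ∧ Nat.card (P : Subgroup G) = 3 * N.index)) :
    ∀ χ ∈ X0 O G, (Phi N.index K₀ K₁ y x₁ χ).1 ^ N.index = 1 := by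
  intro χ hχ
  obtain ⟨ε, hε, a1, a2, a3⟩ :=
    c.Phi_fst hDEF hBRC hEQ hNV h1P h1N hnc hK₀ hK₁ hc₀ hc₁ hχ
  set w := (Phi N.index K₀ K₁ y x₁ χ).1 with hw
  obtain ⟨l, hl, hprim, hT, r, hr1, hr⟩ := c.lin hDEF hBRC
  have hyN : y⁻¹ * y ∈ N := by rw [inv_mul_cancel]; exact N.one_mem
  have hq0 : 0 < N.index := by rw [hr]; positivity
  have hord := c.ord_dvd hDEF hBRC c.hy hyN
  obtain ⟨d, hd⟩ := c.index_dvd_ord hDEF hBRC
  by_cases hoy : orderOf y = 3 * N.index
  · -- a conjugating element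
    have hPc : Nat.card (P : Subgroup G) ≠ 3 * N.index := fun h => hcase ⟨hoy, h⟩
    set y' : (P : Subgroup G) := ⟨y, c.hy⟩ with hy'
    have hoy' : orderOf y' = 3 * N.index := by rw [← Subgroup.orderOf_coe]; exact hoy
    have hKcard : ¬ 3 ∣ Nat.card K₀ :=
      not_dvd_card_of_regular (p := 3) fun s hs => ((hK₀ s).mp hs).2
    -- the centralizer of `y'` in `P`
    have hCP : Subgroup.centralizer ({y'} : Set (P : Subgroup G)) = Subgroup.zpowers y' := by
      symm
      apply Subgroup.eq_of_le_of_card_ge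
      · rw [Subgroup.zpowers_le, Subgroup.mem_centralizer_iff]
        intro h hh
        rw [Set.mem_singleton_iff.mp hh]
      · rw [Nat.card_zpowers, hoy']
        have h1 : Nat.card (Subgroup.centralizer ({y'} : Set (P : Subgroup G))) ∣
            3 * N.index * Nat.card K₀ := by
          rw [← hc₀]
          have h2 : Nat.card (Subgroup.centralizer ({y'} : Set (P : Subgroup G))) =
              Nat.card ((Subgroup.centralizer ({y'} : Set (P : Subgroup G))).map
                (P : Subgroup G).subtype) :=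
            Nat.card_congr (Subgroup.equivMapOfInjective _ _
              (P : Subgroup G).subtype_injective).toEquiv
          rw [h2]
          apply Subgroup.card_dvd_of_le
          rintro _ ⟨x, hx, rfl⟩
          have hx' : x ∈ Subgroup.centralizer ({y'} : Set (P : Subgroup G)) := hx
          rw [Subgroup.mem_centralizer_iff] at hx' ⊢
          intro h hh
          rw [Set.mem_singleton_iff.mp hh]
          exact congrArg Subtype.val (hx' _ rfl)
        have hpg : IsPGroup 3 (Subgroup.centralizer ({y'} : Set (P : Subgroup G))) :=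
          P.2.to_subgroup _
        obtain ⟨j, hj⟩ := hpg.exists_card_eq
        rw [hj] at h1 ⊢
        have h3 : Nat.Coprime (3 ^ j) (Nat.card K₀) :=
          Nat.Coprime.pow_left j ((Nat.Prime.coprime_iff_not_dvd Nat.prime_three).mpr hKcard)
        exact Nat.le_of_dvd (by positivity) (h3.dvd_of_dvd_mul_right h1)
    have hlt : Subgroup.zpowers y' < ⊤ := by
      rw [lt_top_iff_ne_top]
      intro h
      apply hPc
      have h1 : Nat.card (Subgroup.zpowers y') = Nat.card (P : Subgroup G) := by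
        rw [h]
        exact Nat.card_congr Subgroup.topEquiv.toEquiv
      rw [← h1, Nat.card_zpowers, hoy']
    haveI : Group.IsNilpotent (P : Subgroup G) := P.2.isNilpotent
    have hnorm := Group.normalizerCondition_of_isNilpotent (G := (P : Subgroup G)) _ hlt
    obtain ⟨g, hg1, hg2⟩ := SetLike.exists_of_lt hnorm
    have hg3 : g⁻¹ * y' * g ∈ Subgroup.zpowers y' := by
      have h1 := (Subgroup.mem_normalizer_iff.mp (Subgroup.inv_mem _ hg1) y').mp
        (Subgroup.mem_zpowers y')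
      rwa [inv_inv] at h1
    rw [← mem_powers_iff_mem_zpowers] at hg3
    obtain ⟨t, ht⟩ := hg3
    have ht' : (g : G)⁻¹ * y * g = y ^ t := by
      have := congrArg Subtype.val ht
      simpa using this.symm
    have htne : y ^ t ≠ y := by
      intro h
      apply hg2
      rw [← hCP, Subgroup.mem_centralizer_iff]
      intro h' hh'
      rw [Set.mem_singleton_iff.mp hh']
      apply Subtype.ext
      have h1 : (g : G)⁻¹ * y * g = y := by rw [ht', h]
      have h2 : y * (g : G) = g * y := by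
        calc y * (g : G) = g * ((g : G)⁻¹ * y * g) := by group
          _ = g * y := by rw [h1]
      exact h2
    have htN : y⁻¹ * y ^ t ∈ N := by
      rw [← hl, map_mul, map_inv, ← ht', map_mul, map_mul, map_inv, inv_mul_eq_one]
      rw [mul_comm ((l (g : G))⁻¹) (l y), mul_assoc, inv_mul_cancel, mul_one]
    obtain ⟨h3t, s, rfl, hs⟩ := c.lin_pow hDEF hBRC htN
    have e1 := a3 (s + 1) h3t
    have e2 := a3 1 (by norm_num)
    rw [vv_conj hχ.1.1 ht' hK₀] at e1
    rw [pow_one, pow_one] at e2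
    have hε0 : ε ≠ 0 := by rcases hε with rfl | rfl <;> norm_num
    have hw0 : w ≠ 0 := by
      intro h
      rw [h, zero_pow (by omega)] at a1
      exact zero_ne_one a1
    have e3 : w ^ s = 1 := by
      have h1 : ε * w = ε * w ^ (s + 1) := by rw [← e2, e1]
      have h2 := mul_left_cancel₀ hε0 h1
      rw [pow_succ] at h2
      exact (mul_eq_right₀ hw0).mp h2.symm
    have hns : ¬ 3 * N.index ∣ s := by
      intro h
      apply htne
      rw [pow_succ]
      obtain ⟨j, hj⟩ := h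
      rw [hj, pow_mul, ← hoy, pow_orderOf_eq_one, one_pow, one_mul]
    have hdw : orderOf w ∣ 3 ^ (r + 1) := by
      rw [pow_succ, mul_comm, ← hr]
      exact orderOf_dvd_of_pow_eq_one a1
    obtain ⟨j, hj1, hj⟩ := (Nat.dvd_prime_pow Nat.prime_three).mp hdw
    have hjr : j ≤ r := by
      by_contra hcon
      have : j = r + 1 := by omega
      apply hns
      rw [hr, mul_comm, ← pow_succ, ← this, ← hj]
      exact orderOf_dvd_of_pow_eq_one e3
    rw [← orderOf_dvd_iff_pow_eq_one, hj, hr]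
    exact pow_dvd_pow 3 hjr
  · -- the order is `q`
    have hoy2 : orderOf y = N.index := by
      rw [hd] at hord hoy ⊢
      have h1 : d ∣ 3 := by
        rw [mul_comm 3] at hord
        exact Nat.dvd_of_mul_dvd_mul_left hq0 hord
      rcases (Nat.dvd_prime Nat.prime_three).mp h1 with h2 | h2
      · rw [h2, mul_one]
      · exact absurd (by rw [h2, mul_comm]) hoy
    rw [← hoy2]
    exact a2

/-- the cyclic case -/
theorem beta {t : ℕ} (ht : x₁ = y ^ (t + 1)) :
    ∀ χ ∈ X0 O G, (Phi N.index K₀ K₁ y x₁ χ).2 = (Phi N.index K₀ K₁ y x₁ χ).1 ^ t := by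
  intro χ hχ
  obtain ⟨ε, hε, a1, a2, a3⟩ :=
    c.Phi_fst hDEF hBRC hEQ hNV h1P h1N hnc hK₀ hK₁ hc₀ hc₁ hχ
  set w := (Phi N.index K₀ K₁ y x₁ χ).1 with hw
  have h3t := (c.lin_pow hDEF hBRC (t := t + 1) (by rw [← ht]; exact h1N)).1
  obtain ⟨k, hk⟩ := c.el c.hy
  have hKK : K₁ = K₀ := by
    ext s
    rw [hK₀, hK₁, ht]
    have h1 := centralizer_pow hk h3t
    have h2 : ∀ u : G, s ∈ Subgroup.centralizer ({u} : Set G) ↔ Commute u s := by
      intro u
      rw [Subgroup.mem_centralizer_iff]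
      simp only [Set.mem_singleton_iff, forall_eq]
      exact Iff.rfl
    rw [← h2, ← h2, h1]
  have e1 := a3 (t + 1) h3t
  have e2 := a3 1 (by norm_num)
  rw [pow_one, pow_one] at e2
  have hε0 : ε ≠ 0 := by rcases hε with rfl | rfl <;> norm_num
  have hw0 : w ≠ 0 := by
    intro h
    obtain ⟨l, hl, hprim, hT, r, hr1, hr⟩ := c.lin hDEF hBRC
    have hq0 : 0 < N.index := by rw [hr]; positivity
    rw [h, zero_pow (by omega)] at a1
    exact zero_ne_one a1
  change vv K₁ x₁ χ / vv K₀ y χ = w ^ t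
  rw [hKK, ht, e1, e2, mul_div_mul_left _ _ hε0, pow_succ, mul_div_assoc, div_self hw0, mul_one]

end two

end Ctx

end Pool.Agent.Y62.GA
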