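import Pool.Agent.Y62.GA.Stm

/-!
Basic facts: the trivial character, Galois conjugation modulo `p`.
-/

set_option linter.style.haveILetI false
set_option linter.unusedSectionVars false

open scoped BigOperators Classical
open Pool.Agent.Helper884 Representation Pool.Agent.H254R3.IN

noncomputable section

namespace Pool.Agent.Y62.GA

open Pool.Agent.Y62

/-- the trivial character is irreducible -/
lemma irr_one (G : Type) [Group G] : IsIrr (fun _ : G => (1 : ℂ)) := by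
  refine ⟨ℂ, inferInstance, inferInstance, inferInstance, Representation.trivial ℂ G ℂ, ?_, ?_⟩
  · let f : Subrepresentation (Representation.trivial ℂ G ℂ) ≃o Submodule ℂ ℂ :=
      { toFun := fun S => S.toSubmodule
        invFun := fun S => ⟨S, by
          intro g x hx
          simpa using hx⟩
        left_inv := fun S => rfl
        right_inv := fun S => rfl
        map_rel_iff' := by
          intro S S'
          exact Iff.rfl }
    haveI : IsSimpleOrder (Submodule ℂ ℂ) := inferInstanceAs (IsSimpleOrder (Ideal ℂ))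
    exact (OrderIso.isSimpleOrder_iff f).2 inferInstance
  · funext g
    unfold Representation.character
    simp [Representation.trivial]

/-- the Galois automorphisms of the Navarro group, for `m` the `3'`-part of the order -/
def Nav (m : ℕ) (σ : ℂ ≃+* ℂ) : Prop := ∃ e : ℕ, ∀ ξ : ℂ, ξ ^ m = 1 → σ ξ = ξ ^ 3 ^ e

/-- Galois conjugate of a class function -/
def gal {G : Type} (σ : ℂ ≃+* ℂ) (χ : G → ℂ) : G → ℂ := fun g => σ (χ g)

/-- the characters of height zero of the principal block -/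
def X0 (O : ValuationSubring ℂ) (G : Type) [Group G] : Set (G → ℂ) :=
  {χ | χ ∈ B0 O G ∧ red O (χ 1) ≠ 0}

variable {O : ValuationSubring ℂ}

lemma nat_frob (hO : ((3 : ℕ) : ℂ) ∈ O.nonunits) (n e : ℕ) : ((n : RF O)) ^ 3 ^ e = n := by
  haveI := charP_RF (p := 3) hO
  have := map_natCast (iterateFrobenius (RF O) 3 e) n
  rwa [iterateFrobenius_def] at this

lemma red_gal_root (hO : ((3 : ℕ) : ℂ) ∈ O.nonunits) {σ : ℂ ≃+* ℂ} {m e b : ℕ} (hm : m ≠ 0)
    (hσ : ∀ ξ : ℂ, ξ ^ m = 1 → σ ξ = ξ ^ 3 ^ e) {ξ : ℂ} (h : ξ ^ (3 ^ b * m) = 1) :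
    σ ξ ∈ O ∧ red O (σ ξ) = red O ξ ^ 3 ^ e := by
  haveI := charP_RF (p := 3) hO
  have h0 : 3 ^ b * m ≠ 0 := mul_ne_zero (pow_ne_zero _ (by norm_num)) hm
  have hξ : ξ ∈ O := root_mem h0 h
  have hσξ : σ ξ ∈ O := root_mem h0 (by rw [← map_pow, h, map_one])
  refine ⟨hσξ, ?_⟩
  have h1 : σ ξ ^ 3 ^ b = (ξ ^ 3 ^ b) ^ 3 ^ e := by
    rw [← map_pow]
    exact hσ _ (by rw [← pow_mul]; exact h)
  have h2 := congrArg (red O) h1
  rw [red_pow hσξ, red_pow (pow_mem hξ _), red_pow hξ] at h2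
  have h3 : (red O (σ ξ) - red O ξ ^ 3 ^ e) ^ 3 ^ b = 0 := by
    rw [sub_pow_char_pow, h2, ← pow_mul, ← pow_mul, mul_comm, sub_self]
  exact sub_eq_zero.mp (pow_eq_zero_iff (pow_ne_zero _ (by norm_num)) |>.mp h3)

variable {G : Type} [Group G] [Fintype G]

/-- Fourier form of a character value -/
lemma val_four {χ : G → ℂ} (hχ : IsIrr χ) (x : G) : ∃ (n : ℕ → ℕ) (ζ : ℂ), ζ ^ orderOf x = 1 ∧
    χ x = ∑ j ∈ Finset.range (orderOf x), (n j : ℂ) * ζ ^ j := by
  obtain ⟨l, hl⟩ := exists_l x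
  have hy : ∀ h ∈ (⊥ : Subgroup G), Commute x h := by
    intro h hh
    rw [Subgroup.mem_bot.mp hh]
    exact Commute.one_right x
  obtain ⟨n, hn⟩ := ips_fourier hχ hy (irr_one (⊥ : Subgroup G)) l hl
  refine ⟨n, ((l (yy x) : ℂˣ) : ℂ), (prim_root l hl).pow_eq_one, ?_⟩
  have h1 := hn 1
  simp only [one_mul] at h1
  rw [← h1]
  unfold ips
  have h2 : ((default : (⊥ : Subgroup G)) : G) = 1 := rfl
  simp [h2]

lemma red_gal_char (hO : ((3 : ℕ) : ℂ) ∈ O.nonunits) {σ : ℂ ≃+* ℂ} {m e b : ℕ} (hm : m ≠ 0)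
    (hσ : ∀ ξ : ℂ, ξ ^ m = 1 → σ ξ = ξ ^ 3 ^ e) (hG : Nat.card G = 3 ^ b * m) {χ : G → ℂ}
    (hχ : IsIrr χ) (x : G) : σ (χ x) ∈ O ∧ red O (σ (χ x)) = red O (χ x) ^ 3 ^ e := by
  haveI := charP_RF (p := 3) hO
  obtain ⟨n, ζ, hζ, h⟩ := val_four hχ x
  have hζ' : ζ ^ (3 ^ b * m) = 1 := by
    rw [← hG]
    obtain ⟨c, hc⟩ := orderOf_dvd_natCard x
    rw [hc, pow_mul, hζ, one_pow]
  obtain ⟨h1, h2⟩ := red_gal_root hO hm hσ hζ'
  have hζO : ζ ∈ O := root_mem (mul_ne_zero (pow_ne_zero _ (by norm_num)) hm) hζ'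
  rw [h, map_sum]
  simp only [map_mul, map_natCast, map_pow]
  refine ⟨sum_mem' _ _ fun j _ => O.mul_mem _ _ (natCast_mem' _) (pow_mem h1 _), ?_⟩
  rw [red_sum _ _ fun j _ => O.mul_mem _ _ (natCast_mem' _) (pow_mem h1 _),
    red_sum _ _ fun j _ => O.mul_mem _ _ (natCast_mem' _) (pow_mem hζO _)]
  have h3 : ∀ z : RF O, z ^ 3 ^ e = iterateFrobenius (RF O) 3 e z := fun z => by
    rw [iterateFrobenius_def]
  rw [h3, map_sum]
  refine Finset.sum_congr rfl fun j _ => ?_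
  rw [red_mul (natCast_mem' _) (pow_mem h1 _), red_mul (natCast_mem' _) (pow_mem hζO _),
    map_mul, red_natCast, map_natCast, red_pow h1, red_pow hζO, h2, ← h3, ← pow_mul, ← pow_mul,
    Nat.mul_comm (3 ^ e) j]

/-- description of the principal block on characters of degree prime to 3 -/
lemma mem_B0_iff {χ : G → ℂ} (hχ : IsIrr χ) (h1 : red O (χ 1) ≠ 0) :
    χ ∈ B0 O G ↔ ∀ x : G, red O ((Nat.card {y : G // IsConj x y} : ℕ) : ℂ) ≠ 0 →
      red O (χ x) = red O (χ 1) := by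
  have hinv := inv_mem_of_red_ne h1
  have hom : ∀ x : G, omega χ x ∈ O ∧ red O (omega χ x) =
      red O ((Nat.card {y : G // IsConj x y} : ℕ) : ℂ) * red O (χ x) * (red O (χ 1))⁻¹ := by
    intro x
    refine ⟨hχ.omega_mem O x, ?_⟩
    unfold omega
    rw [div_eq_mul_inv, red_mul (O.mul_mem _ _ (natCast_mem' _) (hχ.val_mem O x)) hinv.2.1,
      red_mul (natCast_mem' _) (hχ.val_mem O x), red_inv h1]
  have ho1 : ∀ x : G, omega (fun _ : G => (1 : ℂ)) x = ((Nat.card {y : G // IsConj x y} : ℕ) : ℂ) := by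
    intro x
    unfold omega
    simp
  unfold B0
  simp only [Set.mem_ofPred_eq]
  constructor
  · rintro ⟨-, h⟩ x hx
    have h2 := (red_congr (hom x).1 (h x)).2
    rw [(hom x).2, ho1 x] at h2
    have h3 : red O (χ x) * (red O (χ 1))⁻¹ = 1 := by
      rw [mul_assoc] at h2
      exact (mul_eq_left₀ hx).mp h2
    rw [← div_eq_mul_inv, div_eq_one_iff_eq h1] at h3
    exact h3
  · intro h
    refine ⟨hχ, fun x => ?_⟩
    rw [ho1 x, ← red_eq_zero_iff (sub_mem' (hom x).1 (natCast_mem' _)),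
      red_sub (hom x).1 (natCast_mem' _), (hom x).2]
    by_cases hx : red O ((Nat.card {y : G // IsConj x y} : ℕ) : ℂ) = 0
    · rw [hx]
      ring
    · rw [h x hx, mul_assoc, mul_inv_cancel₀ h1, mul_one, sub_self]

/-- the Navarro group acts on the characters of height zero of the principal block -/
theorem gal_X0 (hI : S_IRR) (hO : ((3 : ℕ) : ℂ) ∈ O.nonunits) {σ : ℂ ≃+* ℂ} {m b : ℕ} (hm : m ≠ 0)
    (hσ : Nav m σ) (hG : Nat.card G = 3 ^ b * m) {χ : G → ℂ} (hχ : χ ∈ X0 O G) :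
    gal σ χ ∈ X0 O G := by
  obtain ⟨e, he⟩ := hσ
  have hi : IsIrr χ := hχ.1.1
  have hi' : IsIrr (gal σ χ) := hI G σ χ hi
  obtain ⟨n, hn0, hn⟩ := hi.deg
  have h1 : gal σ χ 1 = χ 1 := by
    unfold gal
    rw [← hn, map_natCast]
  have hr : red O (gal σ χ 1) ≠ 0 := by rw [h1]; exact hχ.2
  refine ⟨(mem_B0_iff hi' hr).mpr fun x hx => ?_, hr⟩
  have h2 := (mem_B0_iff hi hχ.2).mp hχ.1 x hx
  have h3 := (red_gal_char hO hm he hG hi x).2
  rw [h1]
  unfold gal
  rw [h3, h2, ← hn, red_natCast, nat_frob hO]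

end Pool.Agent.Y62.GA
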