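import Pool.Agent.Y62.GA.Common

/-!
The situation of the theorem: `G = N⟨y⟩`, small centralizers in the coset of `y`.
-/

set_option linter.style.haveILetI false
set_option linter.unusedSectionVars false

open scoped BigOperators Classical Pointwise
open Pool.Agent.Helper884 Representation Pool.Agent.H254R3.IN

noncomputable section

namespace Pool.Agent.Y62.GA

open Pool.Agent.Y62

variable {G : Type} [Group G] [Fintype G]

/-- the hypotheses -/
structure Ctx (O : ValuationSubring ℂ) (N : Subgroup G) (y : G) (P : Sylow 3 G) : Prop where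
  hO : ((3 : ℕ) : ℂ) ∈ O.nonunits
  hN : N.Normal
  hNt : N ≠ ⊤
  hgen : N ⊔ Subgroup.zpowers y = ⊤
  hy : y ∈ P
  h3 : 3 ∣ Nat.card N
  h9 : ∀ x : G, (∃ k, orderOf x = 3 ^ k) → y⁻¹ * x ∈ N →
    ¬ 9 ∣ Nat.card (Subgroup.centralizer ({x} : Set G) ⊓ N : Subgroup G)

namespace Ctx

variable {O : ValuationSubring ℂ} {N : Subgroup G} {y : G} {P : Sylow 3 G} (c : Ctx O N y P)

include c

lemma el {x : G} (hx : x ∈ P) : ∃ k, orderOf x = 3 ^ k := by
  obtain ⟨k, hk⟩ := P.2.exists_card_eq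
  have h1 : orderOf x ∣ Nat.card (P : Subgroup G) := Subgroup.orderOf_dvd_natCard _ hx
  rw [hk] at h1
  obtain ⟨j, _, hj⟩ := (Nat.dvd_prime_pow Nat.prime_three).mp h1
  exact ⟨j, hj⟩

lemma gen_of {x : G} (hx : y⁻¹ * x ∈ N) : N ⊔ Subgroup.zpowers x = ⊤ := by
  rw [eq_top_iff, ← c.hgen]
  apply sup_le le_sup_left
  rw [Subgroup.zpowers_le]
  have h1 : y = x * (y⁻¹ * x)⁻¹ := by group
  rw [h1]
  exact Subgroup.mul_mem _ (Subgroup.mem_sup_right (Subgroup.mem_zpowers x))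
    (Subgroup.mem_sup_left (N.inv_mem hx))

lemma PN : (P : Subgroup G) ⊓ N ≠ ⊥ := by
  intro h
  haveI := c.hN
  obtain ⟨u, hu⟩ := exists_prime_orderOf_dvd_card' (G := N) 3 c.h3
  have hu3 : orderOf (u : G) = 3 := by rw [Subgroup.orderOf_coe, hu]
  have hp : IsPGroup 3 (Subgroup.zpowers (u : G)) :=
    IsPGroup.of_card (n := 1) (by rw [Nat.card_zpowers, hu3, pow_one])
  obtain ⟨Q, hQ⟩ := hp.exists_le_sylow
  obtain ⟨g, hg⟩ := MulAction.exists_smul_eq G Q P
  have huQ : (u : G) ∈ Q := hQ (Subgroup.mem_zpowers _)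
  have h1 : g * (u : G) * g⁻¹ ∈ P := by
    have h0 : (MulAut.conj g) • (u : G) ∈ (MulAut.conj g) • (Q : Subgroup G) :=
      Subgroup.smul_mem_pointwise_smul _ _ _ huQ
    have h00 : ((g • Q : Sylow 3 G) : Subgroup G) = MulAut.conj g • (Q : Subgroup G) := rfl
    rw [← h00, hg] at h0
    exact h0
  have h2 : g * (u : G) * g⁻¹ ∈ ((P : Subgroup G) ⊓ N : Subgroup G) :=
    ⟨h1, c.hN.conj_mem _ u.2 _⟩
  rw [h, Subgroup.mem_bot] at h2
  have h3 : (u : G) = 1 := by
    have := congrArg (fun t => g⁻¹ * t * g) h2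
    simpa [mul_assoc] using this
  rw [h3, orderOf_one] at hu3
  norm_num at hu3

/-- the core data of the count -/
lemma core (hDEF : S_DEF) (hBRC : S_BRC) {x : G} (hxP : x ∈ P) (hx : y⁻¹ * x ∈ N) :
    Core O N P x (B0 O G) := by
  refine core_G c.hO c.hN c.hNt ⟨fun _ => 1, irr_one G, rfl⟩ (hDEF G O c.hO P) (hBRC G O c.hO P)
    hxP (c.gen_of hx) (c.h9 x (c.el hxP) hx) c.PN

/-- the finite set of the characters of height zero -/
def T0 (O : ValuationSubring ℂ) (G : Type) [Group G] [Fintype G] : Finset (G → ℂ) :=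
  (XB (B0 O G)).filter (fun χ => red O (χ 1) ≠ 0)

omit c in
lemma mem_T0 {χ : G → ℂ} : χ ∈ T0 O G ↔ χ ∈ X0 O G := by
  unfold T0 XB X0
  simp only [Finset.mem_filter, mem_Irr, Set.mem_ofPred_eq]
  constructor
  · rintro ⟨⟨_, h1⟩, h2⟩
    exact ⟨h1, h2⟩
  · rintro ⟨h1, h2⟩
    exact ⟨⟨h1.1, h1⟩, h2⟩

lemma card_T0 (hDEF : S_DEF) (hBRC : S_BRC) : (T0 O G).card = 3 * N.index := by
  have k := c.core hDEF hBRC c.hy (by rw [inv_mul_cancel]; exact N.one_mem)
  rw [← k.count]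
  congr 1
  unfold T0
  apply Finset.filter_congr
  intro χ hχ
  have hχB : χ ∈ B0 O G := (Finset.mem_filter.mp hχ).2
  have hu : uu (P : Subgroup G) χ ∈ O := k.hu χ hχB
  have h1 : χ 1 = uu (P : Subgroup G) χ * ((P : Subgroup G).index : ℕ) := by
    unfold uu
    have h2 := Subgroup.card_mul_index (P : Subgroup G)
    have h3 : (Nat.card G : ℂ) = Nat.card (P : Subgroup G) * ((P : Subgroup G).index : ℕ) := by
      rw [← Nat.cast_mul, h2]
    have h4 : (Nat.card (P : Subgroup G) : ℂ) ≠ 0 := by exact_mod_cast Nat.card_pos.ne'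
    have h5 : (((P : Subgroup G).index : ℕ) : ℂ) ≠ 0 := by
      exact_mod_cast (Subgroup.index_ne_zero_of_finite (H := (P : Subgroup G)))
    rw [h3]
    field_simp
  have h2 : red O (((P : Subgroup G).index : ℕ) : ℂ) ≠ 0 := by
    rw [ne_eq, red_nat_eq_zero_iff (p := 3) c.hO]
    exact P.not_dvd_index
  rw [h1, red_mul hu (natCast_mem' _)]
  constructor
  · intro h h3
    exact h (by rw [h3, zero_mul])
  · intro h
    exact mul_ne_zero h h2

end Ctx

end Pool.Agent.Y62.GA
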