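import Pool.Agent.Y62.GA.Loc

/-!
The exponent of `P/P'` and the Galois automorphisms `σ_e`.
-/

set_option linter.style.haveILetI false
set_option linter.unusedSectionVars false

open scoped BigOperators Classical
open Pool.Agent.Helper884 Representation Pool.Agent.H254R3.IN

noncomputable section

namespace Pool.Agent.Y62.GA

open Pool.Agent.Y62

variable {G : Type} [Group G] [Fintype G]

/-- a character of degree prime to 3 of a group with a normal Sylow 3-subgroup `Q` is trivial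
on `Q'` -/
lemma comm_trivial (Q : Sylow 3 G) (hQn : (Q : Subgroup G).Normal) {V : Type} [AddCommGroup V]
    [Module ℂ V] [FiniteDimensional ℂ V] (ρ : Representation ℂ G V) (hρ : ρ.IsIrreducible)
    (h3 : ¬ 3 ∣ Module.finrank ℂ V) :
    ∀ d ∈ (⁅(Q : Subgroup G), (Q : Subgroup G)⁆ : Subgroup G), ρ d = 1 := by
  have hχ : IsIrr ρ.character := ⟨V, _, _, inferInstance, ρ, hρ, rfl⟩
  obtain ⟨ψ, hψ, hψ1, hne⟩ := exists_linear hχ (n := Module.finrank ℂ V) (ρ.char_one).symm h3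
    (Q : Subgroup G) Q.2
  set D : Subgroup G := ⁅(Q : Subgroup G), (Q : Subgroup G)⁆ with hD
  have hDn : D.Normal := by
    rw [hD]
    infer_instance
  have hDQ : D ≤ Q := Subgroup.commutator_le_self _
  apply normal_trivial ρ hρ D hDn
  rw [ips_stages hDQ hχ]
  -- the linear constituent is trivial on the commutator subgroup
  have hlin : ∀ x ∈ D.subgroupOf (Q : Subgroup G), ψ x = 1 := by
    obtain ⟨W, _, _, _, τ, hτ, rfl⟩ := id hψ
    have hfr : Module.finrank ℂ W = 1 := by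
      have h1 := τ.char_one
      rw [hψ1] at h1
      exact_mod_cast h1.symm
    have hcomm : ∀ a b : Module.End ℂ W, a * b = b * a := by
      intro a b
      obtain ⟨w, hw0, hw⟩ := finrank_eq_one_iff'.mp hfr
      ext v
      obtain ⟨ca, hca⟩ := hw (a w)
      obtain ⟨cb, hcb⟩ := hw (b w)
      obtain ⟨c, rfl⟩ := hw v
      simp only [Module.End.mul_apply, map_smul, ← hca, ← hcb]
      rw [smul_comm ca cb w]
    have hker : ∀ x ∈ (_root_.commutator (Q : Subgroup G)), τ x = 1 := by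
      intro x hx
      let τ' : (Q : Subgroup G) →* (Module.End ℂ W)ˣ := τ.toHomUnits
      have h1 : _root_.commutator (Q : Subgroup G) ≤ τ'.ker := by
        rw [_root_.commutator_def, Subgroup.commutator_le]
        intro a _ b _
        rw [MonoidHom.mem_ker, map_commutatorElement, commutatorElement_eq_one_iff_mul_comm]
        exact Units.ext (hcomm _ _)
      have h2 := congrArg Units.val (MonoidHom.mem_ker.mp (h1 hx))
      exact h2
    intro x hx
    have h1 : x ∈ _root_.commutator (Q : Subgroup G) := by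
      have h2 : ((_root_.commutator (Q : Subgroup G)).map (Q : Subgroup G).subtype) = D :=
        Subgroup.map_subtype_commutator _
      rw [Subgroup.mem_subgroupOf, ← h2] at hx
      obtain ⟨x', hx', he⟩ := Subgroup.mem_map.mp hx
      have h3 : x' = x := Subtype.ext he
      rwa [h3] at hx'
    have h2 := hker x h1
    change LinearMap.trace ℂ W (τ x) = 1
    rw [h2]
    have h4 : LinearMap.trace ℂ W (τ 1) = 1 := hψ1
    rwa [map_one] at h4
  have hk : ips (D.subgroupOf (Q : Subgroup G)) 1 ψ (fun _ => 1) = 1 := by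
    unfold ips
    have h1 : ∑ h : D.subgroupOf (Q : Subgroup G), ψ (1 * (h : (Q : Subgroup G))) * 1 =
        (Nat.card (D.subgroupOf (Q : Subgroup G)) : ℂ) := by
      rw [Finset.sum_congr rfl (g := fun _ => (1 : ℂ))
        (fun h _ => by rw [one_mul, mul_one, hlin _ h.2]), Finset.sum_const, Finset.card_univ,
        nsmul_eq_mul, mul_one, Nat.card_eq_fintype_card]
    rw [h1]
    exact inv_mul_cancel₀ (by exact_mod_cast Nat.card_pos.ne')
  have hnat : ∀ ψ ∈ IC.Irr (Q : Subgroup G), ∃ a : ℕ,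
      ips (Q : Subgroup G) 1 ρ.character ψ *
        ips (D.subgroupOf (Q : Subgroup G)) 1 ψ (fun _ => 1) = (a : ℂ) := by
    intro ψ hψ
    obtain ⟨k, hk⟩ := ips_nat hχ (Q : Subgroup G) (IC.mem_Irr.mp hψ)
    obtain ⟨k', hk'⟩ := ips_one_nat (IC.mem_Irr.mp hψ) (D.subgroupOf (Q : Subgroup G))
    exact ⟨k * k', by rw [hk, hk', Nat.cast_mul]⟩
  choose! a ha using hnat
  rw [Finset.sum_congr rfl ha, ← Nat.cast_sum]
  intro h0
  have h1 : ∑ ψ ∈ IC.Irr (Q : Subgroup G), a ψ = 0 := by exact_mod_cast h0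
  have h2 := (Finset.sum_eq_zero_iff.mp h1) ψ (IC.mem_Irr.mpr hψ)
  have h4 := ha ψ (IC.mem_Irr.mpr hψ)
  rw [h2, hk, mul_one, Nat.cast_zero] at h4
  exact hne h4

/-- There is a valuation subring of `ℂ` whose maximal ideal contains `3`. -/
theorem place3 : ∃ O : ValuationSubring ℂ, ((3 : ℕ) : ℂ) ∈ O.nonunits := by
  let A : Subring ℂ := (Int.castRingHom ℂ).range
  have hpA : ((3 : ℕ) : ℂ) ∈ A := ⟨3, by simp⟩
  let I : Ideal A := Ideal.span {⟨((3 : ℕ) : ℂ), hpA⟩}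
  have hI : I ≠ ⊤ := by
    intro h
    have h1 : (1 : A) ∈ I := by rw [h]; trivial
    obtain ⟨⟨_, n, rfl⟩, hn⟩ := Ideal.mem_span_singleton'.mp h1
    have h2 := congrArg Subtype.val hn
    have h3 : (n : ℂ) * ((3 : ℕ) : ℂ) = 1 := h2
    have h4 : n * 3 = 1 := by exact_mod_cast h3
    omega
  obtain ⟨B, -, hB⟩ := I.image_subset_nonunits_valuationSubring hI
  exact ⟨B, hB ⟨_, Ideal.subset_span rfl, rfl⟩⟩

/-- **local statement** -/
theorem loc_fixed (Q : Sylow 3 G) (hQn : (Q : Subgroup G).Normal) {e : ℕ}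
    (hexp : Monoid.exponent (Abelianization (Q : Subgroup G)) ≤ 3 ^ e) {σ : ℂ ≃+* ℂ}
    (h1 : ∀ ξ : ℂ, ξ ^ (Q : Subgroup G).index = 1 → σ ξ = ξ)
    (h2 : ∀ ξ : ℂ, ξ ^ Nat.card (Q : Subgroup G) = 1 → σ ξ = ξ ^ (1 + 3 ^ e)) {χ : G → ℂ}
    (hχ : IsIrr χ) {n : ℕ} (hn : (n : ℂ) = χ 1) (h3 : ¬ 3 ∣ n) : gal σ χ = χ := by
  haveI : Fact (Nat.Prime 3) := ⟨Nat.prime_three⟩
  obtain ⟨V, _, _, _, ρ, hρ, rfl⟩ := id hχ
  have hnV : n = Module.finrank ℂ V := by
    rw [ρ.char_one] at hn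
    exact_mod_cast hn
  have htriv := comm_trivial Q hQn ρ hρ (by rwa [← hnV])
  -- the exponent
  obtain ⟨k, hk⟩ := Q.2.exists_card_eq
  have hcard : Nat.card (Abelianization (Q : Subgroup G)) ∣ 3 ^ k := by
    rw [← hk]
    exact Subgroup.card_quotient_dvd_card _
  have h4 : Monoid.exponent (Abelianization (Q : Subgroup G)) ∣ 3 ^ k :=
    Group.exponent_dvd_nat_card.trans hcard
  obtain ⟨j, hjk, hj⟩ := (Nat.dvd_prime_pow Nat.prime_three).mp h4
  rw [hj] at hexp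
  have hje : j ≤ e := (Nat.pow_le_pow_iff_right (by norm_num)).mp hexp
  set m : ℕ := (Q : Subgroup G).index with hm
  have hm3 : ¬ 3 ∣ m := Q.not_dvd_index
  have hpow : ∀ g : G, (ρ g) ^ (m * 3 ^ j) = 1 := by
    intro g
    have h4 : g ^ m ∈ (Q : Subgroup G) := Subgroup.pow_index_mem _ g
    have h5 : (Abelianization.of (⟨g ^ m, h4⟩ : (Q : Subgroup G))) ^ 3 ^ j = 1 := by
      rw [← hj]
      exact Monoid.pow_exponent_eq_one _
    rw [← map_pow] at h5
    have h6 : (⟨g ^ m, h4⟩ : (Q : Subgroup G)) ^ 3 ^ j ∈ _root_.commutator (Q : Subgroup G) := by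
      have := (QuotientGroup.eq_one_iff _).mp h5
      exact this
    have h7 : (g ^ m) ^ 3 ^ j ∈ (⁅(Q : Subgroup G), (Q : Subgroup G)⁆ : Subgroup G) := by
      rw [← Subgroup.map_subtype_commutator]
      exact Subgroup.mem_map_of_mem (Q : Subgroup G).subtype h6
    rw [← map_pow, pow_mul]
    exact htriv _ h7
  funext g
  change σ (LinearMap.trace ℂ V (ρ g)) = LinearMap.trace ℂ V (ρ g)
  apply trace_fixed _ (hpow g)
  intro ξ hξ
  -- split the root of unity
  have hξ0 : ξ ≠ 0 := by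
    rintro rfl
    rw [zero_pow (mul_ne_zero (by rintro h; exact hm3 (by rw [h]; exact dvd_zero _))
      (pow_ne_zero _ (by norm_num)))] at hξ
    exact zero_ne_one hξ
  have hcop : IsCoprime (m : ℤ) ((3 ^ j : ℕ) : ℤ) := by
    rw [Nat.isCoprime_iff_coprime]
    exact (Nat.Coprime.pow_left j ((Nat.Prime.coprime_iff_not_dvd Nat.prime_three).mpr hm3)).symm
  obtain ⟨a, b, hab⟩ := hcop
  have f1 : σ (ξ ^ m) = ξ ^ m := by
    have h8 : (ξ ^ m) ^ 3 ^ j = 1 := by rw [← pow_mul]; exact hξ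
    have h9 : (ξ ^ m) ^ Nat.card (Q : Subgroup G) = 1 := by
      rw [hk]
      obtain ⟨d, hd⟩ := pow_dvd_pow 3 hjk
      rw [hd, pow_mul, h8, one_pow]
    have h10 : (ξ ^ m) ^ 3 ^ e = 1 := by
      obtain ⟨d, hd⟩ := pow_dvd_pow 3 hje
      rw [hd, pow_mul, h8, one_pow]
    rw [h2 _ h9, pow_add, pow_one, h10, mul_one]
  have f2 : σ (ξ ^ 3 ^ j) = ξ ^ 3 ^ j := h1 _ (by rw [← pow_mul, mul_comm]; exact hξ)
  have h9 : ξ = (ξ ^ m) ^ a * (ξ ^ 3 ^ j) ^ b := by
    rw [← zpow_natCast ξ m, ← zpow_natCast ξ (3 ^ j), ← zpow_mul, ← zpow_mul, ← zpow_add₀ hξ0]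
    have h10 : (m : ℤ) * a + ((3 ^ j : ℕ) : ℤ) * b = 1 := by linarith
    rw [h10, zpow_one]
  rw [h9, map_mul, map_zpow₀, map_zpow₀, f1, f2]

/-- **global statement** -/
theorem glob_fixed {O : ValuationSubring ℂ} {N : Subgroup G} {y : G} {P : Sylow 3 G}
    (c : Ctx O N y P) {b m : ℕ} (hm : ¬ 3 ∣ m) (hG : Nat.card G = 3 ^ b * m) {e : ℕ}
    (hexp : Monoid.exponent (Abelianization (P : Subgroup G)) ≤ 3 ^ e) {σ : ℂ ≃+* ℂ}
    (h1 : ∀ ξ : ℂ, ξ ^ m = 1 → σ ξ = ξ)
    (h2 : ∀ ξ : ℂ, ξ ^ 3 ^ b = 1 → σ ξ = ξ ^ (1 + 3 ^ e)) {χ : G → ℂ}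
    (hχ : χ ∈ X0 O G) : gal σ χ = χ := by
  haveI : Fact (Nat.Prime 3) := ⟨Nat.prime_three⟩
  obtain ⟨f, hf⟩ := equivariant c hm hG
  obtain ⟨h3, h4⟩ := hf σ ⟨0, fun ξ hξ => by rw [pow_zero, pow_one]; exact h1 ξ hξ⟩ ⟨χ, hχ⟩
  set θ := f ⟨χ, hχ⟩ with hθ
  let Q : Sylow 3 (NN (P : Subgroup G)) := P.subtype Subgroup.le_normalizer
  have hQ : (Q : Subgroup (NN (P : Subgroup G))) = (P : Subgroup G).subgroupOf (NN (P : Subgroup G)) :=
    Sylow.coe_subtype _ _
  have hQn : (Q : Subgroup (NN (P : Subgroup G))).Normal := by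
    rw [hQ]
    exact Subgroup.normal_in_normalizer
  have e1 : (Q : Subgroup (NN (P : Subgroup G))) ≃* (P : Subgroup G) :=
    (MulEquiv.subgroupCongr hQ).trans (Subgroup.subgroupOfEquivOfLe Subgroup.le_normalizer)
  have hexp' : Monoid.exponent (Abelianization (Q : Subgroup (NN (P : Subgroup G)))) ≤ 3 ^ e := by
    rw [Monoid.exponent_eq_of_mulEquiv (e1.abelianizationCongr)]
    exact hexp
  -- orders
  have hcP : Nat.card (P : Subgroup G) = 3 ^ b := by
    rw [P.card_eq_multiplicity, hG, Nat.factorization_mul (pow_ne_zero _ (by norm_num))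
      (by rintro rfl; exact hm (dvd_zero _)), Nat.Prime.factorization_pow Nat.prime_three]
    simp [Nat.factorization_eq_zero_of_not_dvd hm]
  have hcQ : Nat.card (Q : Subgroup (NN (P : Subgroup G))) = 3 ^ b := by
    rw [Nat.card_congr e1.toEquiv, hcP]
  have hiQ : (Q : Subgroup (NN (P : Subgroup G))).index ∣ m := by
    have h5 : (Q : Subgroup (NN (P : Subgroup G))).index ∣ (P : Subgroup G).index := by
      rw [hQ, ← Subgroup.relIndex_mul_index (Subgroup.le_normalizer (H := (P : Subgroup G)))]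
      exact Dvd.intro _ rfl
    have h6 : (P : Subgroup G).index = m := by
      have h7 := (P : Subgroup G).card_mul_index
      rw [hcP, hG] at h7
      exact Nat.eq_of_mul_eq_mul_left (by positivity) h7
    rwa [h6] at h5
  obtain ⟨n, hn, hn3⟩ := ((mem_X0_iff c.hO).mp θ.2).2
  have h5 := loc_fixed Q hQn hexp' (σ := σ) (fun ξ hξ => h1 ξ (by
    obtain ⟨d, hd⟩ := hiQ
    rw [hd, pow_mul, hξ, one_pow])) (fun ξ hξ => h2 ξ (by rwa [hcQ] at hξ)) θ.2.1.1 hn hn3
  rw [h5] at h4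
  have h6 : (⟨gal σ χ, h3⟩ : X0 O G) = ⟨χ, hχ⟩ := f.injective (Subtype.ext h4)
  exact congrArg Subtype.val h6

end Pool.Agent.Y62.GA
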