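import Pool.Agent.Y62.GA.M2b

/-!
The model of the characters of height zero when some element inverts: image.
-/

set_option linter.style.haveILetI false
set_option linter.unusedSectionVars false

open scoped BigOperators Classical
open Pool.Agent.Helper884 Representation Pool.Agent.H254R3.IN

noncomputable section

namespace Pool.Agent.Y62.GA

open Pool.Agent.Y62

variable {G : Type} [Group G] [Fintype G]

/-- the type of three numbers -/
def typ (u v w : ℂ) : ℂ := if u = v then 2 else if v = w then 0 else 1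

/-- the characteristic difference of three numbers -/
def del (u v w : ℂ) : ℂ := if u = v then w - u else if v = w then u - v else v - u

lemma typ_gal (σ : ℂ ≃+* ℂ) (u v w : ℂ) : typ (σ u) (σ v) (σ w) = σ (typ u v w) := by
  unfold typ
  simp only [σ.injective.eq_iff]
  split_ifs
  · exact (map_ofNat σ 2).symm
  · exact (map_zero σ).symm
  · exact (map_one σ).symm

lemma del_gal (σ : ℂ ≃+* ℂ) (u v w : ℂ) : del (σ u) (σ v) (σ w) = σ (del u v w) := by
  unfold del
  simp only [σ.injective.eq_iff]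
  split_ifs <;> rw [map_sub]

lemma typ_mul {ζ : ℂ} (hζ : ζ ≠ 0) (u v w : ℂ) : typ (ζ * u) (ζ * v) (ζ * w) = typ u v w := by
  unfold typ
  simp only [mul_right_inj' hζ]

lemma del_mul {ζ : ℂ} (hζ : ζ ≠ 0) (u v w : ℂ) : del (ζ * u) (ζ * v) (ζ * w) = ζ * del u v w := by
  unfold del
  simp only [mul_right_inj' hζ]
  split_ifs <;> ring

namespace Ctx

variable {O : ValuationSubring ℂ} {N : Subgroup G} {y : G} {P : Sylow 3 G} (c : Ctx O N y P)

include c

theorem model2 (hDEF : S_DEF) (hBRC : S_BRC) {x : G} (hx : y⁻¹ * x ∈ N) {M : Subgroup G}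
    {X : Finset (M → ℂ)} {e : (M → ℂ) → ℤ} (d : D2 O N x M X e) :
    ∃ Φ : (G → ℂ) → ℂ × ℂ,
      (∀ (σ : ℂ ≃+* ℂ) (χ : G → ℂ), Φ (gal σ χ) = (σ (Φ χ).1, σ (Φ χ).2)) ∧
      Set.InjOn Φ (X0 O G) ∧
      Φ '' (X0 O G) = {p : ℂ × ℂ | (p.1 = 0 ∨ p.1 = 1 ∨ p.1 = 2) ∧ p.2 ^ N.index = 1} := by
  obtain ⟨l, hl, hprim, hT, r, hr1, hr⟩ := c.lin hDEF hBRC
  have hq : Odd N.index := by
    rw [hr]
    exact Odd.pow (by decide)
  have hq0 : 0 < N.index := hq.pos
  have hcard := c.card_T0 hDEF hBRC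
  obtain ⟨a, b, f, hab, haf, hbf, hXabf⟩ := Finset.card_eq_three.mp d.hX3
  have haX : a ∈ X := by rw [hXabf]; simp
  have hbX : b ∈ X := by rw [hXabf]; simp
  have hfX : f ∈ X := by rw [hXabf]; simp
  set u : (M → ℂ) → (G → ℂ) → ℂ := fun ψ χ => (e ψ : ℂ) * ips M x χ ψ with hu
  have hugal : ∀ (σ : ℂ ≃+* ℂ), ∀ ψ ∈ X, ∀ χ, u ψ (gal σ χ) = σ (u ψ χ) := by
    intro σ ψ hψ χ
    have h1 := ips_gal σ M x χ ψ
    rw [d.hfix σ ψ hψ] at h1
    change (e ψ : ℂ) * ips M x (gal σ χ) ψ = σ ((e ψ : ℂ) * ips M x χ ψ)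
    rw [h1, map_mul, map_intCast]
  have hutw : ∀ ψ χ, u ψ (tw l χ) = ((l x : ℂˣ) : ℂ) * u ψ χ := by
    intro ψ χ
    change (e ψ : ℂ) * ips M x (tw l χ) ψ = _ * ((e ψ : ℂ) * ips M x χ ψ)
    rw [ips_tw hl d.hMN]
    ring
  have hζ0 : ((l x : ℂˣ) : ℂ) ≠ 0 := Units.ne_zero _
  set ty : (G → ℂ) → ℂ := fun χ => typ (u a χ) (u b χ) (u f χ) with hty
  set de : (G → ℂ) → ℂ := fun χ => del (u a χ) (u b χ) (u f χ) with hde
  -- not all equal
  have hnot : ∀ χ ∈ X0 O G, ¬ (u a χ = u b χ ∧ u b χ = u f χ) := by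
    rintro χ hχ ⟨h1, h2⟩
    apply d.hne χ hχ
    have hall : ∀ ψ ∈ X, u ψ χ = u f χ := by
      intro ψ hψ
      rw [hXabf] at hψ
      simp only [Finset.mem_insert, Finset.mem_singleton] at hψ
      rcases hψ with rfl | rfl | rfl
      · rw [h1, h2]
      · exact h2
      · rfl
    intro ψ hψ ψ' hψ'
    exact (hall ψ hψ).trans (hall ψ' hψ').symm
  have hroot : ∀ χ ∈ X0 O G, ∃ w ε : ℂ, w ^ N.index = 1 ∧ (ε = 1 ∨ ε = -1) ∧ de χ = ε * w := by
    intro χ hχ
    change ∃ w ε : ℂ, w ^ N.index = 1 ∧ (ε = 1 ∨ ε = -1) ∧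
      del (u a χ) (u b χ) (u f χ) = ε * w
    unfold del
    by_cases h1 : u a χ = u b χ
    · rw [if_pos h1]
      exact (d.hpair f hfX a haX haf.symm).2 χ hχ (fun h => hnot χ hχ ⟨h1, by
        rw [← h1]; exact (sub_eq_zero.mp h).symm⟩)
    · rw [if_neg h1]
      by_cases h2 : u b χ = u f χ
      · rw [if_pos h2]
        exact (d.hpair a haX b hbX hab).2 χ hχ (fun h => h1 (sub_eq_zero.mp h))
      · rw [if_neg h2]
        exact (d.hpair b hbX a haX hab.symm).2 χ hχ (fun h => h1 (sub_eq_zero.mp h).symm)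
  have hde0 : ∀ χ ∈ X0 O G, de χ ≠ 0 := by
    intro χ hχ h
    obtain ⟨w, ε, h1, h2, h3⟩ := hroot χ hχ
    have h4 := root_norm hq0.ne' h1 h2
    rw [← h3, h, norm_zero] at h4
    norm_num at h4
  -- the counts
  have hcnt : ∀ a ∈ X, ∀ b ∈ X, a ≠ b → ((T0 O G).filter (fun χ => u a χ = u b χ)).card =
      N.index := by
    intro a ha b hb hab
    have h1 := (d.hpair a ha b hb hab).1
    have h2 := Finset.card_filter_add_card_filter_not (s := T0 O G) (fun χ => u a χ = u b χ)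
    have h3 : (T0 O G).filter (fun χ => ¬ u a χ = u b χ) = (T0 O G).filter
        (fun χ => (e a : ℂ) * ips M x χ a - (e b : ℂ) * ips M x χ b ≠ 0) := by
      apply Finset.filter_congr
      intro χ _
      rw [ne_eq, sub_eq_zero]
    rw [h3, h1, hcard] at h2
    omega
  have c1 := hcnt a haX b hbX hab
  have c2 := hcnt b hbX f hfX hbf
  have hty2 : ∀ χ, ty χ = 2 ↔ u a χ = u b χ := by
    intro χ
    change typ (u a χ) (u b χ) (u f χ) = 2 ↔ _
    unfold typ
    split_ifs with h1 h2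
    · exact ⟨fun _ => h1, fun _ => rfl⟩
    · exact ⟨fun h => by norm_num at h, fun h => absurd h h1⟩
    · exact ⟨fun h => by norm_num at h, fun h => absurd h h1⟩
  have hty0 : ∀ χ, ty χ = 0 ↔ (u a χ ≠ u b χ ∧ u b χ = u f χ) := by
    intro χ
    change typ (u a χ) (u b χ) (u f χ) = 0 ↔ _
    unfold typ
    split_ifs with h1 h2
    · exact ⟨fun h => by norm_num at h, fun h => absurd h1 h.1⟩
    · exact ⟨fun _ => ⟨h1, h2⟩, fun _ => rfl⟩
    · exact ⟨fun h => by norm_num at h, fun h => absurd h.2 h2⟩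
  have hty1 : ∀ χ, ty χ = 1 ↔ (u a χ ≠ u b χ ∧ u b χ ≠ u f χ) := by
    intro χ
    change typ (u a χ) (u b χ) (u f χ) = 1 ↔ _
    unfold typ
    split_ifs with h1 h2
    · exact ⟨fun h => by norm_num at h, fun h => absurd h1 h.1⟩
    · exact ⟨fun h => by norm_num at h, fun h => absurd h2 h.2⟩
    · exact ⟨fun _ => ⟨h1, h2⟩, fun _ => rfl⟩
  have htyc : ∀ χ, ty χ = 0 ∨ ty χ = 1 ∨ ty χ = 2 := by
    intro χ
    by_cases h1 : u a χ = u b χ
    · exact Or.inr (Or.inr ((hty2 χ).mpr h1))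
    · by_cases h2 : u b χ = u f χ
      · exact Or.inl ((hty0 χ).mpr ⟨h1, h2⟩)
      · exact Or.inr (Or.inl ((hty1 χ).mpr ⟨h1, h2⟩))
  have l2 : ((T0 O G).filter (fun χ => ty χ = 2)).card = N.index := by
    rw [← c1]
    congr 1
    exact Finset.filter_congr fun χ _ => hty2 χ
  have l0 : ((T0 O G).filter (fun χ => ty χ = 0)).card = N.index := by
    rw [← c2]
    congr 1
    apply Finset.filter_congr
    intro χ hχ
    rw [hty0 χ]
    constructor
    · exact fun h => h.2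
    · exact fun h => ⟨fun h1 => hnot χ (mem_T0.mp hχ) ⟨h1, h⟩, h⟩
  have l1 : ((T0 O G).filter (fun χ => ty χ = 1)).card = N.index := by
    have h1 : (T0 O G).card = ∑ t ∈ ({0, 1, 2} : Finset ℂ),
        ((T0 O G).filter (fun χ => ty χ = t)).card := by
      apply Finset.card_eq_sum_card_fiberwise
      intro χ _
      have := htyc χ
      simpa using this
    rw [Finset.sum_insert (by norm_num), Finset.sum_insert (by norm_num), Finset.sum_singleton,
      l0, l2, hcard] at h1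
    omega
  have hlev : ∀ χ ∈ T0 O G, ((T0 O G).filter (fun χ' => ty χ' = ty χ)).card ≤ N.index := by
    intro χ _
    rcases htyc χ with h | h | h
    · rw [h, l0]
    · rw [h, l1]
    · rw [h, l2]
  have htytw : ∀ χ, ty (tw l χ) = ty χ := by
    intro χ
    change typ (u a (tw l χ)) (u b (tw l χ)) (u f (tw l χ)) = _
    rw [hutw, hutw, hutw, typ_mul hζ0]
  have hdetw : ∀ χ, de (tw l χ) = ((l x : ℂˣ) : ℂ) * de χ := by
    intro χ
    change del (u a (tw l χ)) (u b (tw l χ)) (u f (tw l χ)) = _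
    rw [hutw, hutw, hutw, del_mul hζ0]
  refine ⟨fun χ => (ty χ, sf N.index (de χ)), fun σ χ => ?_, ?_, ?_⟩
  · have h1 : ty (gal σ χ) = σ (ty χ) := by
      change typ (u a (gal σ χ)) (u b (gal σ χ)) (u f (gal σ χ)) = _
      rw [hugal σ a haX, hugal σ b hbX, hugal σ f hfX, typ_gal]
    have h2 : de (gal σ χ) = σ (de χ) := by
      change del (u a (gal σ χ)) (u b (gal σ χ)) (u f (gal σ χ)) = _
      rw [hugal σ a haX, hugal σ b hbX, hugal σ f hfX, del_gal]
    simp only [h1, h2, sf_gal]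
  · intro χ hχ χ' hχ' he
    have he1 : ty χ = ty χ' := congrArg Prod.fst he
    have he2 : sf N.index (de χ) = sf N.index (de χ') := congrArg Prod.snd he
    obtain ⟨i, hi, hii⟩ := (level_orbit (T := T0 O G) (a := tw l) (v := de) (w := ty)
      (hprim x hx) hT hdetw (fun χ hχ => hde0 χ (mem_T0.mp hχ)) (fun χ _ => htytw χ)
      (mem_T0.mpr hχ)).2 (hlev χ (mem_T0.mpr hχ)) χ' (mem_T0.mpr hχ') he1.symm
    have hv : de χ' = ((l x : ℂˣ) : ℂ) ^ i * de χ := by
      rw [← hii]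
      exact iter_v hdetw χ i
    obtain ⟨w, ε, a1, a2, a3⟩ := hroot χ hχ
    have hζ : (((l x : ℂˣ) : ℂ) ^ i) ^ N.index = 1 := by
      rw [← pow_mul, mul_comm, pow_mul, (hprim x hx).pow_eq_one, one_pow]
    rw [hv, a3, sf_of hq a1 a2, mul_left_comm,
      sf_of hq (by rw [mul_pow, hζ, a1, one_mul]) a2] at he2
    have hw0 : w ≠ 0 := by
      rintro rfl
      rw [zero_pow hq0.ne'] at a1
      exact zero_ne_one a1
    have h3 : ((l x : ℂˣ) : ℂ) ^ i = 1 := by
      have h4 : ((l x : ℂˣ) : ℂ) ^ i * w = 1 * w := by rw [← he2, one_mul]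
      exact mul_right_cancel₀ hw0 h4
    have h5 : i = 0 := Nat.eq_zero_of_dvd_of_lt ((hprim x hx).dvd_of_pow_eq_one i h3) hi
    rw [h5] at hii
    exact hii
  · set Φ : (G → ℂ) → ℂ × ℂ := fun χ => (ty χ, sf N.index (de χ)) with hΦ
    have hinj : Set.InjOn Φ (X0 O G) := by
      intro χ hχ χ' hχ' he
      have he1 : ty χ = ty χ' := congrArg Prod.fst he
      have he2 : sf N.index (de χ) = sf N.index (de χ') := congrArg Prod.snd he
      obtain ⟨i, hi, hii⟩ := (level_orbit (T := T0 O G) (a := tw l) (v := de) (w := ty)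
        (hprim x hx) hT hdetw (fun χ hχ => hde0 χ (mem_T0.mp hχ)) (fun χ _ => htytw χ)
        (mem_T0.mpr hχ)).2 (hlev χ (mem_T0.mpr hχ)) χ' (mem_T0.mpr hχ') he1.symm
      have hv : de χ' = ((l x : ℂˣ) : ℂ) ^ i * de χ := by
        rw [← hii]
        exact iter_v hdetw χ i
      obtain ⟨w, ε, a1, a2, a3⟩ := hroot χ hχ
      have hζ : (((l x : ℂˣ) : ℂ) ^ i) ^ N.index = 1 := by
        rw [← pow_mul, mul_comm, pow_mul, (hprim x hx).pow_eq_one, one_pow]
      rw [hv, a3, sf_of hq a1 a2, mul_left_comm,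
        sf_of hq (by rw [mul_pow, hζ, a1, one_mul]) a2] at he2
      have hw0 : w ≠ 0 := by
        rintro rfl
        rw [zero_pow hq0.ne'] at a1
        exact zero_ne_one a1
      have h3 : ((l x : ℂˣ) : ℂ) ^ i = 1 := by
        have h4 : ((l x : ℂˣ) : ℂ) ^ i * w = 1 * w := by rw [← he2, one_mul]
        exact mul_right_cancel₀ hw0 h4
      have h5 : i = 0 := Nat.eq_zero_of_dvd_of_lt ((hprim x hx).dvd_of_pow_eq_one i h3) hi
      rw [h5] at hii
      exact hii
    set F := ({0, 1, 2} : Finset ℂ) ×ˢ Polynomial.nthRootsFinset N.index (1 : ℂ) with hF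
    have hFc : F.card = 3 * N.index := by
      rw [hF, Finset.card_product, (hprim x hx).card_nthRootsFinset]
      congr 1
      rw [Finset.card_eq_three]
      exact ⟨0, 1, 2, by norm_num, by norm_num, by norm_num, rfl⟩
    have hsub : (T0 O G).image Φ ⊆ F := by
      intro p hp
      obtain ⟨χ, hχ, rfl⟩ := Finset.mem_image.mp hp
      rw [hF, Finset.mem_product, Polynomial.mem_nthRootsFinset hq0]
      obtain ⟨w, ε, a1, a2, a3⟩ := hroot χ (mem_T0.mp hχ)
      refine ⟨?_, ?_⟩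
      · have := htyc χ
        simpa [hΦ] using this
      · change sf N.index (de χ) ^ N.index = 1
        rw [a3, sf_of hq a1 a2, a1]
    have hic : ((T0 O G).image Φ).card = 3 * N.index := by
      rw [Finset.card_image_of_injOn, hcard]
      intro χ hχ χ' hχ' h
      exact hinj (mem_T0.mp hχ) (mem_T0.mp hχ') h
    have heq := Finset.eq_of_subset_of_card_le hsub (by rw [hic, hFc])
    ext p
    have h1 : p ∈ Φ '' (X0 O G) ↔ p ∈ (T0 O G).image Φ := by
      rw [Finset.mem_image]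
      constructor
      · rintro ⟨χ, hχ, h⟩
        exact ⟨χ, mem_T0.mpr hχ, h⟩
      · rintro ⟨χ, hχ, h⟩
        exact ⟨χ, mem_T0.mp hχ, h⟩
    rw [h1, heq, hF, Finset.mem_product, Polynomial.mem_nthRootsFinset hq0]
    simp

end Ctx

end Pool.Agent.Y62.GA
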