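import Pool.Agent.Y62.GA.Alpha
import Pool.Agent.Y62.GA.M2c

/-!
The main theorem: comparison of `G` and the normaliser of a Sylow subgroup.
-/

set_option linter.style.haveILetI false
set_option linter.unusedSectionVars false

open scoped BigOperators Classical Pointwise
open Pool.Agent.Helper884 Representation Pool.Agent.H254R3.IN

noncomputable section

namespace Pool.Agent.Y62.GA

open Pool.Agent.Y62

variable {G : Type} [Group G] [Fintype G]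

/-- the local inverting condition -/
def Inv (N : Subgroup G) (y : G) (P : Sylow 3 G) : Prop :=
  ∃ x z n : G, x ∈ P ∧ y⁻¹ * x ∈ N ∧ z ∈ P ∧ z ∈ N ∧ orderOf z = 3 ∧ Commute z x ∧
    n ∈ Subgroup.normalizer ((P : Subgroup G) : Set G) ∧ Commute n x ∧ n⁻¹ * z * n = z⁻¹

/-- the global non-inverting condition -/
def NI (N : Subgroup G) (y : G) : Prop :=
  ∀ x : G, (∃ k, orderOf x = 3 ^ k) → y⁻¹ * x ∈ N → ∀ z e : G, orderOf z = 3 → z ∈ N →
    Commute z x → Commute e x → e⁻¹ * z * e ≠ z⁻¹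

namespace Ctx

variable {O : ValuationSubring ℂ} {N : Subgroup G} {y : G} {P : Sylow 3 G} (c : Ctx O N y P)

include c

/-- elements of the coset of `y` are permuted by conjugation -/
lemma conj_coset (hDEF : S_DEF) (hBRC : S_BRC) {x : G} (hx : y⁻¹ * x ∈ N) (g : G) :
    y⁻¹ * (g * x * g⁻¹) ∈ N := by
  obtain ⟨l, hl, -⟩ := c.lin hDEF hBRC
  rw [← hl] at hx ⊢
  rw [map_mul, map_inv, inv_mul_eq_one] at hx ⊢
  rw [map_mul, map_mul, map_inv, hx, mul_comm (l g), mul_assoc, mul_inv_cancel, mul_one]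

/-- conjugation into `P` -/
lemma into_P {Q : Sylow 3 G} : ∃ g : G, ∀ x ∈ Q, g * x * g⁻¹ ∈ P := by
  obtain ⟨g, hg⟩ := MulAction.exists_smul_eq G Q P
  refine ⟨g, fun x hx => ?_⟩
  have h0 : (MulAut.conj g) • x ∈ (MulAut.conj g) • (Q : Subgroup G) :=
    Subgroup.smul_mem_pointwise_smul _ _ _ hx
  have h00 : ((g • Q : Sylow 3 G) : Subgroup G) = MulAut.conj g • (Q : Subgroup G) := rfl
  rw [← h00, hg] at h0
  exact h0

lemma NI_of (hDEF : S_DEF) (hBRC : S_BRC) (hFUS : S_FUS) (h : ¬ Inv N y P) : NI N y := by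
  intro x hxo hx z e hz hzN hzx hex hez
  apply h
  obtain ⟨Q, hxQ, hzQ, n, hn, hnx, hnz⟩ := hFUS G N x c.hN (c.gen_of hx) hxo (c.h9 x hxo hx)
    z e hz hzN hzx hex hez
  obtain ⟨g, hg⟩ := MulAction.exists_smul_eq G Q P
  have hgP : ∀ u ∈ Q, g * u * g⁻¹ ∈ P := by
    intro u hu
    have h0 : (MulAut.conj g) • u ∈ (MulAut.conj g) • (Q : Subgroup G) :=
      Subgroup.smul_mem_pointwise_smul _ _ _ hu
    have h00 : ((g • Q : Sylow 3 G) : Subgroup G) = MulAut.conj g • (Q : Subgroup G) := rfl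
    rw [← h00, hg] at h0
    exact h0
  have hgP' : ∀ u ∈ P, g⁻¹ * u * g ∈ Q := by
    intro u hu
    have hg' : g⁻¹ • P = Q := by rw [← hg, inv_smul_smul]
    have h0 : (MulAut.conj g⁻¹) • u ∈ (MulAut.conj g⁻¹) • (P : Subgroup G) :=
      Subgroup.smul_mem_pointwise_smul _ _ _ hu
    have h00 : ((g⁻¹ • P : Sylow 3 G) : Subgroup G) = MulAut.conj g⁻¹ • (P : Subgroup G) := rfl
    rw [← h00, hg'] at h0
    have h1 : (MulAut.conj g⁻¹) • u = g⁻¹ * u * g := by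
      change g⁻¹ * u * g⁻¹⁻¹ = _
      rw [inv_inv]
    rw [← h1]
    exact h0
  have hcomm : ∀ a b : G, Commute a b → Commute (g * a * g⁻¹) (g * b * g⁻¹) := by
    intro a b hab
    change g * a * g⁻¹ * (g * b * g⁻¹) = g * b * g⁻¹ * (g * a * g⁻¹)
    have h1 : g * a * g⁻¹ * (g * b * g⁻¹) = g * (a * b) * g⁻¹ := by group
    have h2 : g * b * g⁻¹ * (g * a * g⁻¹) = g * (b * a) * g⁻¹ := by group
    rw [h1, h2, hab.eq]
  refine ⟨g * x * g⁻¹, g * z * g⁻¹, g * n * g⁻¹, hgP x hxQ, c.conj_coset hDEF hBRC hx g,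
    hgP z hzQ, c.hN.conj_mem _ hzN _, ?_, hcomm _ _ hzx, ?_, hcomm _ _ hnx, ?_⟩
  · rw [← hz]
    exact orderOf_isConj (isConj_iff.mpr ⟨g⁻¹, by group⟩)
  · rw [Subgroup.mem_normalizer_iff]
    intro u
    have hn : n ∈ Subgroup.normalizer ((Q : Subgroup G) : Set G) := hn
    rw [Subgroup.mem_normalizer_iff] at hn
    constructor
    · intro hu
      have h1 := (hn (g⁻¹ * u * g)).mp (hgP' u hu)
      have h2 := hgP _ h1
      have h3 : g * (n * (g⁻¹ * u * g) * n⁻¹) * g⁻¹ = g * n * g⁻¹ * u * (g * n * g⁻¹)⁻¹ := by group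
      rw [← h3]
      exact h2
    · intro hu
      have h1 := hgP' _ hu
      have h2 : g⁻¹ * (g * n * g⁻¹ * u * (g * n * g⁻¹)⁻¹) * g = n * (g⁻¹ * u * g) * n⁻¹ := by group
      rw [h2] at h1
      have h3 := (hn _).mpr h1
      have h4 := hgP _ h3
      have h5 : g * (g⁻¹ * u * g) * g⁻¹ = u := by group
      rw [h5] at h4
      exact h4
  · have h1 : (g * n * g⁻¹)⁻¹ * (g * z * g⁻¹) * (g * n * g⁻¹) = g * (n⁻¹ * z * n) * g⁻¹ := by group
    rw [h1, hnz]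
    group

/-- the situation in the normaliser -/
lemma ctxH (hBRC : S_BRC) : Ctx O (N.subgroupOf (NN (P : Subgroup G)))
    (⟨y, le_NN (P : Subgroup G) c.hy⟩ : NN (P : Subgroup G))
    (P.subtype (le_NN (P : Subgroup G))) := by
  have hyN : y⁻¹ * y ∈ N := by rw [inv_mul_cancel]; exact N.one_mem
  have kH := core_H (O := O) c.hO c.hN c.hNt P.2 (hBRC G O c.hO P).1 (hBRC G O c.hO P).2.1 c.hy
    c.hgen (c.h9 y (c.el c.hy) hyN) c.PN
  refine { hO := c.hO, hN := kH.hN, hNt := kH.hNt, hgen := kH.hgen, hy := c.hy, h3 := ?_, h9 := ?_ }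
  · have h1 : IsPGroup 3 ((P : Subgroup G) ⊓ N : Subgroup G) := P.2.to_le inf_le_left
    obtain ⟨k, hk⟩ := h1.exists_card_eq
    have hk0 : k ≠ 0 := by
      rintro rfl
      rw [pow_zero] at hk
      exact c.PN (Subgroup.eq_bot_of_card_eq _ hk)
    obtain ⟨w, hw⟩ := exists_prime_orderOf_dvd_card' (G := ((P : Subgroup G) ⊓ N : Subgroup G)) 3
      (by rw [hk]; exact dvd_pow_self 3 hk0)
    have hwP : (w : G) ∈ (P : Subgroup G) := w.2.1
    have hwN : (w : G) ∈ N := w.2.2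
    have hw3 : orderOf (w : G) = 3 := by rw [Subgroup.orderOf_coe, hw]
    set w' : NN (P : Subgroup G) := ⟨w, le_NN (P : Subgroup G) hwP⟩ with hw'
    have hw'3 : orderOf w' = 3 := by rw [← Subgroup.orderOf_coe]; exact hw3
    have hdv := Subgroup.orderOf_dvd_natCard _
      (show w' ∈ N.subgroupOf (NN (P : Subgroup G)) from hwN)
    rwa [hw'3] at hdv
  · rintro x hxo hx h
    have hxo' : ∃ k, orderOf (x : G) = 3 ^ k := by
      obtain ⟨k, hk⟩ := hxo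
      exact ⟨k, by rw [Subgroup.orderOf_coe, hk]⟩
    apply c.h9 (x : G) hxo' hx
    refine h.trans ?_
    have h1 : Nat.card ((Subgroup.centralizer ({x} : Set (NN (P : Subgroup G))) ⊓
        N.subgroupOf (NN (P : Subgroup G)) : Subgroup (NN (P : Subgroup G)))) =
        Nat.card ((Subgroup.centralizer ({x} : Set (NN (P : Subgroup G))) ⊓
        N.subgroupOf (NN (P : Subgroup G)) : Subgroup (NN (P : Subgroup G))).map
          (NN (P : Subgroup G)).subtype) :=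
      Nat.card_congr (Subgroup.equivMapOfInjective _ _ (NN (P : Subgroup G)).subtype_injective).toEquiv
    rw [h1]
    apply Subgroup.card_dvd_of_le
    rintro _ ⟨u, ⟨hu1, hu2⟩, rfl⟩
    refine ⟨?_, hu2⟩
    have hu1' : u ∈ Subgroup.centralizer ({x} : Set (NN (P : Subgroup G))) := hu1
    change (u : G) ∈ Subgroup.centralizer ({(x : G)} : Set G)
    rw [Subgroup.mem_centralizer_iff] at hu1' ⊢
    intro h hh
    rw [Set.mem_singleton_iff.mp hh]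
    exact congrArg Subtype.val (hu1' _ rfl)

end Ctx

/-- all the building blocks -/
structure Blocks : Prop where
  hI : S_IRR
  hEQ : S_EQ
  hNV : S_NV
  hDAT : S_DAT
  hFUS : S_FUS
  hREG : S_REG
  hTWO : S_TWO
  hDEF : S_DEF
  hBRC : S_BRC

namespace Ctx

variable {O : ValuationSubring ℂ} {N : Subgroup G} {y : G} {P : Sylow 3 G}

/-- equivariant parametrisations by the same set -/
theorem models (B : Blocks) (c : Ctx O N y P) : ∃ (S : Set (ℂ × ℂ)) (Φ : (G → ℂ) → ℂ × ℂ)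
    (Ψ : (NN (P : Subgroup G) → ℂ) → ℂ × ℂ),
    ((∀ (σ : ℂ ≃+* ℂ) (χ : G → ℂ), Φ (gal σ χ) = (σ (Φ χ).1, σ (Φ χ).2)) ∧
      Set.InjOn Φ (X0 O G) ∧ Φ '' (X0 O G) = S) ∧
    ((∀ (σ : ℂ ≃+* ℂ) (χ : NN (P : Subgroup G) → ℂ), Ψ (gal σ χ) = (σ (Ψ χ).1, σ (Ψ χ).2)) ∧
      Set.InjOn Ψ (X0 O (NN (P : Subgroup G))) ∧ Ψ '' (X0 O (NN (P : Subgroup G))) = S) := by
  have cH := c.ctxH B.hBRC
  have hidx : (N.subgroupOf (NN (P : Subgroup G))).index = N.index :=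
    index_subgroupOf c.hN c.hy c.hgen
  have hle := le_NN (P : Subgroup G)
  by_cases hinv : Inv N y P
  · obtain ⟨x, z, n, hxP, hx, hzP, hzN, hz, hzx, hn, hnx, hnz⟩ := hinv
    obtain ⟨M, X, e, d⟩ := c.exists_D2 B.hDEF B.hBRC B.hEQ B.hNV B.hI B.hDAT hxP hx hzP hzN hz hzx
      hnx hnz
    obtain ⟨Φ, h1, h2, h3⟩ := c.model2 B.hDEF B.hBRC hx d
    set x' : NN (P : Subgroup G) := ⟨x, hle hxP⟩ with hx'
    set z' : NN (P : Subgroup G) := ⟨z, hle hzP⟩ with hz'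
    set n' : NN (P : Subgroup G) := ⟨n, hn⟩ with hn'
    obtain ⟨M', X', e', d'⟩ := cH.exists_D2 B.hDEF B.hBRC B.hEQ B.hNV B.hI B.hDAT
      (x := x') (z := z') (n := n') hxP hx hzP hzN (by rw [← Subgroup.orderOf_coe]; exact hz)
      (Subtype.ext hzx.eq) (Subtype.ext hnx.eq) (Subtype.ext hnz)
    obtain ⟨Ψ, g1, g2, g3⟩ := cH.model2 B.hDEF B.hBRC (x := x') hx d'
    rw [hidx] at g3
    exact ⟨_, Φ, Ψ, ⟨h1, h2, h3⟩, ⟨g1, g2, g3⟩⟩
  · have hNI := c.NI_of B.hDEF B.hBRC B.hFUS hinv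
    have hK : ∀ x : G, (∃ k, orderOf x = 3 ^ k) → y⁻¹ * x ∈ N →
        ∃ K : Subgroup G, (∀ s, s ∈ K ↔ Commute x s ∧ ¬ 3 ∣ orderOf s) ∧
          Nat.card (Subgroup.centralizer ({x} : Set G)) = 3 * N.index * Nat.card K :=
      fun x hxo hx => B.hREG G N x c.hN (c.gen_of hx) hxo c.h3 (c.h9 x hxo hx) (hNI x hxo hx)
    have hNIH : NI (N.subgroupOf (NN (P : Subgroup G)))
        (⟨y, hle c.hy⟩ : NN (P : Subgroup G)) := by
      intro x hxo hx z e hz hzN hzx hex hez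
      refine hNI (x : G) ?_ hx (z : G) (e : G) (by rw [Subgroup.orderOf_coe]; exact hz) hzN
        (congrArg Subtype.val hzx.eq) (congrArg Subtype.val hex.eq) (congrArg Subtype.val hez)
      obtain ⟨k, hk⟩ := hxo
      exact ⟨k, by rw [Subgroup.orderOf_coe, hk]⟩
    have hKH : ∀ x : NN (P : Subgroup G), (∃ k, orderOf x = 3 ^ k) →
        (⟨y, hle c.hy⟩ : NN (P : Subgroup G))⁻¹ * x ∈ N.subgroupOf (NN (P : Subgroup G)) →
        ∃ K : Subgroup (NN (P : Subgroup G)), (∀ s, s ∈ K ↔ Commute x s ∧ ¬ 3 ∣ orderOf s) ∧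
          Nat.card (Subgroup.centralizer ({x} : Set (NN (P : Subgroup G)))) =
            3 * (N.subgroupOf (NN (P : Subgroup G))).index * Nat.card K :=
      fun x hxo hx => B.hREG _ _ x cH.hN (cH.gen_of hx) hxo cH.h3 (cH.h9 x hxo hx) (hNIH x hxo hx)
    obtain ⟨x₀, hx₀o, hx₀, hnc₀⟩ := B.hTWO G N y c.hN c.hgen (c.el c.hy) hK
    -- conjugate into `P`
    obtain ⟨x₁, h1P, h1N, hnc⟩ : ∃ x₁, x₁ ∈ P ∧ y⁻¹ * x₁ ∈ N ∧ ¬ IsConj y x₁ := by
      obtain ⟨k, hk⟩ := hx₀o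
      have hp : IsPGroup 3 (Subgroup.zpowers x₀) :=
        IsPGroup.of_card (n := k) (by rw [Nat.card_zpowers, hk])
      obtain ⟨Q, hQ⟩ := hp.exists_le_sylow
      obtain ⟨g, hg⟩ := c.into_P (Q := Q)
      refine ⟨g * x₀ * g⁻¹, hg x₀ (hQ (Subgroup.mem_zpowers _)), c.conj_coset B.hDEF B.hBRC hx₀ g,
        fun h => hnc₀ (h.trans (isConj_iff.mpr ⟨g⁻¹, by group⟩))⟩
    have hyN : y⁻¹ * y ∈ N := by rw [inv_mul_cancel]; exact N.one_mem
    obtain ⟨K₀, hK₀, hc₀⟩ := hK y (c.el c.hy) hyN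
    obtain ⟨K₁, hK₁, hc₁⟩ := hK x₁ (c.el h1P) h1N
    set y' : NN (P : Subgroup G) := ⟨y, hle c.hy⟩ with hy'
    set x₁' : NN (P : Subgroup G) := ⟨x₁, hle h1P⟩ with hx₁'
    have hyN' : y'⁻¹ * y' ∈ N.subgroupOf (NN (P : Subgroup G)) := by
      rw [inv_mul_cancel]; exact Subgroup.one_mem _
    obtain ⟨K₀', hK₀', hc₀'⟩ := hKH y' (cH.el cH.hy) hyN'
    obtain ⟨K₁', hK₁', hc₁'⟩ := hKH x₁' (cH.el h1P) h1N
    have hnc' : ¬ IsConj y' x₁' := by
      intro h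
      apply hnc
      obtain ⟨g, hg⟩ := isConj_iff.mp h
      exact isConj_iff.mpr ⟨g, congrArg Subtype.val hg⟩
    obtain ⟨-, hinjG⟩ := c.m3 B.hDEF B.hBRC B.hEQ B.hNV h1P h1N hnc hK₀ hK₁ hc₀ hc₁
    obtain ⟨-, hinjH⟩ := cH.m3 B.hDEF B.hBRC B.hEQ B.hNV (x₁ := x₁') h1P h1N hnc' hK₀' hK₁' hc₀' hc₁'
    by_cases hcase : orderOf y = 3 * N.index ∧ Nat.card (P : Subgroup G) = 3 * N.index
    · -- cyclic case
      have hPz : (P : Subgroup G) = Subgroup.zpowers y := by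
        symm
        apply Subgroup.eq_of_le_of_card_ge
        · rw [Subgroup.zpowers_le]; exact c.hy
        · rw [Nat.card_zpowers, hcase.1, hcase.2]
      have h1 : x₁ ∈ Subgroup.zpowers y := by rw [← hPz]; exact h1P
      rw [← mem_powers_iff_mem_zpowers] at h1
      obtain ⟨t, ht⟩ := h1
      have ht' : y ^ t = x₁ := ht
      obtain ⟨-, s, rfl, -⟩ := c.lin_pow B.hDEF B.hBRC (t := t) (by rw [ht']; exact h1N)
      have hb := c.beta B.hDEF B.hBRC B.hEQ B.hNV h1P h1N hnc hK₀ hK₁ hc₀ hc₁ (t := s) ht'.symm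
      have hbH := cH.beta B.hDEF B.hBRC B.hEQ B.hNV (x₁ := x₁') h1P h1N hnc' hK₀' hK₁' hc₀' hc₁'
        (t := s) (Subtype.ext ht'.symm)
      have im := c.image_b B.hDEF B.hBRC B.hEQ B.hNV h1P h1N hnc hK₀ hK₁ hc₀ hc₁ hb
      have imH := cH.image_b B.hDEF B.hBRC B.hEQ B.hNV (x₁ := x₁') h1P h1N hnc' hK₀' hK₁' hc₀' hc₁'
        hbH
      refine ⟨_, _, _, ⟨fun σ χ => Phi_gal σ _ K₀ K₁ y x₁ χ, hinjG, im⟩,
        ⟨fun σ χ => Phi_gal σ _ K₀' K₁' y' x₁' χ, hinjH, ?_⟩⟩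
      rw [imH, hidx]
    · have ha := c.alpha B.hDEF B.hBRC B.hEQ B.hNV h1P h1N hnc hK₀ hK₁ hc₀ hc₁ hcase
      have hcaseH : ¬ (orderOf y' = 3 * (N.subgroupOf (NN (P : Subgroup G))).index ∧
          Nat.card ((P.subtype (le_NN (P : Subgroup G)) : Sylow 3 (NN (P : Subgroup G))) :
            Subgroup (NN (P : Subgroup G))) = 3 * (N.subgroupOf (NN (P : Subgroup G))).index) := by
        rw [hidx]
        rintro ⟨h1, h2⟩
        apply hcase
        refine ⟨by rw [← h1, ← Subgroup.orderOf_coe], ?_⟩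
        rw [← h2]
        exact (card_DD (P : Subgroup G)).symm
      have haH := cH.alpha B.hDEF B.hBRC B.hEQ B.hNV (x₁ := x₁') h1P h1N hnc' hK₀' hK₁' hc₀' hc₁'
        hcaseH
      have im := c.image_a B.hDEF B.hBRC B.hEQ B.hNV h1P h1N hnc hK₀ hK₁ hc₀ hc₁ ha
      have imH := cH.image_a B.hDEF B.hBRC B.hEQ B.hNV (x₁ := x₁') h1P h1N hnc' hK₀' hK₁' hc₀' hc₁'
        haH
      refine ⟨_, _, _, ⟨fun σ χ => Phi_gal σ _ K₀ K₁ y x₁ χ, hinjG, im⟩,
        ⟨fun σ χ => Phi_gal σ _ K₀' K₁' y' x₁' χ, hinjH, ?_⟩⟩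
      rw [imH, hidx]

end Ctx

end Pool.Agent.Y62.GA
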