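import Pool.Agent.Y62.GA.Wrap

/-!
The characters of height zero under the automorphisms which fix the cube roots of unity and the
roots of unity of order prime to 3.
-/

set_option linter.style.haveILetI false
set_option linter.unusedSectionVars false

open scoped BigOperators Classical
open Pool.Agent.Helper884 Representation Pool.Agent.H254R3.IN

noncomputable section

namespace Pool.Agent.Y62.GA

open Pool.Agent.Y62

section E

variable {G : Type} [Group G]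

/-- `χ'` is obtained from `χ` by a twist with a power of `l` -/
def EE (l : G →* ℂˣ) (χ χ' : G → ℂ) : Prop := ∃ i : ℕ, ∀ g, χ' g = ((l g : ℂˣ) : ℂ) ^ i * χ g

variable {l : G →* ℂˣ} {q : ℕ}

lemma EE.refl (χ : G → ℂ) : EE l χ χ := ⟨0, fun g => by rw [pow_zero, one_mul]⟩

lemma EE.trans {a b c : G → ℂ} (h1 : EE l a b) (h2 : EE l b c) : EE l a c := by
  obtain ⟨i, hi⟩ := h1
  obtain ⟨j, hj⟩ := h2
  exact ⟨j + i, fun g => by rw [hj, hi, pow_add, mul_assoc]⟩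

lemma EE.symm (hq : 0 < q) (hl : ∀ g, l g ^ q = 1) {a b : G → ℂ} (h : EE l a b) : EE l b a := by
  obtain ⟨i, hi⟩ := h
  refine ⟨(q - 1) * i, fun g => ?_⟩
  have h1 : ((l g : ℂˣ) : ℂ) ^ ((q - 1) * i) * ((l g : ℂˣ) : ℂ) ^ i = 1 := by
    rw [← pow_add]
    have h2 : (q - 1) * i + i = q * i := by
      obtain ⟨r, rfl⟩ : ∃ r, q = r + 1 := ⟨q - 1, by omega⟩
      rw [Nat.add_sub_cancel]
      ring
    rw [h2, pow_mul, ← Units.val_pow_eq_pow_val, hl, Units.val_one, one_pow]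
  rw [hi, ← mul_assoc, h1, one_mul]

lemma EE.gal {a b : G → ℂ} (h : EE l a b) {σ : ℂ ≃+* ℂ} {s : ℕ}
    (hs : ∀ g, σ ((l g : ℂˣ) : ℂ) = ((l g : ℂˣ) : ℂ) ^ s) : EE l (gal σ a) (gal σ b) := by
  obtain ⟨i, hi⟩ := h
  refine ⟨s * i, fun g => ?_⟩
  change σ (b g) = _ * σ (a g)
  rw [hi, map_mul, map_pow, hs, ← pow_mul]

/-- an automorphism acts on the values of `l` by a power -/
lemma exists_s {y : G} (hζ : IsPrimitiveRoot ((l y : ℂˣ) : ℂ) q) (hq : 0 < q)
    (hl : ∀ g, l g ^ q = 1) (σ : ℂ ≃+* ℂ) :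
    ∃ s : ℕ, ∀ g, σ ((l g : ℂˣ) : ℂ) = ((l g : ℂˣ) : ℂ) ^ s := by
  haveI : NeZero q := ⟨hq.ne'⟩
  obtain ⟨s, -, hs⟩ := hζ.eq_pow_of_pow_eq_one
    (show (σ ((l y : ℂˣ) : ℂ)) ^ q = 1 by rw [← map_pow, hζ.pow_eq_one, map_one])
  refine ⟨s, fun g => ?_⟩
  obtain ⟨j, -, hj⟩ := hζ.eq_pow_of_pow_eq_one
    (show ((l g : ℂˣ) : ℂ) ^ q = 1 by rw [← Units.val_pow_eq_pow_val, hl, Units.val_one])
  rw [← hj, map_pow, ← hs, ← pow_mul, ← pow_mul, mul_comm]

end E

section orbits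

variable {G : Type} [Group G] {l : G →* ℂˣ} {q : ℕ} {y : G} {T : Finset (G → ℂ)}

/-- the orbit of `χ` -/
def oo (l : G →* ℂˣ) (q : ℕ) (χ : G → ℂ) : Finset (G → ℂ) :=
  (Finset.range q).image (fun i => fun g => ((l g : ℂˣ) : ℂ) ^ i * χ g)

lemma oo_card (hζ : IsPrimitiveRoot ((l y : ℂˣ) : ℂ) q) {χ : G → ℂ} (h0 : χ y ≠ 0) :
    (oo l q χ).card = q := by
  unfold oo
  rw [Finset.card_image_of_injOn, Finset.card_range]
  intro i hi j hj hij
  have h1 := congrFun hij y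
  have h2 := mul_right_cancel₀ h0 h1
  exact hζ.pow_inj (Finset.mem_range.mp (by simpa using hi)) (Finset.mem_range.mp (by simpa using hj)) h2

lemma mem_oo {χ χ' : G → ℂ} (h : χ' ∈ oo l q χ) : EE l χ χ' := by
  obtain ⟨i, -, rfl⟩ := Finset.mem_image.mp h
  exact ⟨i, fun g => rfl⟩

/-- three inequivalent elements: everything is equivalent to one of them -/
lemma three_orbits (hζ : IsPrimitiveRoot ((l y : ℂˣ) : ℂ) q) (hq : 0 < q)
    (hl : ∀ g, l g ^ q = 1) (hT : ∀ χ ∈ T, ∀ i : ℕ, (fun g => ((l g : ℂˣ) : ℂ) ^ i * χ g) ∈ T)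
    (h0 : ∀ χ ∈ T, χ y ≠ 0) (hc : T.card = 3 * q) {a b c : G → ℂ} (ha : a ∈ T) (hb : b ∈ T)
    (hcT : c ∈ T) (hab : ¬ EE l a b) (hac : ¬ EE l a c) (hbc : ¬ EE l b c) {χ : G → ℂ}
    (hχ : χ ∈ T) : EE l a χ ∨ EE l b χ ∨ EE l c χ := by
  have hsub : ∀ χ ∈ T, oo l q χ ⊆ T := by
    intro χ hχ ψ hψ
    obtain ⟨i, -, rfl⟩ := Finset.mem_image.mp hψ
    exact hT χ hχ i
  have hdis : ∀ a b : G → ℂ, ¬ EE l a b → Disjoint (oo l q a) (oo l q b) := by
    intro a b hab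
    rw [Finset.disjoint_left]
    intro ψ h1 h2
    exact hab ((mem_oo h1).trans ((mem_oo h2).symm hq hl))
  have h1 : (oo l q a ∪ (oo l q b ∪ oo l q c)).card = 3 * q := by
    rw [Finset.card_union_of_disjoint, Finset.card_union_of_disjoint (hdis b c hbc),
      oo_card hζ (h0 a ha), oo_card hζ (h0 b hb), oo_card hζ (h0 c hcT)]
    · ring
    · rw [Finset.disjoint_union_right]
      exact ⟨hdis a b hab, hdis a c hac⟩
  have h2 : oo l q a ∪ (oo l q b ∪ oo l q c) = T := by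
    apply Finset.eq_of_subset_of_card_le
    · exact Finset.union_subset (hsub a ha) (Finset.union_subset (hsub b hb) (hsub c hcT))
    · rw [h1, hc]
  rw [← h2, Finset.mem_union, Finset.mem_union] at hχ
  rcases hχ with h | h | h
  · exact Or.inl (mem_oo h)
  · exact Or.inr (Or.inl (mem_oo h))
  · exact Or.inr (Or.inr (mem_oo h))

/-- an automorphism with an odd power fixing everything fixes the three orbits -/
lemma orbit_fix (hζ : IsPrimitiveRoot ((l y : ℂˣ) : ℂ) q) (hq : 0 < q)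
    (hl : ∀ g, l g ^ q = 1) (hT : ∀ χ ∈ T, ∀ i : ℕ, (fun g => ((l g : ℂˣ) : ℂ) ^ i * χ g) ∈ T)
    (h0 : ∀ χ ∈ T, χ y ≠ 0) (hc : T.card = 3 * q) (h1 : (fun _ => 1) ∈ T) {σ : ℂ ≃+* ℂ}
    (hσ : ∀ χ ∈ T, gal σ χ ∈ T) {n : ℕ} (hn : Odd n) (hfix : ∀ χ ∈ T, (gal σ)^[n] χ = χ)
    {χ : G → ℂ} (hχ : χ ∈ T) : EE l χ (gal σ χ) := by
  obtain ⟨s, hs⟩ := exists_s hζ hq hl σ
  obtain ⟨s', hs'⟩ := exists_s hζ hq hl σ.symm
  have hgi : ∀ χ : G → ℂ, gal σ.symm (gal σ χ) = χ := fun χ => by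
    funext g
    exact σ.symm_apply_apply (χ g)
  have hback : ∀ {a b : G → ℂ}, EE l (gal σ a) (gal σ b) → EE l a b := by
    intro a b h
    have h2 := h.gal hs'
    rwa [hgi, hgi] at h2
  have hone : gal σ (fun _ : G => (1 : ℂ)) = fun _ => 1 := by
    funext g
    exact map_one σ
  have L1 : ∀ χ ∈ T, EE l χ (gal σ (gal σ χ)) := by
    intro χ hχ
    by_cases h : EE l χ (gal σ χ)
    · exact h.trans (h.gal hs)
    · have n1 : ¬ EE l (fun _ => 1) χ := by
        intro h2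
        have h3 := h2.gal hs
        rw [hone] at h3
        exact h ((h2.symm hq hl).trans h3)
      have n2 : ¬ EE l (fun _ => 1) (gal σ χ) := by
        intro h2
        rw [← hone] at h2
        exact n1 (hback h2)
      rcases three_orbits hζ hq hl hT h0 hc h1 hχ (hσ χ hχ) n1 n2 h (hσ _ (hσ χ hχ)) with
        h3 | h3 | h3
      · rw [← hone] at h3
        exact absurd (hback h3) n2
      · exact h3
      · exact absurd (hback h3) h
  have hit : ∀ (j : ℕ), ∀ χ ∈ T, (gal σ)^[j] χ ∈ T := by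
    intro j
    induction j with
    | zero => exact fun χ hχ => hχ
    | succ j ih =>
      intro χ hχ
      rw [Function.iterate_succ_apply']
      exact hσ _ (ih χ hχ)
  have L2 : ∀ (j : ℕ), ∀ χ ∈ T, EE l χ ((gal σ)^[2 * j] χ) := by
    intro j
    induction j with
    | zero => exact fun χ _ => EE.refl χ
    | succ j ih =>
      intro χ hχ
      have e : 2 * (j + 1) = 2 * j + 1 + 1 := by ring
      rw [e, Function.iterate_succ_apply', Function.iterate_succ_apply']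
      exact (ih χ hχ).trans (L1 _ (hit (2 * j) χ hχ))
  obtain ⟨j, hj⟩ := hn
  have h2 := (L2 j χ hχ).gal hs
  rw [← Function.iterate_succ_apply' (gal σ)] at h2
  have h3 : (gal σ)^[2 * j + 1] χ = χ := by rw [← hj]; exact hfix χ hχ
  rw [show (2 * j).succ = 2 * j + 1 from rfl, h3] at h2
  exact h2.symm hq hl

end orbits

end Pool.Agent.Y62.GA
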