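import Mathlib
import Pool.Agent.H977R3.CM.Aut

/-!
Elements fixed by the automorphisms of `ℂ` over a subfield.
-/

set_option linter.unusedSectionVars false

namespace Pool.Agent.Y62.GA

open Pool.Agent.H977R3.CM Polynomial

variable {F : Subfield ℂ}

/-- algebraic elements outside `F` are moved by some automorphism over `F` -/
theorem move_alg {z : ℂ} (hz : IsAlgebraic F z) (hq : z ∉ F) :
    ∃ σ : ℂ ≃+* ℂ, (∀ x ∈ F, σ x = x) ∧ σ z ≠ z := by
  set p : F[X] := minpoly F z with hp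
  have hp0 : p ≠ 0 := minpoly.ne_zero hz.isIntegral
  have hspl : (p.map (algebraMap F ℂ)).Splits := IsAlgClosed.splits _
  have hsf : p.IsSplittingField F (IntermediateField.adjoin F (p.rootSet ℂ)) :=
    IntermediateField.adjoin_rootSet_isSplittingField hspl
  let L := IntermediateField.adjoin F (p.rootSet ℂ)
  have _ : Normal F L := Normal.of_isSplittingField p
  have _ : FiniteDimensional F L := Polynomial.IsSplittingField.finiteDimensional _ p
  have _ : IsGalois F L := ⟨⟩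
  have hzL : z ∈ L := by
    apply IntermediateField.subset_adjoin
    rw [Polynomial.mem_rootSet]
    exact ⟨hp0, minpoly.aeval F z⟩
  obtain ⟨g, hg⟩ : ∃ g : L ≃ₐ[F] L, g ⟨z, hzL⟩ ≠ ⟨z, hzL⟩ := by
    by_contra hcon
    push Not at hcon
    have h1 := (IsGalois.mem_bot_iff_fixed (F := F) (E := L) ⟨z, hzL⟩).2 hcon
    obtain ⟨q, hq'⟩ := IntermediateField.mem_bot.1 h1
    apply hq
    have h2 := congrArg (fun x : L => (x : ℂ)) hq'
    simp only at h2
    rw [← h2]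
    exact q.2
  obtain ⟨σ, hσ⟩ := exists_aut (L.val : L →+* ℂ) (g : L ≃+* L)
  refine ⟨σ, fun x hx => ?_, fun h => hg ?_⟩
  · have h1 := hσ (algebraMap F L ⟨x, hx⟩)
    have h2 : (g : L ≃+* L) (algebraMap F L ⟨x, hx⟩) = algebraMap F L ⟨x, hx⟩ := g.commutes _
    rw [h2] at h1
    exact h1
  · have h1 := hσ ⟨z, hzL⟩
    apply Subtype.ext
    exact h1.symm.trans h

/-- the cyclotomic field of the `n`-th roots of unity -/
noncomputable def Cyc (n : ℕ) : Subfield ℂ := Subfield.closure {ξ : ℂ | ξ ^ n = 1}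

theorem mem_Cyc_of_fixed {n : ℕ} {z : ℂ} (hz : IsAlgebraic ℚ z)
    (h : ∀ σ : ℂ ≃+* ℂ, (∀ ξ : ℂ, ξ ^ n = 1 → σ ξ = ξ) → σ z = z) : z ∈ Cyc n := by
  by_contra hcon
  have hz' : IsAlgebraic (Cyc n) z := hz.tower_top _
  obtain ⟨σ, h1, h2⟩ := move_alg hz' hcon
  exact h2 (h σ fun ξ hξ => h1 ξ (Subfield.subset_closure hξ))

theorem fixed_of_mem_Cyc {n : ℕ} {z : ℂ} (hz : z ∈ Cyc n) {σ : ℂ ≃+* ℂ}
    (h : ∀ ξ : ℂ, ξ ^ n = 1 → σ ξ = ξ) : σ z = z := by
  have h1 : Cyc n ≤ (σ : ℂ →+* ℂ).eqLocusField (RingHom.id ℂ) := by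
    apply Subfield.closure_le.mpr
    intro ξ hξ
    exact h ξ hξ
  exact h1 hz

end Pool.Agent.Y62.GA
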