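import Pool.Agent.Y62.GA.Lev
import Pool.Agent.Y62.GA.Move

/-!
An automorphism which fixes the cube roots of unity, the roots of unity of order prime to 3 and the
value `χ(y)` fixes the character `χ` of height zero in the principal block.
-/

set_option linter.style.haveILetI false
set_option linter.unusedSectionVars false

open scoped BigOperators Classical
open Pool.Agent.Helper884 Representation Pool.Agent.H254R3.IN

noncomputable section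

namespace Pool.Agent.Y62.GA

open Pool.Agent.Y62

lemma odd_power {σ : ℂ ≃+* ℂ} {m b : ℕ} (hm : ¬ 3 ∣ m)
    (h1 : ∀ ξ : ℂ, ξ ^ m = 1 → σ ξ = ξ) (h3 : ∀ ξ : ℂ, ξ ^ 3 = 1 → σ ξ = ξ) :
    ∃ τ : ℂ ≃+* ℂ, (∀ z, τ z = (σ : ℂ → ℂ)^[3 ^ b] z) ∧
      ∀ ξ : ℂ, ξ ^ (3 ^ b * m) = 1 → τ ξ = ξ := by
  have hm0 : m ≠ 0 := by
    rintro rfl
    exact hm (dvd_zero _)
  obtain ⟨n, hn⟩ : ∃ n, n = 3 ^ b * m := ⟨_, rfl⟩
  have hn0 : n ≠ 0 := by rw [hn]; exact mul_ne_zero (pow_ne_zero _ (by norm_num)) hm0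
  haveI : NeZero n := ⟨hn0⟩
  obtain ⟨ζ, hζ⟩ : ∃ ζ : ℂ, IsPrimitiveRoot ζ n := ⟨_, Complex.isPrimitiveRoot_exp n hn0⟩
  obtain ⟨u, -, hu⟩ := hζ.eq_pow_of_pow_eq_one
    (show (σ ζ) ^ n = 1 by rw [← map_pow, hζ.pow_eq_one, map_one])
  have hne : ζ ≠ 0 := hζ.ne_zero hn0
  have key : ∀ a : ℕ, σ (ζ ^ a) = ζ ^ a → (n : ℤ) ∣ (a : ℤ) * ((u : ℤ) - 1) := by
    intro a ha
    rw [map_pow, ← hu, ← pow_mul] at ha
    rw [← hζ.zpow_eq_one_iff_dvd, mul_sub, mul_one, zpow_sub₀ hne,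
      div_eq_one_iff_eq (zpow_ne_zero _ hne)]
    have h : ((a : ℤ) * (u : ℤ)) = ((u * a : ℕ) : ℤ) := by push_cast; ring
    rw [h, zpow_natCast, zpow_natCast]
    exact ha
  have e1 : (m : ℤ) ∣ (u : ℤ) - 1 := by
    have h := key (3 ^ b) (h1 _ (by rw [← pow_mul, ← hn, hζ.pow_eq_one]))
    rw [hn] at h
    push_cast at h
    exact (mul_dvd_mul_iff_left (pow_ne_zero _ (by norm_num))).mp h
  have e2 : ((3 : ℕ) ^ b : ℤ) ∣ (u : ℤ) ^ 3 ^ b - 1 := by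
    rcases Nat.eq_zero_or_pos b with rfl | hb
    · rw [pow_zero]
      exact one_dvd _
    · obtain ⟨b', rfl⟩ : ∃ b', b = b' + 1 := ⟨b - 1, by omega⟩
      have h := key (3 ^ b' * m) (h3 _ (by
        rw [← pow_mul]
        have : 3 ^ b' * m * 3 = n := by rw [hn]; ring
        rw [this, hζ.pow_eq_one]))
      rw [hn] at h
      have h4 : ((3 : ℤ) ^ b' * m) * 3 ∣ ((3 : ℤ) ^ b' * m) * ((u : ℤ) - 1) := by
        push_cast at h
        have e : ((3 : ℤ) ^ b' * m) * 3 = 3 ^ (b' + 1) * m := by ring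
        rw [e]
        exact h
      have h5 : (3 : ℤ) ∣ (u : ℤ) - 1 := by
        refine (mul_dvd_mul_iff_left ?_).mp h4
        exact mul_ne_zero (pow_ne_zero _ (by norm_num)) (by exact_mod_cast hm0)
      have h6 := dvd_sub_pow_of_dvd_sub (R := ℤ) (p := 3) (a := (u : ℤ)) (b := 1)
        (by exact_mod_cast h5) (b' + 1)
      rw [one_pow] at h6
      exact (pow_dvd_pow _ (Nat.le_succ _)).trans h6
  have e3 : (n : ℤ) ∣ (u : ℤ) ^ 3 ^ b - 1 := by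
    rw [hn]
    push_cast
    apply IsCoprime.mul_dvd
    · apply IsCoprime.pow_left
      rw [Int.isCoprime_iff_gcd_eq_one]
      have h := (Nat.Prime.coprime_iff_not_dvd Nat.prime_three).mpr hm
      exact_mod_cast h
    · exact_mod_cast e2
    · refine e1.trans ?_
      have h := sub_dvd_pow_sub_pow (u : ℤ) 1 (3 ^ b)
      rwa [one_pow] at h
  have hex : ∀ k : ℕ, ∃ τ : ℂ ≃+* ℂ, ∀ z, τ z = (σ : ℂ → ℂ)^[k] z := by
    intro k
    induction k with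
    | zero => exact ⟨RingEquiv.refl ℂ, fun z => rfl⟩
    | succ k ih =>
      obtain ⟨τ, hτ⟩ := ih
      refine ⟨τ.trans σ, fun z => ?_⟩
      rw [Function.iterate_succ_apply', ← hτ]
      rfl
  have hit : ∀ k : ℕ, (σ : ℂ → ℂ)^[k] ζ = ζ ^ (u ^ k) := by
    intro k
    induction k with
    | zero => simp
    | succ k ih =>
      rw [Function.iterate_succ_apply', ih, map_pow, ← hu, ← pow_mul, pow_succ, mul_comm]
  obtain ⟨τ, hτ⟩ := hex (3 ^ b)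
  refine ⟨τ, hτ, fun ξ hξ => ?_⟩
  rw [← hn] at hξ
  obtain ⟨j, -, hj⟩ := hζ.eq_pow_of_pow_eq_one hξ
  have h7 : τ ζ = ζ := by
    rw [hτ, hit]
    have h8 : ζ ^ ((u : ℤ) ^ 3 ^ b - 1) = 1 := (hζ.zpow_eq_one_iff_dvd _).mpr e3
    rw [zpow_sub₀ hne, zpow_one, div_eq_one_iff_eq hne] at h8
    have h9 : ((u : ℤ) ^ 3 ^ b) = ((u ^ 3 ^ b : ℕ) : ℤ) := by push_cast; rfl
    rw [h9, zpow_natCast] at h8
    exact h8
  rw [← hj, map_pow, h7]

variable {G : Type} [Group G] [Fintype G]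

lemma char_fixed {χ : G → ℂ} (hχ : IsIrr χ) {τ : ℂ ≃+* ℂ}
    (h : ∀ ξ : ℂ, ξ ^ Nat.card G = 1 → τ ξ = ξ) (g : G) : τ (χ g) = χ g := by
  obtain ⟨n, ζ, hζ, hv⟩ := val_four hχ g
  have hζ' : ζ ^ Nat.card G = 1 := by
    obtain ⟨c, hc⟩ := orderOf_dvd_natCard g
    rw [hc, pow_mul, hζ, one_pow]
  rw [hv, map_sum]
  refine Finset.sum_congr rfl fun j _ => ?_
  rw [map_mul, map_natCast, map_pow, h ζ hζ']

lemma gal_iter (σ : ℂ ≃+* ℂ) (k : ℕ) (χ : G → ℂ) (g : G) :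
    ((gal σ)^[k] χ) g = (σ : ℂ → ℂ)^[k] (χ g) := by
  induction k with
  | zero => rfl
  | succ k ih =>
    rw [Function.iterate_succ_apply', Function.iterate_succ_apply', ← ih]
    rfl

/-- **the key fact** -/
theorem fix_of_fix_at {O : ValuationSubring ℂ} {N : Subgroup G} {y : G} {P : Sylow 3 G}
    (c : Ctx O N y P) {b m : ℕ} (hm : ¬ 3 ∣ m) (hG : Nat.card G = 3 ^ b * m) {σ : ℂ ≃+* ℂ}
    (h1 : ∀ ξ : ℂ, ξ ^ m = 1 → σ ξ = ξ) (h3 : ∀ ξ : ℂ, ξ ^ 3 = 1 → σ ξ = ξ) {χ : G → ℂ}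
    (hχ : χ ∈ X0 O G) (hy : σ (χ y) = χ y) : gal σ χ = χ := by
  have hDEF := blocks.hDEF
  have hBRC := blocks.hBRC
  have hm0 : m ≠ 0 := by
    rintro rfl
    exact hm (dvd_zero _)
  obtain ⟨l, hl, hprim, hT, r, hr1, hr⟩ := c.lin hDEF hBRC
  have hyN : y⁻¹ * y ∈ N := by rw [inv_mul_cancel]; exact N.one_mem
  have hq0 : 0 < N.index := by rw [hr]; positivity
  haveI := c.hN
  have hlq : ∀ g, l g ^ N.index = 1 := by
    intro g
    rw [← map_pow]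
    exact (hl _).mpr (Subgroup.pow_index_mem N g)
  have hTi : ∀ χ ∈ Ctx.T0 O G, ∀ i : ℕ, (fun g => ((l g : ℂˣ) : ℂ) ^ i * χ g) ∈ Ctx.T0 O G := by
    intro χ hχ i
    induction i with
    | zero => simpa using hχ
    | succ i ih =>
      have h := hT _ ih
      have e : tw l (fun g => ((l g : ℂˣ) : ℂ) ^ i * χ g) =
          fun g => ((l g : ℂˣ) : ℂ) ^ (i + 1) * χ g := by
        funext g
        unfold tw
        rw [pow_succ]
        ring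
      rwa [e] at h
  obtain ⟨k, hk⟩ := c.el c.hy
  have h0 : ∀ χ ∈ Ctx.T0 O G, χ y ≠ 0 := by
    intro χ hχ h
    have h2 := Ctx.mem_T0.mp hχ
    have h4 := val_red (p := 3) c.hO h2.1.1 hk (Commute.one_right y) 1
    rw [pow_one, mul_one, h, red_zero] at h4
    exact h2.2 h4.symm
  obtain ⟨τ, hτ, hτ'⟩ := odd_power (b := b) hm h1 h3
  have hfix : ∀ χ ∈ Ctx.T0 O G, (gal σ)^[3 ^ b] χ = χ := by
    intro χ hχ
    funext g
    rw [gal_iter, ← hτ]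
    exact char_fixed (Ctx.mem_T0.mp hχ).1.1 (by rw [hG]; exact hτ') g
  have hσT : ∀ χ ∈ Ctx.T0 O G, gal σ χ ∈ Ctx.T0 O G := by
    intro χ hχ
    rw [Ctx.mem_T0] at hχ ⊢
    exact gal_X0 blocks.hI c.hO hm0 ⟨0, fun ξ hξ => by rw [pow_zero, pow_one]; exact h1 ξ hξ⟩ hG hχ
  obtain ⟨i, hi⟩ := orbit_fix (hprim y hyN) hq0 hlq hTi h0 (c.card_T0 hDEF hBRC)
    (Ctx.mem_T0.mpr (one_mem_X0 O)) hσT (Odd.pow (by decide : Odd 3)) hfix (Ctx.mem_T0.mpr hχ)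
  have h5 : ((l y : ℂˣ) : ℂ) ^ i = 1 := by
    have h6 := hi y
    have h7 : gal σ χ y = χ y := hy
    rw [h7] at h6
    exact (mul_eq_right₀ (h0 χ (Ctx.mem_T0.mpr hχ))).mp h6.symm
  have h8 : N.index ∣ i := (hprim y hyN).dvd_of_pow_eq_one i h5
  obtain ⟨d, rfl⟩ := h8
  funext g
  rw [hi g, pow_mul, ← Units.val_pow_eq_pow_val, hlq, Units.val_one, one_pow, one_mul]

end Pool.Agent.Y62.GA
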