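import Mathlib

/-!
An abstract lemma on orbits of a map with three levels.
-/

set_option linter.unusedSectionVars false

open scoped BigOperators Classical

noncomputable section

namespace Pool.Agent.Y62.GA

section orb

variable {α : Type} {T : Finset α} {q : ℕ} {a : α → α} {v : α → ℂ} {ζ : ℂ}

lemma iter_mem (ha : ∀ χ ∈ T, a χ ∈ T) {χ : α} (hχ : χ ∈ T) (i : ℕ) : a^[i] χ ∈ T := by
  induction i with
  | zero => exact hχ
  | succ i ih => rw [Function.iterate_succ_apply']; exact ha _ ih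

lemma iter_v (hv : ∀ χ, v (a χ) = ζ * v χ) (χ : α) (i : ℕ) : v (a^[i] χ) = ζ ^ i * v χ := by
  induction i with
  | zero => simp
  | succ i ih => rw [Function.iterate_succ_apply', hv, ih, pow_succ]; ring

lemma orbit_card (hζ : IsPrimitiveRoot ζ q) (hv : ∀ χ, v (a χ) = ζ * v χ) {χ : α}
    (h0 : v χ ≠ 0) : ((Finset.range q).image (fun i => a^[i] χ)).card = q := by
  rw [Finset.card_image_of_injOn, Finset.card_range]
  intro i hi j hj hij
  have h1 := congrArg v hij
  simp only [iter_v hv] at h1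
  have h2 := mul_right_cancel₀ h0 h1
  exact hζ.pow_inj (Finset.mem_range.mp hi) (Finset.mem_range.mp hj) h2

/-- each level is a union of orbits -/
lemma level_orbit (hζ : IsPrimitiveRoot ζ q) (ha : ∀ χ ∈ T, a χ ∈ T)
    (hv : ∀ χ, v (a χ) = ζ * v χ) (h0 : ∀ χ ∈ T, v χ ≠ 0) {β : Type} {w : α → β}
    (hw : ∀ χ ∈ T, w (a χ) = w χ) {χ : α} (hχ : χ ∈ T) :
    q ≤ (T.filter (fun χ' => w χ' = w χ)).card ∧
    ((T.filter (fun χ' => w χ' = w χ)).card ≤ q → ∀ χ' ∈ T, w χ' = w χ → ∃ i, i < q ∧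
      a^[i] χ = χ') := by
  have hsub : (Finset.range q).image (fun i => a^[i] χ) ⊆ T.filter (fun χ' => w χ' = w χ) := by
    intro χ' h
    obtain ⟨i, -, rfl⟩ := Finset.mem_image.mp h
    refine Finset.mem_filter.mpr ⟨iter_mem ha hχ i, ?_⟩
    clear h
    induction i with
    | zero => rfl
    | succ i ih =>
      rw [Function.iterate_succ_apply', hw _ (iter_mem ha hχ i), ih]
  have hc := orbit_card hζ hv (h0 χ hχ)
  refine ⟨?_, fun hle χ' h1 h2 => ?_⟩
  · rw [← hc]
    exact Finset.card_le_card hsub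
  · have heq := Finset.eq_of_subset_of_card_le hsub (by rw [hc]; exact hle)
    have h3 : χ' ∈ T.filter (fun χ' => w χ' = w χ) := Finset.mem_filter.mpr ⟨h1, h2⟩
    rw [← heq] at h3
    obtain ⟨i, hi, h4⟩ := Finset.mem_image.mp h3
    exact ⟨i, Finset.mem_range.mp hi, h4⟩

/-- three levels given by complex numbers of norm one with sum zero -/
theorem three_levels (hq : Odd q) (hζ : IsPrimitiveRoot ζ q) (ha : ∀ χ ∈ T, a χ ∈ T)
    (hv : ∀ χ, v (a χ) = ζ * v χ) (h0 : ∀ χ ∈ T, v χ ≠ 0) {w : α → ℂ}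
    (hw : ∀ χ ∈ T, w (a χ) = w χ) (hT : T.card = 3 * q) (hn : ∀ χ ∈ T, ‖w χ‖ = 1)
    (hs : ∑ χ ∈ T, w χ = 0) {χ₁ : α} (h1 : χ₁ ∈ T) (hw1 : w χ₁ = 1) :
    (∀ χ ∈ T, w χ ^ 3 = 1) ∧
    ∀ χ ∈ T, ∀ χ' ∈ T, w χ' = w χ → ∃ i, i < q ∧ a^[i] χ = χ' := by
  have hq0 : 0 < q := hq.pos
  have hlev : ∀ χ ∈ T, q ≤ (T.filter (fun χ' => w χ' = w χ)).card := fun χ hχ =>
    (level_orbit hζ ha hv h0 hw hχ).1
  set V := T.image w with hV
  have hfib : T.card = ∑ c ∈ V, (T.filter (fun χ => w χ = c)).card :=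
    Finset.card_eq_sum_card_image w T
  have hsum : ∑ c ∈ V, ((T.filter (fun χ => w χ = c)).card : ℂ) * c = 0 := by
    rw [← hs, ← Finset.sum_fiberwise_of_maps_to (g := w) (t := V)
      (fun χ hχ => Finset.mem_image_of_mem w hχ)]
    refine Finset.sum_congr rfl fun c _ => ?_
    rw [Finset.sum_congr rfl (g := fun _ => c) (fun χ hχ => (Finset.mem_filter.mp hχ).2),
      Finset.sum_const, nsmul_eq_mul]
  have hVle : ∀ c ∈ V, q ≤ (T.filter (fun χ => w χ = c)).card := by
    intro c hc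
    obtain ⟨χ, hχ, rfl⟩ := Finset.mem_image.mp hc
    exact hlev χ hχ
  have h1V : (1 : ℂ) ∈ V := Finset.mem_image.mpr ⟨χ₁, h1, hw1⟩
  have hVn : ∀ c ∈ V, ‖c‖ = 1 := by
    intro c hc
    obtain ⟨χ, hχ, rfl⟩ := Finset.mem_image.mp hc
    exact hn χ hχ
  have hV3 : V.card ≤ 3 := by
    have h2 : V.card * q ≤ T.card := by
      rw [hfib, ← smul_eq_mul]
      exact Finset.card_nsmul_le_sum V _ q hVle
    rw [hT] at h2
    exact Nat.le_of_mul_le_mul_right h2 hq0
  have hVpos : 0 < V.card := Finset.card_pos.mpr ⟨1, h1V⟩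
  have hcase : V.card = 1 ∨ V.card = 2 ∨ V.card = 3 := by omega
  have hmain : V.card = 3 := by
    rcases hcase with h | h | h
    · exfalso
      obtain ⟨c, hc⟩ := Finset.card_eq_one.mp h
      have hc1 : c = 1 := by
        rw [hc, Finset.mem_singleton] at h1V
        exact h1V.symm
      rw [hc, Finset.sum_singleton, hc1, mul_one] at hsum
      rw [hc, Finset.sum_singleton, hc1] at hfib
      rw [← hfib, hT] at hsum
      have : 3 * q = 0 := by exact_mod_cast hsum
      omega
    · exfalso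
      obtain ⟨c, d, hcd, hVcd⟩ := Finset.card_eq_two.mp h
      have key : ∀ d : ℂ, (1 : ℂ) ≠ d → V = {1, d} → False := by
        intro d hd hVd
        have hdn := hVn d (by rw [hVd]; simp)
        rw [hVd, Finset.sum_pair hd, mul_one] at hsum
        rw [hVd, Finset.sum_pair hd, hT] at hfib
        set A := (T.filter (fun χ => w χ = 1)).card
        set Bc := (T.filter (fun χ => w χ = d)).card
        have h2 : (A : ℂ) = - ((Bc : ℂ) * d) := eq_neg_of_add_eq_zero_left hsum
        have h3 := congrArg (fun z : ℂ => ‖z‖) h2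
        simp only [norm_neg, norm_mul, Complex.norm_natCast, hdn, mul_one] at h3
        have h4 : A = Bc := by exact_mod_cast h3
        rw [h4] at hfib
        obtain ⟨t, ht⟩ := hq
        omega
      rw [hVcd] at h1V
      rcases Finset.mem_insert.mp h1V with h2 | h2
      · exact key d (by rw [h2]; exact hcd) (by rw [hVcd, h2])
      · have h3 := Finset.mem_singleton.mp h2
        exact key c (by rw [h3]; exact hcd.symm) (by rw [hVcd, ← h3, Finset.pair_comm])
    · exact h
  have heach : ∀ c ∈ V, (T.filter (fun χ => w χ = c)).card = q := by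
    have h2 : ∑ c ∈ V, (T.filter (fun χ => w χ = c)).card = ∑ c ∈ V, q := by
      rw [← hfib, hT, Finset.sum_const, hmain, smul_eq_mul]
    intro c hc
    exact ((Finset.sum_eq_sum_iff_of_le hVle).mp h2.symm c hc).symm
  refine ⟨?_, fun χ hχ χ' hχ' hww => ?_⟩
  · have hsum' : ∑ c ∈ V, c = 0 := by
      have h2 : ∑ c ∈ V, ((T.filter (fun χ => w χ = c)).card : ℂ) * c = (q : ℂ) * ∑ c ∈ V, c := by
        rw [Finset.mul_sum]
        exact Finset.sum_congr rfl fun c hc => by rw [heach c hc]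
      rw [hsum] at h2
      exact (mul_eq_zero.mp h2.symm).resolve_left (by exact_mod_cast hq0.ne')
    have hVe : (V.erase 1).card = 2 := by rw [Finset.card_erase_of_mem h1V, hmain]
    obtain ⟨c, d, hcd, hcde⟩ := Finset.card_eq_two.mp hVe
    have h2 : (1 : ℂ) + (c + d) = 0 := by
      rw [← Finset.add_sum_erase V _ h1V, hcde, Finset.sum_pair hcd] at hsum'
      exact hsum'
    have hcV : c ∈ V := Finset.mem_of_mem_erase (by rw [hcde]; simp : c ∈ V.erase 1)
    have hdV : d ∈ V := Finset.mem_of_mem_erase (by rw [hcde]; simp : d ∈ V.erase 1)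
    have hc1 : c * (starRingEnd ℂ) c = 1 := by
      rw [Complex.mul_conj', hVn c hcV]; norm_num
    have hd1 : d * (starRingEnd ℂ) d = 1 := by
      rw [Complex.mul_conj', hVn d hdV]; norm_num
    have h3 : (1 : ℂ) + ((starRingEnd ℂ) c + (starRingEnd ℂ) d) = 0 := by
      have := congrArg (starRingEnd ℂ) h2
      simpa using this
    have hprod : c * d = 1 := by
      have h4 : c * d * (1 + ((starRingEnd ℂ) c + (starRingEnd ℂ) d)) = 0 := by
        rw [h3, mul_zero]
      have h5 : c * d * (1 + ((starRingEnd ℂ) c + (starRingEnd ℂ) d)) =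
          c * d + (c * (starRingEnd ℂ) c) * d + (d * (starRingEnd ℂ) d) * c := by ring
      rw [h5, hc1, hd1] at h4
      linear_combination h4 - h2
    have hc3 : c ^ 3 = 1 := by
      have h6 : c ^ 2 + c + 1 = 0 := by linear_combination c * h2 - hprod
      linear_combination (c - 1) * h6
    have hd3 : d ^ 3 = 1 := by
      have h6 : d ^ 2 + d + 1 = 0 := by linear_combination d * h2 - hprod
      linear_combination (d - 1) * h6
    intro χ hχ
    have hwV : w χ ∈ V := Finset.mem_image_of_mem w hχ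
    rcases eq_or_ne (w χ) 1 with h7 | h7
    · rw [h7, one_pow]
    · have h8 : w χ ∈ V.erase 1 := Finset.mem_erase.mpr ⟨h7, hwV⟩
      rw [hcde] at h8
      rcases Finset.mem_insert.mp h8 with h9 | h9
      · rw [h9, hc3]
      · rw [Finset.mem_singleton.mp h9, hd3]
  · exact (level_orbit hζ ha hv h0 hw hχ).2
      (heach (w χ) (Finset.mem_image_of_mem w hχ)).le χ' hχ' hww

end orb

end Pool.Agent.Y62.GA
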