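import Pool.Agent.Y62.GA.Ctx
import Pool.Agent.Y62.GA.Orb

/-!
Twists by linear characters, averages over the regular part of a centralizer.
-/

set_option linter.style.haveILetI false
set_option linter.unusedSectionVars false

open scoped BigOperators Classical
open Pool.Agent.Helper884 Representation Pool.Agent.H254R3.IN

noncomputable section

namespace Pool.Agent.Y62.GA

open Pool.Agent.Y62

variable {G : Type} [Group G] [Fintype G]

/-- the average of `χ` over `xK` -/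
def vv (K : Subgroup G) (x : G) (χ : G → ℂ) : ℂ := ips K x χ (fun _ => 1)

lemma ips_gal (σ : ℂ ≃+* ℂ) (H : Subgroup G) (x : G) (χ : G → ℂ) (θ : H → ℂ) :
    ips H x (gal σ χ) (gal σ θ) = σ (ips H x χ θ) := by
  unfold ips gal
  simp only [map_mul, map_inv₀, map_natCast, map_sum]

lemma vv_gal (σ : ℂ ≃+* ℂ) (K : Subgroup G) (x : G) (χ : G → ℂ) :
    vv K x (gal σ χ) = σ (vv K x χ) := by
  unfold vv
  rw [← ips_gal]
  congr 1
  funext h
  unfold gal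
  rw [map_one]

lemma ips_tw {N : Subgroup G} {l : G →* ℂˣ} (hl : ∀ g, l g = 1 ↔ g ∈ N) {H : Subgroup G}
    (hH : H ≤ N) (x : G) (χ : G → ℂ) (θ : H → ℂ) :
    ips H x (tw l χ) θ = ((l x : ℂˣ) : ℂ) * ips H x χ θ := by
  unfold ips tw
  have h1 : ∀ h : H, ((l (x * (h : G)) : ℂˣ) : ℂ) * χ (x * h) * θ h⁻¹ =
      ((l x : ℂˣ) : ℂ) * (χ (x * h) * θ h⁻¹) := by
    intro h
    rw [map_mul, (hl _).mpr (hH h.2), mul_one]
    ring
  rw [Finset.sum_congr rfl (fun h _ => h1 h), ← Finset.mul_sum]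
  ring

namespace Ctx

variable {O : ValuationSubring ℂ} {N : Subgroup G} {y : G} {P : Sylow 3 G} (c : Ctx O N y P)

include c

/-- all about the linear character with kernel `N` -/
lemma lin (hDEF : S_DEF) (hBRC : S_BRC) : ∃ l : G →* ℂˣ, (∀ g, l g = 1 ↔ g ∈ N) ∧
    (∀ x, y⁻¹ * x ∈ N → IsPrimitiveRoot ((l x : ℂˣ) : ℂ) N.index) ∧
    (∀ χ ∈ T0 O G, tw l χ ∈ T0 O G) ∧ (∃ r, 1 ≤ r ∧ N.index = 3 ^ r) := by
  have k := c.core hDEF hBRC c.hy (by rw [inv_mul_cancel]; exact N.one_mem)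
  obtain ⟨l, hl⟩ := k.exists_lin
  obtain ⟨r, hr1, hr⟩ := k.index_pow
  have hord : orderOf (l y) = N.index := (k.index_N hl).symm
  have hlx : ∀ x, y⁻¹ * x ∈ N → l x = l y := by
    intro x hx
    have h1 := (hl _).mpr hx
    rw [map_mul, map_inv, inv_mul_eq_one] at h1
    exact h1.symm
  refine ⟨l, hl, ?_, ?_, r, hr1, hr⟩
  · intro x hx
    rw [IsPrimitiveRoot.coe_units_iff, hlx x hx, ← hord]
    exact IsPrimitiveRoot.orderOf _
  · intro χ hχ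
    rw [mem_T0] at hχ ⊢
    have ha : ∀ g, l g ^ 3 ^ r = 1 := by
      intro g
      obtain ⟨n, hn, i, rfl⟩ := k.gen g
      rw [map_mul, (hl n).mpr hn, one_mul, map_zpow, ← zpow_natCast, ← zpow_mul, mul_comm, zpow_mul,
        zpow_natCast, ← hr, ← hord, pow_orderOf_eq_one, one_zpow]
    refine ⟨tw_block (p := 3) c.hO k.hB l ha hχ.1, ?_⟩
    have h1 : tw l χ 1 = χ 1 := by
      unfold tw
      simp
    rw [h1]
    exact hχ.2

/-- 3-regular elements lie in `N` -/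
lemma reg_mem (hDEF : S_DEF) (hBRC : S_BRC) {s : G} (hs : ¬ 3 ∣ orderOf s) : s ∈ N :=
  (c.core hDEF hBRC c.hy (by rw [inv_mul_cancel]; exact N.one_mem)).regular_mem_N hs

lemma ord_pos (hDEF : S_DEF) (hBRC : S_BRC) {x : G} (hxP : x ∈ P) (hx : y⁻¹ * x ∈ N) :
    ∃ k, orderOf x = 3 ^ (k + 1) := (c.core hDEF hBRC hxP hx).ord_pos

theorem vv_facts (hDEF : S_DEF) (hBRC : S_BRC) (hEQ : S_EQ) (hNV : S_NV) {x : G} (hxP : x ∈ P)
    (hx : y⁻¹ * x ∈ N) {K : Subgroup G} (hK : ∀ s, s ∈ K ↔ Commute x s ∧ ¬ 3 ∣ orderOf s)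
    (hc : Nat.card (Subgroup.centralizer ({x} : Set G)) = 3 * N.index * Nat.card K) :
    ∃ k, orderOf x = 3 ^ (k + 1) ∧ (∀ χ ∈ X0 O G, ∃ w ε : ℂ, w ^ 3 ^ (k + 1) = 1 ∧
      (ε = 1 ∨ ε = -1) ∧ ∀ t : ℕ, ¬ 3 ∣ t → vv K (x ^ t) χ = ε * w ^ t) ∧
      (∀ χ, IsIrr χ → χ ∉ X0 O G → vv K x χ = 0) := by
  obtain ⟨k, hk⟩ := c.ord_pos hDEF hBRC hxP hx
  have hcomm : ∀ h ∈ K, Commute x h := fun h hh => ((hK h).mp hh).1
  have hne : ∀ χ ∈ T0 O G, IsIrr χ ∧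
      ∑ ψ ∈ ({fun _ => 1} : Finset (K → ℂ)), (((1 : ℤ)) : ℂ) * ips K x χ ψ ≠ 0 := by
    intro χ hχ
    rw [mem_T0] at hχ
    have hi : IsIrr χ := hχ.1.1
    refine ⟨hi, ?_⟩
    rw [Finset.sum_singleton, Int.cast_one, one_mul]
    intro h
    have h1 := (ips_red (p := 3) c.hO hi hcomm hk (irr_one K) 1).2
    rw [pow_one, h, red_zero] at h1
    have hK' : ∀ s, s ∈ K ↔ (∀ u ∈ Subgroup.zpowers x, Commute u s) ∧ ¬ 3 ∣ orderOf s := by
      intro s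
      rw [hK]
      constructor
      · rintro ⟨h2, h3⟩
        refine ⟨fun u hu => ?_, h3⟩
        obtain ⟨i, rfl⟩ := Subgroup.mem_zpowers_iff.mp hu
        exact h2.zpow_left i
      · rintro ⟨h2, h3⟩
        exact ⟨h2 x (Subgroup.mem_zpowers x), h3⟩
    have hR : Subgroup.zpowers x ≤ (P : Subgroup G) := by
      rw [Subgroup.zpowers_le]
      exact hxP
    have h2 := hNV G O c.hO P χ hχ.1 hχ.2 (Subgroup.zpowers x) hR K hK'
    rw [← h1] at h2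
    exact hχ.2 h2.symm
  have hcard : (Nat.card (Subgroup.centralizer ({x} : Set G)) : ℝ) *
      ∑ ψ ∈ ({fun _ => 1} : Finset (K → ℂ)), (((1 : ℤ)) : ℝ) ^ 2 ≤
      ((T0 O G).card : ℝ) * Nat.card K := by
    rw [Finset.sum_singleton, c.card_T0 hDEF hBRC, hc]
    push_cast
    simp
  obtain ⟨h1, h2⟩ := hEQ G x k hk K hcomm {fun _ => 1}
    (fun ψ hψ => by rw [Finset.mem_singleton.mp hψ]; exact irr_one K) (fun _ => 1)
    (fun h h3 => absurd h3 ((hK h).mp h.2).2) (T0 O G) hne hcard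
  refine ⟨k, hk, fun χ hχ => ?_, fun χ hχ hn => ?_⟩
  · obtain ⟨w, ε, a1, a2, a3⟩ := h1 χ (mem_T0.mpr hχ)
    refine ⟨w, ε, a1, a2, fun t ht => ?_⟩
    have := a3 t ht
    rw [Finset.sum_singleton, Int.cast_one, one_mul] at this
    exact this
  · have := h2 χ hχ (fun h => hn (mem_T0.mp h))
    rw [Finset.sum_singleton, Int.cast_one, one_mul] at this
    exact this

omit c in
theorem vv_orth {x x' : G} (hx : ∃ k, orderOf x = 3 ^ k) (hx' : ∃ k, orderOf x' = 3 ^ k)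
    {K K' : Subgroup G} (hK : ∀ s, s ∈ K ↔ Commute x s ∧ ¬ 3 ∣ orderOf s)
    (hK' : ∀ s, s ∈ K' ↔ Commute x' s ∧ ¬ 3 ∣ orderOf s) (hnc : ¬ IsConj x x')
    (h0 : ∀ χ, IsIrr χ → χ ∉ X0 O G → vv K x χ = 0) :
    ∑ χ ∈ T0 O G, vv K' x' χ * (starRingEnd ℂ) (vv K x χ) = 0 := by
  obtain ⟨k, hk⟩ := hx
  obtain ⟨k', hk'⟩ := hx'
  have hS : ∀ {u : G} {L : Subgroup G}, (∀ s, s ∈ L ↔ Commute u s ∧ ¬ 3 ∣ orderOf s) →
      Supp 3 u (ext0 L (fun _ => 1)) := by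
    intro u L hL s hs
    by_contra h
    apply hs
    exact ext0_not _ (fun h2 => h ((hL s).mp h2))
  have h1 := sec_orth (p := 3) hk hk' (hS hK) (hS hK')
  have hemp : Finset.univ.filter (fun g : G => g⁻¹ * x * g = x') = ∅ := by
    rw [Finset.filter_eq_empty_iff]
    intro g _ hg
    apply hnc
    exact isConj_iff.mpr ⟨g⁻¹, by rw [inv_inv]; exact hg⟩
  rw [hemp, Finset.sum_empty] at h1
  have h2 : ∀ χ ∈ IC.Irr G, av x (ext0 K (fun _ => 1)) χ *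
      (starRingEnd ℂ) (av x' (ext0 K' (fun _ => 1)) χ) =
      ((Nat.card K : ℂ) * Nat.card K') * (vv K' x' χ * (starRingEnd ℂ) (vv K x χ)) := by
    intro χ _
    rw [av_ext0 (irr_one K), av_ext0 (irr_one K')]
    unfold vv
    rw [map_mul, Complex.conj_conj, map_natCast]
    ring
  rw [Finset.sum_congr rfl h2, ← Finset.mul_sum] at h1
  have hne : ((Nat.card K : ℂ) * Nat.card K') ≠ 0 :=
    mul_ne_zero (by exact_mod_cast Nat.card_pos.ne') (by exact_mod_cast Nat.card_pos.ne')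
  have h3 := (mul_eq_zero.mp h1).resolve_left hne
  rw [← h3]
  refine Finset.sum_subset (fun χ hχ => ?_) (fun χ hχ hn => ?_)
  · exact IC.mem_Irr.mpr (mem_T0.mp hχ).1.1
  · rw [h0 χ (IC.mem_Irr.mp hχ) (fun h => hn (mem_T0.mpr h)), map_zero, mul_zero]

end Ctx

end Pool.Agent.Y62.GA
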