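import Pool.Agent.Y62.GA.Lev2
import Pool.Agent.Helper884.PK.Deg

/-!
Groups with a normal Sylow 3-subgroup `Q`: the irreducible characters of degree prime to 3 are trivial
on `Q'`; consequences for the action of Galois automorphisms.
-/

set_option linter.style.haveILetI false
set_option linter.unusedSectionVars false

open scoped BigOperators Classical
open Pool.Agent.Helper884 Representation Pool.Agent.H254R3.IN

noncomputable section

namespace Pool.Agent.Y62.GA

open Pool.Agent.Y62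

/-- an operator of finite order has a trace which is a sum of roots of unity -/
lemma trace_fixed {V : Type} [AddCommGroup V] [Module ℂ V] [FiniteDimensional ℂ V]
    (A : Module.End ℂ V) {n : ℕ} (hA : A ^ n = 1) {σ : ℂ ≃+* ℂ}
    (hσ : ∀ ξ : ℂ, ξ ^ n = 1 → σ ξ = ξ) :
    σ (LinearMap.trace ℂ V A) = LinearMap.trace ℂ V A := by
  rw [Module.End.trace_eq_sum_roots_charpoly_of_splits (IsAlgClosed.splits _), map_multiset_sum]
  congr 1
  rw [Multiset.map_congr rfl (g := id) (fun r hr => ?_), Multiset.map_id]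
  have h1 : A.charpoly.IsRoot r := Polynomial.isRoot_of_mem_roots hr
  have h2 := (Module.End.hasEigenvalue_iff_isRoot_charpoly A r).mpr h1
  obtain ⟨v, hv⟩ := h2.exists_hasEigenvector
  have h3 : ∀ k : ℕ, (A ^ k) v = r ^ k • v := fun k => hv.pow_apply k
  have h4 := h3 n
  rw [hA] at h4
  have h5 : (1 : ℂ) • v = r ^ n • v := by rw [one_smul]; exact h4
  have h6 := smul_left_injective ℂ hv.2 h5
  exact hσ r h6.symm

variable {G : Type} [Group G] [Fintype G]

lemma ips_nat {χ : G → ℂ} (hχ : IsIrr χ) (M : Subgroup G) {ψ : M → ℂ} (hψ : IsIrr ψ) :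
    ∃ n : ℕ, ips M 1 χ ψ = n := by
  obtain ⟨l, hl⟩ := exists_l (1 : G)
  obtain ⟨n, hn⟩ := ips_fourier hχ (H := M) (fun h _ => Commute.one_left h) hψ l hl
  refine ⟨n 0, ?_⟩
  have h1 := hn 0
  rw [pow_zero, orderOf_one] at h1
  rw [h1]
  simp

/-- a linear constituent of the restriction to a 3-subgroup -/
lemma exists_linear {χ : G → ℂ} (hχ : IsIrr χ) {n : ℕ} (hn : (n : ℂ) = χ 1) (h3 : ¬ 3 ∣ n)
    (Q : Subgroup G) (hQ : IsPGroup 3 Q) :
    ∃ ψ : Q → ℂ, IsIrr ψ ∧ ψ 1 = 1 ∧ ips Q 1 χ ψ ≠ 0 := by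
  haveI : Fact (Nat.Prime 3) := ⟨Nat.prime_three⟩
  by_contra hcon
  push Not at hcon
  have h1 := val_expand hχ (H := Q) (y := (1 : G)) (fun h _ => Commute.one_left h) 1
  have hnat : ∀ ψ ∈ IC.Irr Q, ∃ a : ℕ, ips Q 1 χ ψ * ψ 1 = ((3 * a : ℕ) : ℂ) := by
    intro ψ hψ
    have hi : IsIrr ψ := IC.mem_Irr.mp hψ
    obtain ⟨k, hk⟩ := ips_nat hχ Q hi
    obtain ⟨V, _, _, _, ρ, hρ, rfl⟩ := id hi
    obtain ⟨a, ha⟩ := PK.deg_pow 3 hQ ρ hρ
    have hd : ρ.character 1 = ((3 ^ a : ℕ) : ℂ) := by rw [ρ.char_one, ha]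
    rcases Nat.eq_zero_or_pos a with h0 | h0
    · have h4 : ρ.character 1 = 1 := by rw [hd, h0, pow_zero, Nat.cast_one]
      have h5 := hcon _ hi h4
      exact ⟨0, by rw [h5]; simp⟩
    · refine ⟨k * 3 ^ (a - 1), ?_⟩
      rw [hk, hd, ← Nat.cast_mul]
      congr 1
      have : a = (a - 1) + 1 := by omega
      conv_lhs => rw [this]
      ring
  choose! a ha using hnat
  have h2 : χ (1 * ((1 : Q) : G)) = ((3 * ∑ ψ ∈ IC.Irr Q, a ψ : ℕ) : ℂ) := by
    rw [h1, Finset.mul_sum, Nat.cast_sum]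
    exact Finset.sum_congr rfl fun ψ hψ => ha ψ hψ
  have h4 : χ (1 * ((1 : Q) : G)) = χ 1 := by
    congr 1
    exact mul_one 1
  rw [h4, ← hn] at h2
  apply h3
  have h5 : n = 3 * ∑ ψ ∈ IC.Irr Q, a ψ := by exact_mod_cast h2
  exact ⟨_, h5⟩

/-- a normal subgroup with a fixed vector acts trivially -/
lemma normal_trivial {V : Type} [AddCommGroup V] [Module ℂ V] [FiniteDimensional ℂ V]
    (ρ : Representation ℂ G V) (hρ : ρ.IsIrreducible) (D : Subgroup G) (hD : D.Normal)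
    (h : ips D 1 ρ.character (fun _ => 1) ≠ 0) : ∀ d ∈ D, ρ d = 1 := by
  set T : V →ₗ[ℂ] V := ∑ d : D, ρ (d : G) with hT
  have hcomm : ∀ (g : G) (v : V), T (ρ g v) = ρ g (T v) := by
    intro g v
    rw [hT, LinearMap.sum_apply, LinearMap.sum_apply, map_sum]
    refine Fintype.sum_equiv (MulAut.conjNormal g⁻¹).toEquiv _ _ fun d => ?_
    have e : (((MulAut.conjNormal g⁻¹).toEquiv d : D) : G) = g⁻¹ * (d : G) * g := by
      change ((MulAut.conjNormal g⁻¹ d : D) : G) = _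
      rw [MulAut.conjNormal_apply, inv_inv]
    rw [e]
    rw [← Module.End.mul_apply, ← Module.End.mul_apply, ← map_mul, ← map_mul]
    congr 2
    group
  obtain ⟨c, hc⟩ := PK.schur ρ hρ T hcomm
  have htr : LinearMap.trace ℂ V T = ∑ d : D, ρ.character (d : G) := by
    rw [hT, map_sum]
    rfl
  have hc0 : c ≠ 0 := by
    rintro rfl
    apply h
    unfold ips
    have h2 : ∑ d : D, ρ.character (d : G) = 0 := by
      rw [← htr, hc, zero_smul, map_zero]
    simp only [one_mul, mul_one]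
    rw [h2, mul_zero]
  intro d hd
  have h3 : ρ d * T = T := by
    rw [hT, Finset.mul_sum]
    refine Fintype.sum_equiv (Equiv.mulLeft (⟨d, hd⟩ : D)) _ _ fun d' => ?_
    rw [← map_mul]
    rfl
  rw [hc] at h3
  have h4 : c • ρ d = c • (1 : V →ₗ[ℂ] V) := by
    have e1 : ρ d * (c • LinearMap.id) = c • ρ d := by
      ext v
      simp
    rw [← e1, h3]
    rfl
  exact smul_right_injective _ hc0 h4

end Pool.Agent.Y62.GA
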