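import Pool.Agent.Y62.GA.M3

/-!
The model of the characters of height zero when some element inverts.
-/

set_option linter.style.haveILetI false
set_option linter.unusedSectionVars false

open scoped BigOperators Classical
open Pool.Agent.Helper884 Representation Pool.Agent.H254R3.IN

noncomputable section

namespace Pool.Agent.Y62.GA

open Pool.Agent.Y62

section gal

variable {M : Type} [Group M] [Fintype M]

lemma ips_one_nat {χ : M → ℂ} (hχ : IsIrr χ) (L : Subgroup M) :
    ∃ n : ℕ, ips L 1 χ (fun _ => 1) = n := by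
  obtain ⟨l, hl⟩ := exists_l (1 : M)
  obtain ⟨n, hn⟩ := ips_fourier hχ (H := L) (fun h _ => Commute.one_left h) (irr_one L) l hl
  refine ⟨n 0, ?_⟩
  have h1 := hn 0
  rw [pow_zero, orderOf_one] at h1
  rw [h1]
  simp

/-- the three characters are rational -/
lemma gal_fix (hI : S_IRR) {O : ValuationSubring ℂ} (hO : ((3 : ℕ) : ℂ) ∈ O.nonunits)
    {L : Subgroup M} {X : Finset (M → ℂ)} (hX3 : X.card = 3) (hXi : ∀ ψ ∈ X, IsIrr ψ)
    {e : (M → ℂ) → ℤ} (he : ∀ ψ ∈ X, e ψ = 1 ∨ e ψ = -1)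
    (hX0 : ∀ ψ, IsIrr ψ → ψ ∉ X → red O (ips L 1 ψ (fun _ => 1)) = 0)
    (hX1 : ∀ ψ ∈ X, red O (ips L 1 ψ (fun _ => 1)) = red O (e ψ : ℂ))
    (hsum : ∑ ψ ∈ X, (e ψ : ℂ) * ψ 1 = 0) (σ : ℂ ≃+* ℂ) : ∀ ψ ∈ X, gal σ ψ = ψ := by
  haveI := charP_RF (p := 3) hO
  have hred : ∀ ψ, IsIrr ψ → red O (ips L 1 (gal σ ψ) (fun _ => 1)) =
      red O (ips L 1 ψ (fun _ => 1)) := by
    intro ψ hψ
    have h1 : ips L 1 (gal σ ψ) (fun _ => 1) = σ (ips L 1 ψ (fun _ => 1)) := vv_gal σ L 1 ψ
    obtain ⟨n, hn⟩ := ips_one_nat hψ L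
    rw [h1, hn, map_natCast]
  have hene : ∀ ψ ∈ X, red O (e ψ : ℂ) ≠ 0 := by
    intro ψ hψ
    rcases he ψ hψ with h | h
    · rw [h, Int.cast_one, red_one]; exact one_ne_zero
    · rw [h, Int.cast_neg, Int.cast_one, red_neg O.one_mem, red_one]
      exact neg_ne_zero.mpr one_ne_zero
  have hmem : ∀ ψ ∈ X, gal σ ψ ∈ X := by
    intro ψ hψ
    by_contra hcon
    have h1 := hX0 _ (hI M σ ψ (hXi ψ hψ)) hcon
    have h2 := hred ψ (hXi ψ hψ)
    rw [hX1 ψ hψ] at h2
    exact hene ψ hψ (by rw [← h2]; exact h1)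
  have h2ne : (1 : RF O) ≠ -1 := by
    intro h
    have h2 : ((2 : ℕ) : RF O) = 0 := by
      push_cast
      rw [← one_add_one_eq_two]
      nth_rewrite 2 [h]
      exact add_neg_cancel 1
    rw [CharP.cast_eq_zero_iff (RF O) 3] at h2
    norm_num at h2
  have hinj : ∀ a b : ℤ, (a = 1 ∨ a = -1) → (b = 1 ∨ b = -1) → red O (a : ℂ) = red O (b : ℂ) →
      a = b := by
    intro a b ha hb h
    rw [red_intCast, red_intCast] at h
    rcases ha with rfl | rfl <;> rcases hb with rfl | rfl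
    · rfl
    · exact absurd (by simpa using h) h2ne
    · exact absurd (by simpa using h.symm) h2ne
    · rfl
  have heq : ∀ ψ ∈ X, e (gal σ ψ) = e ψ := by
    intro ψ hψ
    apply hinj _ _ (he _ (hmem ψ hψ)) (he ψ hψ)
    rw [← hX1 _ (hmem ψ hψ), hred ψ (hXi ψ hψ), hX1 ψ hψ]
  have h1X : (fun _ : M => (1 : ℂ)) ∈ X := by
    by_contra hcon
    have h1 := hX0 _ (irr_one M) hcon
    have h2 : ips L 1 (fun _ : M => (1 : ℂ)) (fun _ => 1) = 1 := vv_one L 1
    rw [h2, red_one] at h1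
    exact one_ne_zero h1
  have h1fix : gal σ (fun _ : M => (1 : ℂ)) = fun _ => 1 := by
    funext g
    exact map_one σ
  have hgi : Function.Injective (gal (G := M) σ) := by
    intro ψ ψ' h
    funext g
    exact σ.injective (congrFun h g)
  have hE : (X.erase (fun _ : M => (1 : ℂ))).card = 2 := by
    rw [Finset.card_erase_of_mem h1X, hX3]
  obtain ⟨a, b, hab, hXab⟩ := Finset.card_eq_two.mp hE
  have haE : a ∈ X.erase (fun _ : M => (1 : ℂ)) := by rw [hXab]; simp
  have hbE : b ∈ X.erase (fun _ : M => (1 : ℂ)) := by rw [hXab]; simp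
  have haX := Finset.mem_of_mem_erase haE
  have hbX := Finset.mem_of_mem_erase hbE
  -- no swap
  have key : ∀ a b : M → ℂ, a ≠ b → X.erase (fun _ : M => (1 : ℂ)) = {a, b} → gal σ a = a := by
    intro a b hab hXab
    have haE : a ∈ X.erase (fun _ : M => (1 : ℂ)) := by rw [hXab]; simp
    have hbE : b ∈ X.erase (fun _ : M => (1 : ℂ)) := by rw [hXab]; simp
    have haX := Finset.mem_of_mem_erase haE
    have hga : gal σ a ∈ X.erase (fun _ : M => (1 : ℂ)) := by
      refine Finset.mem_erase.mpr ⟨fun h => ?_, hmem a haX⟩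
      exact (Finset.mem_erase.mp haE).1 (hgi (by rw [h, h1fix]))
    rw [hXab] at hga
    rcases Finset.mem_insert.mp hga with h | h
    · exact h
    · exfalso
      have h := Finset.mem_singleton.mp h
      obtain ⟨n, -, hn⟩ := (hXi a haX).deg
      have hb1 : b 1 = n := by
        rw [← h]
        unfold gal
        rw [← hn, map_natCast]
      have heb : e b = e a := by rw [← h]; exact heq a haX
      rw [← Finset.add_sum_erase X _ h1X, hXab, Finset.sum_pair hab, heb, hb1, ← hn] at hsum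
      have h3' : (((e (fun _ => 1) * 1 + (e a * n + e a * n) : ℤ)) : ℂ) = 0 := by
        push_cast
        exact hsum
      have h3 : (e (fun _ => 1) * 1 + (e a * n + e a * n) : ℤ) = 0 := by
        exact_mod_cast h3'
      have h4 := he _ h1X
      rcases h4 with h4 | h4 <;> rw [h4] at h3 <;> omega
  intro ψ hψ
  by_cases h : ψ = fun _ => 1
  · rw [h]; exact h1fix
  · have h2 : ψ ∈ X.erase (fun _ : M => (1 : ℂ)) := Finset.mem_erase.mpr ⟨h, hψ⟩
    rw [hXab] at h2
    rcases Finset.mem_insert.mp h2 with rfl | h3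
    · exact key ψ b hab hXab
    · rw [Finset.mem_singleton.mp h3]
      exact key b a hab.symm (by rw [hXab, Finset.pair_comm])

end gal

end Pool.Agent.Y62.GA
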