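import Pool.Agent.Y62.GA.M2

/-!
The model of the characters of height zero when some element inverts.
-/

set_option linter.style.haveILetI false
set_option linter.unusedSectionVars false

open scoped BigOperators Classical
open Pool.Agent.Helper884 Representation Pool.Agent.H254R3.IN

noncomputable section

namespace Pool.Agent.Y62.GA

open Pool.Agent.Y62

variable {G : Type} [Group G] [Fintype G]

/-- the data obtained from an inverting element -/
structure D2 (O : ValuationSubring ℂ) (N : Subgroup G) (x : G) (M : Subgroup G)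
    (X : Finset (M → ℂ)) (e : (M → ℂ) → ℤ) : Prop where
  hMN : M ≤ N
  hX3 : X.card = 3
  hfix : ∀ σ : ℂ ≃+* ℂ, ∀ ψ ∈ X, gal σ ψ = ψ
  hne : ∀ χ ∈ X0 O G, ¬ ∀ ψ ∈ X, ∀ ψ' ∈ X, (e ψ : ℂ) * ips M x χ ψ = e ψ' * ips M x χ ψ'
  hpair : ∀ a ∈ X, ∀ b ∈ X, a ≠ b →
    ((Ctx.T0 O G).filter (fun χ => (e a : ℂ) * ips M x χ a - (e b : ℂ) * ips M x χ b ≠ 0)).card =
      2 * N.index ∧
    ∀ χ ∈ X0 O G, (e a : ℂ) * ips M x χ a - (e b : ℂ) * ips M x χ b ≠ 0 →
      ∃ w ε : ℂ, w ^ N.index = 1 ∧ (ε = 1 ∨ ε = -1) ∧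
        (e a : ℂ) * ips M x χ a - (e b : ℂ) * ips M x χ b = ε * w

namespace Ctx

variable {O : ValuationSubring ℂ} {N : Subgroup G} {y : G} {P : Sylow 3 G} (c : Ctx O N y P)

include c

theorem exists_D2 (hDEF : S_DEF) (hBRC : S_BRC) (hEQ : S_EQ) (hNV : S_NV) (hI : S_IRR)
    (hDAT : S_DAT) {x z n : G} (hxP : x ∈ P) (hx : y⁻¹ * x ∈ N) (hzP : z ∈ P) (hzN : z ∈ N)
    (hz : orderOf z = 3) (hzx : Commute z x) (hn : Commute n x) (hnz : n⁻¹ * z * n = z⁻¹) :
    ∃ (M : Subgroup G) (X : Finset (M → ℂ)) (e : (M → ℂ) → ℤ), D2 O N x M X e := by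
  have k := c.core hDEF hBRC hxP hx
  obtain ⟨L, hL⟩ := k.exists_L hz hzN hzx
  obtain ⟨l, hl, hprim, hT, r, hr1, hr⟩ := c.lin hDEF hBRC
  set M : Subgroup G := Subgroup.centralizer ({x} : Set G) ⊓ N with hM
  have hcx : ∀ u, u ∈ Subgroup.centralizer ({x} : Set G) ↔ Commute x u := by
    intro u
    rw [Subgroup.mem_centralizer_iff]
    simp only [Set.mem_singleton_iff, forall_eq]
    exact Iff.rfl
  have hzM : z ∈ M := ⟨(hcx z).mpr hzx.symm, hzN⟩
  have hLM : L ≤ M := by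
    intro s hs
    have h1 := (hL s).mp hs
    exact ⟨(hcx s).mpr h1.1, c.reg_mem hDEF hBRC h1.2.2⟩
  have hxM : ∀ h ∈ M, Commute x h := fun h hh => (hcx h).mp hh.1
  have h9 := c.h9 x (c.el hxP) hx
  have d : Dat M ⟨z, hzM⟩ (L.subgroupOf M) :=
    { hz := by rw [← Subgroup.orderOf_coe]; exact hz
      h9 := h9
      hL := by
        intro s
        rw [Subgroup.mem_subgroupOf, hL, ← Subgroup.orderOf_coe]
        constructor
        · rintro ⟨_, h2, h3⟩
          exact ⟨Subtype.ext h2.eq, h3⟩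
        · rintro ⟨h2, h3⟩
          exact ⟨hxM s s.2, congrArg Subtype.val h2.eq, h3⟩ }
  -- a regular inverting element
  obtain ⟨b, m, hm, hG⟩ : ∃ b m : ℕ, ¬ 3 ∣ m ∧ Nat.card G = 3 ^ b * m := by
    obtain ⟨b, m, hm, hG⟩ := Nat.exists_eq_pow_mul_and_not_dvd (n := Nat.card G)
      Nat.card_pos.ne' 3 (by norm_num)
    exact ⟨b, m, hm, hG⟩
  have hpow : ∀ i : ℕ, (n ^ i)⁻¹ * z * n ^ i = if Even i then z else z⁻¹ := by
    intro i
    induction i with
    | zero => simp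
    | succ i ih =>
      have h1 : (n ^ (i + 1))⁻¹ * z * n ^ (i + 1) = n⁻¹ * ((n ^ i)⁻¹ * z * n ^ i) * n := by
        rw [pow_succ]; group
      rw [h1, ih]
      by_cases hi : Even i
      · rw [if_pos hi, if_neg (by rw [Nat.even_add_one, not_not]; exact hi), hnz]
      · rw [if_neg hi, if_pos (Nat.even_add_one.mpr hi)]
        have h2 : n⁻¹ * z⁻¹ * n = (n⁻¹ * z * n)⁻¹ := by group
        rw [h2, hnz, inv_inv]
  set t₀ : G := n ^ 3 ^ b with ht₀
  have ht1 : t₀⁻¹ * z * t₀ = z⁻¹ := by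
    rw [ht₀, hpow, if_neg]
    rw [Nat.not_even_iff_odd]
    exact Odd.pow (by decide)
  have ht2 : ¬ 3 ∣ orderOf t₀ := by
    intro h
    apply hm
    refine h.trans ?_
    rw [orderOf_dvd_iff_pow_eq_one, ht₀, ← pow_mul, ← hG, pow_card_eq_one']
  have ht3 : t₀ ∈ M := ⟨(hcx _).mpr (hn.symm.pow_right _), c.reg_mem hDEF hBRC ht2⟩
  have hz2 : z⁻¹ = z ^ 2 := by
    have hz3 : z ^ 3 = 1 := by rw [← hz]; exact pow_orderOf_eq_one z
    rw [inv_eq_iff_mul_eq_one]
    calc z * z ^ 2 = z ^ 3 := by group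
      _ = 1 := hz3
  have htM : (⟨t₀, ht3⟩ : M)⁻¹ * ⟨z, hzM⟩ * ⟨t₀, ht3⟩ = (⟨z, hzM⟩ : M) ^ 2 := by
    apply Subtype.ext
    change t₀⁻¹ * z * t₀ = z ^ 2
    rw [ht1, hz2]
  obtain ⟨X, hX3, hXi, e, he, hX0, hX1, halt, hsum⟩ :=
    hDAT M O c.hO ⟨z, hzM⟩ (L.subgroupOf M) d ⟨t₀, ht3⟩ htM
  -- the order of `x`
  have hordx : orderOf x = N.index := by
    have hd := c.ord_dvd hDEF hBRC hxP hx
    have hdv : N.index ∣ orderOf x := by
      apply (hprim x hx).dvd_of_pow_eq_one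
      rw [← Units.val_pow_eq_pow_val, ← map_pow, pow_orderOf_eq_one, map_one, Units.val_one]
    haveI := c.hN
    have hxq : x ^ N.index = 1 := by
      have hmem : x ^ N.index ∈ M :=
        ⟨(hcx _).mpr ((Commute.refl x).pow_right _), Subgroup.pow_index_mem N x⟩
      obtain ⟨j, hj⟩ := c.el ((P : Subgroup G).pow_mem hxP N.index)
      have h1 := d.mem_zp (u := ⟨x ^ N.index, hmem⟩) (k := j)
        (by rw [← Subgroup.orderOf_coe]; exact hj)
        (Subtype.ext (hzx.pow_right N.index).eq)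
      have hcn : n⁻¹ * x ^ N.index * n = x ^ N.index := by
        have := (hn.pow_right N.index).eq
        rw [mul_assoc, ← this]; group
      have hzz : z ≠ z⁻¹ := by
        intro h
        have h2 : z ^ 2 = 1 := by
          rw [pow_two]
          nth_rewrite 2 [h]
          exact mul_inv_cancel z
        have h3 := orderOf_dvd_of_pow_eq_one h2
        rw [hz] at h3
        norm_num at h3
      rcases d.pow_cases h1 with h2 | h2 | h2
      · exact congrArg Subtype.val h2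
      · exfalso
        have h3 : x ^ N.index = z := congrArg Subtype.val h2
        rw [h3, hnz] at hcn
        exact hzz hcn.symm
      · exfalso
        have h3 : x ^ N.index = z ^ 2 := congrArg Subtype.val h2
        rw [h3, ← hz2] at hcn
        have h4 : n⁻¹ * z⁻¹ * n = (n⁻¹ * z * n)⁻¹ := by group
        rw [h4, hnz, inv_inv] at hcn
        exact hzz hcn
    exact Nat.dvd_antisymm (orderOf_dvd_of_pow_eq_one hxq) hdv
  -- nonvanishing
  obtain ⟨kk₁, hk⟩ := c.ord_pos hDEF hBRC hxP hx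
  have hred : ∀ χ ∈ X0 O G, red O (∑ ψ ∈ X, (e ψ : ℂ) * ips M x χ ψ) ≠ 0 ∧
      ∀ ψ ∈ X, (e ψ : ℂ) * ips M x χ ψ ∈ O := by
    intro χ hχ
    have hi : IsIrr χ := hχ.1.1
    have hm : ∀ ψ, IsIrr ψ → ips M x χ ψ ∈ O ∧ ips M 1 χ ψ ∈ O ∧
        red O (ips M x χ ψ) = red O (ips M 1 χ ψ) := by
      intro ψ hψ
      have h1 := ips_red (p := 3) c.hO hi hxM hk hψ 1
      have h0 := ips_red (p := 3) c.hO hi hxM hk hψ 0
      rw [pow_one] at h1
      rw [pow_zero] at h0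
      exact ⟨h1.1, h0.1, h1.2⟩
    have hlO : ∀ ψ, IsIrr ψ → ips (L.subgroupOf M) 1 ψ (fun _ => 1) ∈ O := by
      intro ψ hψ
      obtain ⟨a, ha⟩ := ips_one_nat hψ (L.subgroupOf M)
      rw [ha]
      exact natCast_mem' a
    have hint : ∀ a : ℤ, (a : ℂ) ∈ O := fun a => intCast_mem' a
    refine ⟨?_, fun ψ hψ => O.mul_mem _ _ (hint _) (hm ψ (hXi ψ hψ)).1⟩
    have hR : Subgroup.zpowers x ⊔ Subgroup.zpowers z ≤ (P : Subgroup G) := by
      rw [sup_le_iff, Subgroup.zpowers_le, Subgroup.zpowers_le]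
      exact ⟨hxP, hzP⟩
    have hLR : ∀ s, s ∈ L ↔ (∀ u ∈ Subgroup.zpowers x ⊔ Subgroup.zpowers z, Commute u s) ∧
        ¬ 3 ∣ orderOf s := by
      intro s
      rw [hL]
      constructor
      · rintro ⟨h1, h2, h3⟩
        refine ⟨fun u hu => ?_, h3⟩
        have h4 : Subgroup.zpowers x ⊔ Subgroup.zpowers z ≤ Subgroup.centralizer ({s} : Set G) := by
          rw [sup_le_iff, Subgroup.zpowers_le, Subgroup.zpowers_le,
            Subgroup.mem_centralizer_iff, Subgroup.mem_centralizer_iff]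
          simp only [Set.mem_singleton_iff, forall_eq]
          exact ⟨h1.symm.eq, h2.symm.eq⟩
        have h5 := h4 hu
        rw [Subgroup.mem_centralizer_iff] at h5
        exact (h5 s (Set.mem_singleton s)).symm
      · rintro ⟨h1, h2⟩
        exact ⟨h1 x (Subgroup.mem_sup_left (Subgroup.mem_zpowers x)),
          h1 z (Subgroup.mem_sup_right (Subgroup.mem_zpowers z)), h2⟩
    have h1 := hNV G O c.hO P χ hχ.1 hχ.2 _ hR L hLR
    have h1' : red O (ips L 1 χ (fun _ => 1)) ≠ 0 := by rw [h1]; exact hχ.2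
    rw [ips_stages hLM hi, red_sum _ _ (fun ψ hψ => O.mul_mem _ _ (hm ψ (IC.mem_Irr.mp hψ)).2.1
      (hlO ψ (IC.mem_Irr.mp hψ)))] at h1'
    rw [red_sum _ _ (fun ψ hψ => O.mul_mem _ _ (hint _) (hm ψ (hXi ψ hψ)).1)]
    have h2 : ∑ ψ ∈ X, red O ((e ψ : ℂ) * ips M x χ ψ) =
        ∑ ψ ∈ IC.Irr M, red O (ips M 1 χ ψ * ips (L.subgroupOf M) 1 ψ (fun _ => 1)) := by
      rw [← Finset.sum_subset (s₁ := X) (fun ψ hψ => IC.mem_Irr.mpr (hXi ψ hψ))]
      · refine Finset.sum_congr rfl fun ψ hψ => ?_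
        rw [red_mul (hint _) (hm ψ (hXi ψ hψ)).1, red_mul (hm ψ (hXi ψ hψ)).2.1 (hlO ψ (hXi ψ hψ)),
          hX1 ψ hψ, (hm ψ (hXi ψ hψ)).2.2, mul_comm]
      · intro ψ hψ hψX
        rw [red_mul (hm ψ (IC.mem_Irr.mp hψ)).2.1 (hlO ψ (IC.mem_Irr.mp hψ)),
          hX0 ψ (IC.mem_Irr.mp hψ) hψX, mul_zero]
    rw [h2]
    exact h1'
  have hne : ∀ χ ∈ X0 O G,
      ¬ ∀ ψ ∈ X, ∀ ψ' ∈ X, (e ψ : ℂ) * ips M x χ ψ = e ψ' * ips M x χ ψ' := by
    intro χ hχ h
    apply (hred χ hχ).1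
    obtain ⟨f, hf⟩ := Finset.card_pos.mp (by rw [hX3]; norm_num : 0 < X.card)
    have h7 : ∑ ψ ∈ X, (e ψ : ℂ) * ips M x χ ψ = ((3 : ℕ) : ℂ) * ((e f : ℂ) * ips M x χ f) := by
      rw [Finset.sum_congr rfl (fun ψ hψ => h ψ hψ f hf), Finset.sum_const, hX3, nsmul_eq_mul]
    rw [h7, red_mul (natCast_mem' 3) ((hred χ hχ).2 f hf), red_eq_zero c.hO, zero_mul]
  -- the pairs
  have he2 : ∀ ψ ∈ X, (e ψ : ℝ) ^ 2 = 1 := by
    intro ψ hψ
    rcases he ψ hψ with h | h <;> rw [h] <;> norm_num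
  have hord : ∀ h : M, 3 ∣ orderOf (h : G) → 3 ∣ orderOf h := by
    intro h hh
    rwa [Subgroup.orderOf_coe] at hh
  have hMpos : 0 < Nat.card M := Nat.card_pos
  have hcC : Nat.card (Subgroup.centralizer ({x} : Set G)) = N.index * Nat.card M := k.card_cent_y
  have hpre : ∀ a ∈ X, ∀ b ∈ X, a ≠ b →
      (∀ h : M, 3 ∣ orderOf (h : G) → ∑ ψ ∈ ({a, b} : Finset (M → ℂ)),
        (((if ψ = a then e a else - e b : ℤ)) : ℂ) * ψ h = 0) ∧
      (∑ ψ ∈ ({a, b} : Finset (M → ℂ)), (((if ψ = a then e a else - e b : ℤ)) : ℝ) ^ 2 = 2) ∧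
      (∀ u χ, ∑ ψ ∈ ({a, b} : Finset (M → ℂ)), (((if ψ = a then e a else - e b : ℤ)) : ℂ) *
        ips M u χ ψ = (e a : ℂ) * ips M u χ a - (e b : ℂ) * ips M u χ b) := by
    intro a ha b hb hab
    refine ⟨fun h hh => ?_, ?_, fun u χ => ?_⟩
    · rw [Finset.sum_pair hab, if_pos rfl, if_neg hab.symm]
      have := halt a ha b hb h (hord h hh)
      push_cast
      rw [neg_mul, ← sub_eq_add_neg, sub_eq_zero]
      exact this
    · rw [Finset.sum_pair hab, if_pos rfl, if_neg hab.symm]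
      push_cast
      rw [neg_sq, he2 a ha, he2 b hb]
      norm_num
    · rw [Finset.sum_pair hab, if_pos rfl, if_neg hab.symm]
      push_cast
      ring
  have hXpair : ∀ a ∈ X, ∀ b ∈ X, ∀ ψ ∈ ({a, b} : Finset (M → ℂ)), IsIrr ψ := by
    intro a ha b hb ψ hψ
    rcases Finset.mem_insert.mp hψ with rfl | h
    · exact hXi _ ha
    · rw [Finset.mem_singleton.mp h]
      exact hXi _ hb
  have hTp : ∀ a ∈ X, ∀ b ∈ X, a ≠ b → ∀ χ ∈ (T0 O G).filter
      (fun χ => (e a : ℂ) * ips M x χ a - (e b : ℂ) * ips M x χ b ≠ 0), IsIrr χ ∧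
      ∑ ψ ∈ ({a, b} : Finset (M → ℂ)), (((if ψ = a then e a else - e b : ℤ)) : ℂ) *
        ips M x χ ψ ≠ 0 := by
    intro a ha b hb hab χ hχ
    obtain ⟨h2, h3⟩ := Finset.mem_filter.mp hχ
    refine ⟨(mem_T0.mp h2).1.1, ?_⟩
    rw [(hpre a ha b hb hab).2.2]
    exact h3
  have hle : ∀ a ∈ X, ∀ b ∈ X, a ≠ b → ((T0 O G).filter
      (fun χ => (e a : ℂ) * ips M x χ a - (e b : ℂ) * ips M x χ b ≠ 0)).card ≤ 2 * N.index := by
    intro a ha b hb hab
    have h1 := cnt_bound hk hxM ({a, b} : Finset (M → ℂ)) (hXpair a ha b hb)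
      (fun ψ => if ψ = a then e a else - e b) (hpre a ha b hb hab).1 _ (hTp a ha b hb hab)
    rw [(hpre a ha b hb hab).2.1, hcC] at h1
    have h2 : ((T0 O G).filter
      (fun χ => (e a : ℂ) * ips M x χ a - (e b : ℂ) * ips M x χ b ≠ 0)).card * Nat.card M ≤
      (2 * N.index) * Nat.card M := by
      have h3 : (((T0 O G).filter
        (fun χ => (e a : ℂ) * ips M x χ a - (e b : ℂ) * ips M x χ b ≠ 0)).card : ℝ) * Nat.card M ≤
        ((2 * N.index : ℕ) : ℝ) * Nat.card M := by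
        push_cast at h1 ⊢
        linarith
      exact_mod_cast h3
    exact Nat.le_of_mul_le_mul_right h2 hMpos
  have hcard := c.card_T0 hDEF hBRC
  have heq : ∀ a ∈ X, ∀ b ∈ X, a ≠ b → ((T0 O G).filter
      (fun χ => (e a : ℂ) * ips M x χ a - (e b : ℂ) * ips M x χ b ≠ 0)).card = 2 * N.index := by
    intro a ha b hb hab
    obtain ⟨f, hf, hfa, hfb⟩ : ∃ f ∈ X, f ≠ a ∧ f ≠ b := by
      have h1 : ((X.erase a).erase b).card = 1 := by
        rw [Finset.card_erase_of_mem (Finset.mem_erase.mpr ⟨hab.symm, hb⟩),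
          Finset.card_erase_of_mem ha, hX3]
      obtain ⟨f, hf⟩ := Finset.card_pos.mp (by rw [h1]; norm_num : 0 < ((X.erase a).erase b).card)
      have h2 := Finset.mem_erase.mp hf
      have h3 := Finset.mem_erase.mp h2.2
      exact ⟨f, h3.2, h3.1, h2.1⟩
    have hXabf : ∀ ψ ∈ X, ψ = a ∨ ψ = b ∨ ψ = f := by
      have hsub : ({a, b, f} : Finset (M → ℂ)) ⊆ X := by
        intro ψ hψ
        simp only [Finset.mem_insert, Finset.mem_singleton] at hψ
        rcases hψ with rfl | rfl | rfl <;> assumption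
      have hc3 : ({a, b, f} : Finset (M → ℂ)).card = 3 :=
        Finset.card_eq_three.mpr ⟨a, b, f, hab, hfa.symm, hfb.symm, rfl⟩
      have := Finset.eq_of_subset_of_card_le hsub (by rw [hX3, hc3])
      intro ψ hψ
      rw [← this] at hψ
      simpa using hψ
    have h4 := pair_count (T0 O G) (fun χ => (e a : ℂ) * ips M x χ a)
      (fun χ => (e b : ℂ) * ips M x χ b) (fun χ => (e f : ℂ) * ips M x χ f) (by
        rintro χ hχ ⟨h5, h6⟩
        apply hne χ (mem_T0.mp hχ)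
        have hall : ∀ ψ ∈ X, (e ψ : ℂ) * ips M x χ ψ = e f * ips M x χ f := by
          intro ψ hψ
          rcases hXabf ψ hψ with rfl | rfl | rfl
          · rw [h5, h6]
          · exact h6
          · rfl
        intro ψ hψ ψ' hψ'
        rw [hall ψ hψ, hall ψ' hψ'])
    have h1 := hle a ha b hb hab
    have h2 := hle b hb f hf hfb.symm
    have h3 := hle a ha f hf hfa.symm
    rw [hcard] at h4
    omega
  refine ⟨M, X, e, inf_le_right, hX3,
    fun σ => gal_fix hI c.hO hX3 hXi he hX0 hX1 hsum σ, hne, fun a ha b hb hab => ?_⟩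
  refine ⟨heq a ha b hb hab, fun χ hχ h0 => ?_⟩
  have hfull := heq a ha b hb hab
  obtain ⟨g1, -⟩ := hEQ G x kk₁ hk M hxM ({a, b} : Finset (M → ℂ)) (hXpair a ha b hb)
    (fun ψ => if ψ = a then e a else - e b) (hpre a ha b hb hab).1 _ (hTp a ha b hb hab) (by
      rw [(hpre a ha b hb hab).2.1, hfull, hcC]
      push_cast
      linarith)
  obtain ⟨w, ε, b1, b2, b3⟩ := g1 χ (Finset.mem_filter.mpr ⟨mem_T0.mpr hχ, h0⟩)
  have b4 := b3 1 (by norm_num)
  rw [pow_one, pow_one, (hpre a ha b hb hab).2.2] at b4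
  exact ⟨w, ε, by rw [← hordx, hk]; exact b1, b2, b4⟩

end Ctx

end Pool.Agent.Y62.GA
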