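import Pool.Agent.Y62.GA.Lin

/-!
The model of the characters of height zero when no element inverts.
-/

set_option linter.style.haveILetI false
set_option linter.unusedSectionVars false

open scoped BigOperators Classical
open Pool.Agent.Helper884 Representation Pool.Agent.H254R3.IN

noncomputable section

namespace Pool.Agent.Y62.GA

open Pool.Agent.Y62

/-- sign normalisation -/
def sf (n : ℕ) (v : ℂ) : ℂ := if v ^ n = 1 then v else -v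

lemma sf_gal (σ : ℂ ≃+* ℂ) (n : ℕ) (v : ℂ) : sf n (σ v) = σ (sf n v) := by
  unfold sf
  have h : (σ v) ^ n = 1 ↔ v ^ n = 1 := by
    rw [← map_pow, map_eq_one_iff σ σ.injective]
  by_cases hv : v ^ n = 1
  · rw [if_pos hv, if_pos (h.mpr hv)]
  · rw [if_neg hv, if_neg (fun h2 => hv (h.mp h2)), map_neg]

lemma sf_of {n : ℕ} (hn : Odd n) {w ε : ℂ} (hw : w ^ n = 1) (hε : ε = 1 ∨ ε = -1) :
    sf n (ε * w) = w := by
  unfold sf
  rcases hε with rfl | rfl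
  · rw [one_mul, if_pos hw]
  · have h1 : (-1 * w) ^ n = -1 := by
      rw [mul_pow, hw, hn.neg_one_pow, mul_one]
    rw [if_neg (by rw [h1]; norm_num)]
    ring

/-- the invariants of a character -/
def Phi {G : Type} [Group G] [Fintype G] (q : ℕ) (K₀ K₁ : Subgroup G) (x₀ x₁ : G) (χ : G → ℂ) :
    ℂ × ℂ := (sf (3 * q) (vv K₀ x₀ χ), vv K₁ x₁ χ / vv K₀ x₀ χ)

variable {G : Type} [Group G] [Fintype G]

lemma Phi_gal (σ : ℂ ≃+* ℂ) (q : ℕ) (K₀ K₁ : Subgroup G) (x₀ x₁ : G) (χ : G → ℂ) :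
    Phi q K₀ K₁ x₀ x₁ (gal σ χ) = (σ (Phi q K₀ K₁ x₀ x₁ χ).1, σ (Phi q K₀ K₁ x₀ x₁ χ).2) := by
  unfold Phi
  rw [vv_gal, vv_gal, sf_gal, map_div₀]

lemma one_mem_X0 (O : ValuationSubring ℂ) : (fun _ : G => (1 : ℂ)) ∈ X0 O G := by
  refine ⟨⟨irr_one G, fun x => ?_⟩, ?_⟩
  · rw [sub_self]
    exact (red_eq_zero_iff O.zero_mem).mp red_zero
  · rw [red_one]
    exact one_ne_zero

lemma vv_one (K : Subgroup G) (x : G) : vv K x (fun _ => 1) = 1 := by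
  unfold vv ips
  simp only [mul_one, Finset.sum_const, Finset.card_univ, nsmul_eq_mul, ← Nat.card_eq_fintype_card]
  exact inv_mul_cancel₀ (by exact_mod_cast Nat.card_pos.ne')

lemma root_norm {n : ℕ} (hn : n ≠ 0) {w ε : ℂ} (hw : w ^ n = 1) (hε : ε = 1 ∨ ε = -1) :
    ‖ε * w‖ = 1 := by
  have h1 := Complex.norm_eq_one_of_pow_eq_one hw hn
  rcases hε with rfl | rfl
  · rw [one_mul, h1]
  · rw [norm_mul, h1, norm_neg, NormOneClass.norm_one, one_mul]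

namespace Ctx

variable {O : ValuationSubring ℂ} {N : Subgroup G} {y : G} {P : Sylow 3 G} (c : Ctx O N y P)

include c

lemma ord_dvd (hDEF : S_DEF) (hBRC : S_BRC) {x : G} (hxP : x ∈ P) (hx : y⁻¹ * x ∈ N) :
    orderOf x ∣ 3 * N.index := by
  haveI := c.hN
  have h1 : x ^ N.index ∈ N := Subgroup.pow_index_mem N x
  obtain ⟨j, hj⟩ := c.el ((P : Subgroup G).pow_mem hxP N.index)
  have hM : x ^ N.index ∈ (Subgroup.centralizer ({x} : Set G) ⊓ N : Subgroup G) := by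
    have hce : x ^ N.index ∈ Subgroup.centralizer ({x} : Set G) := by
      rw [Subgroup.mem_centralizer_iff]
      intro h hh
      rw [Set.mem_singleton_iff.mp hh]
      exact ((Commute.refl x).pow_right _).eq
    exact ⟨hce, h1⟩
  have h2 : orderOf (x ^ N.index) ∣
      Nat.card (Subgroup.centralizer ({x} : Set G) ⊓ N : Subgroup G) :=
    Subgroup.orderOf_dvd_natCard _ hM
  have h9 := c.h9 x (c.el hxP) hx
  have hj1 : j ≤ 1 := by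
    by_contra hcon
    apply h9
    refine dvd_trans ?_ h2
    rw [hj]
    exact pow_dvd_pow 3 (by omega : 2 ≤ j)
  rw [orderOf_dvd_iff_pow_eq_one, mul_comm, pow_mul, ← orderOf_dvd_iff_pow_eq_one, hj]
  interval_cases j
  · norm_num
  · norm_num

section two

variable (hDEF : S_DEF) (hBRC : S_BRC) (hEQ : S_EQ) (hNV : S_NV) {x₁ : G} (h1P : x₁ ∈ P)
  (h1N : y⁻¹ * x₁ ∈ N) (hnc : ¬ IsConj y x₁) {K₀ K₁ : Subgroup G}
  (hK₀ : ∀ s, s ∈ K₀ ↔ Commute y s ∧ ¬ 3 ∣ orderOf s)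
  (hK₁ : ∀ s, s ∈ K₁ ↔ Commute x₁ s ∧ ¬ 3 ∣ orderOf s)
  (hc₀ : Nat.card (Subgroup.centralizer ({y} : Set G)) = 3 * N.index * Nat.card K₀)
  (hc₁ : Nat.card (Subgroup.centralizer ({x₁} : Set G)) = 3 * N.index * Nat.card K₁)

include hDEF hBRC hEQ hNV h1P h1N hnc hK₀ hK₁ hc₀ hc₁

/-- the basic facts in form of roots of unity of order dividing `3q` -/
lemma facts0 {χ : G → ℂ} (hχ : χ ∈ X0 O G) : ∃ w ε : ℂ, w ^ (3 * N.index) = 1 ∧
    (ε = 1 ∨ ε = -1) ∧ (∀ t : ℕ, ¬ 3 ∣ t → vv K₀ (y ^ t) χ = ε * w ^ t) ∧ w ^ orderOf y = 1 := by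
  have hyN : y⁻¹ * y ∈ N := by rw [inv_mul_cancel]; exact N.one_mem
  obtain ⟨k, hk, h1, -⟩ := c.vv_facts hDEF hBRC hEQ hNV c.hy hyN hK₀ hc₀
  obtain ⟨w, ε, a1, a2, a3⟩ := h1 χ hχ
  rw [← hk] at a1
  refine ⟨w, ε, ?_, a2, a3, a1⟩
  obtain ⟨d, hd⟩ := c.ord_dvd hDEF hBRC c.hy hyN
  rw [hd, pow_mul, a1, one_pow]

lemma facts1 {χ : G → ℂ} (hχ : χ ∈ X0 O G) : ∃ w ε : ℂ, w ^ (3 * N.index) = 1 ∧
    (ε = 1 ∨ ε = -1) ∧ vv K₁ x₁ χ = ε * w := by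
  obtain ⟨k, hk, h1, -⟩ := c.vv_facts hDEF hBRC hEQ hNV h1P h1N hK₁ hc₁
  obtain ⟨w, ε, a1, a2, a3⟩ := h1 χ hχ
  rw [← hk] at a1
  refine ⟨w, ε, ?_, a2, ?_⟩
  · obtain ⟨d, hd⟩ := c.ord_dvd hDEF hBRC h1P h1N
    rw [hd, pow_mul, a1, one_pow]
  · have := a3 1 (by norm_num)
    rwa [pow_one, pow_one] at this

/-- **the main facts** -/
theorem m3 : (∀ χ ∈ X0 O G, (Phi N.index K₀ K₁ y x₁ χ).2 ^ 3 = 1) ∧
    Set.InjOn (Phi N.index K₀ K₁ y x₁) (X0 O G) := by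
  obtain ⟨l, hl, hprim, hT, r, hr1, hr⟩ := c.lin hDEF hBRC
  have hyN : y⁻¹ * y ∈ N := by rw [inv_mul_cancel]; exact N.one_mem
  have hq : Odd N.index := by
    rw [hr]
    exact Odd.pow (by decide)
  have h3q : Odd (3 * N.index) := (by decide : Odd 3).mul hq
  have hKN₀ : K₀ ≤ N := fun s hs => c.reg_mem hDEF hBRC ((hK₀ s).mp hs).2
  have hKN₁ : K₁ ≤ N := fun s hs => c.reg_mem hDEF hBRC ((hK₁ s).mp hs).2
  have hlx : l x₁ = l y := by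
    have h1 := (hl _).mpr h1N
    rw [map_mul, map_inv, inv_mul_eq_one] at h1
    exact h1.symm
  have hv0 : ∀ χ ∈ X0 O G, ‖vv K₀ y χ‖ = 1 := by
    intro χ hχ
    obtain ⟨w, ε, a1, a2, a3, -⟩ := c.facts0 hDEF hBRC hEQ hNV h1P h1N hnc hK₀ hK₁ hc₀ hc₁ hχ
    have a4 := a3 1 (by norm_num)
    rw [pow_one, pow_one] at a4
    rw [a4]
    exact root_norm h3q.pos.ne' a1 a2
  have hv1 : ∀ χ ∈ X0 O G, ‖vv K₁ x₁ χ‖ = 1 := by
    intro χ hχ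
    obtain ⟨w, ε, a1, a2, a3⟩ := c.facts1 hDEF hBRC hEQ hNV h1P h1N hnc hK₀ hK₁ hc₀ hc₁ hχ
    rw [a3]
    exact root_norm h3q.pos.ne' a1 a2
  obtain ⟨k, hk⟩ := c.el c.hy
  obtain ⟨k₁, hk₁⟩ := c.el h1P
  obtain ⟨-, -, -, hz⟩ := c.vv_facts hDEF hBRC hEQ hNV c.hy hyN hK₀ hc₀
  have horth := vv_orth (O := O) ⟨k, hk⟩ ⟨k₁, hk₁⟩ hK₀ hK₁ hnc hz
  have key := three_levels (T := T0 O G) (a := tw l) (v := vv K₀ y)
    (w := fun χ => vv K₁ x₁ χ / vv K₀ y χ) hq (hprim y hyN) hT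
    (fun χ => ips_tw hl hKN₀ y χ _)
    (fun χ hχ h => by
      have := hv0 χ (mem_T0.mp hχ)
      rw [h, norm_zero] at this
      norm_num at this)
    (fun χ hχ => by
      have h1 : vv K₁ x₁ (tw l χ) = ((l x₁ : ℂˣ) : ℂ) * vv K₁ x₁ χ := ips_tw hl hKN₁ x₁ χ _
      have h2 : vv K₀ y (tw l χ) = ((l y : ℂˣ) : ℂ) * vv K₀ y χ := ips_tw hl hKN₀ y χ _
      change vv K₁ x₁ (tw l χ) / vv K₀ y (tw l χ) = _
      rw [h1, h2, hlx, mul_div_mul_left _ _ (Units.ne_zero _)])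
    (c.card_T0 hDEF hBRC)
    (fun χ hχ => by
      rw [norm_div, hv1 χ (mem_T0.mp hχ), hv0 χ (mem_T0.mp hχ), div_one])
    (by
      rw [← horth]
      refine Finset.sum_congr rfl fun χ hχ => ?_
      have h1 := hv0 χ (mem_T0.mp hχ)
      have h2 : vv K₀ y χ * (starRingEnd ℂ) (vv K₀ y χ) = 1 := by
        rw [Complex.mul_conj', h1]; norm_num
      have h3 : vv K₀ y χ ≠ 0 := left_ne_zero_of_mul_eq_one h2
      rw [div_eq_iff h3, mul_assoc, mul_comm ((starRingEnd ℂ) _), h2, mul_one])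
    (χ₁ := fun _ => 1) (mem_T0.mpr (one_mem_X0 O)) (by
      change vv K₁ x₁ (fun _ => 1) / vv K₀ y (fun _ => 1) = 1
      rw [vv_one, vv_one, div_one])
  refine ⟨fun χ hχ => key.1 χ (mem_T0.mpr hχ), fun χ hχ χ' hχ' he => ?_⟩
  have he1 := congrArg Prod.fst he
  have he2 := congrArg Prod.snd he
  obtain ⟨i, hi, hii⟩ := key.2 χ (mem_T0.mpr hχ) χ' (mem_T0.mpr hχ') he2.symm
  have hv : vv K₀ y χ' = ((l y : ℂˣ) : ℂ) ^ i * vv K₀ y χ := by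
    rw [← hii]
    exact iter_v (fun χ => ips_tw hl hKN₀ y χ _) χ i
  obtain ⟨w, ε, a1, a2, a3, -⟩ := c.facts0 hDEF hBRC hEQ hNV h1P h1N hnc hK₀ hK₁ hc₀ hc₁ hχ
  have a4 := a3 1 (by norm_num)
  rw [pow_one, pow_one] at a4
  have hζ : (((l y : ℂˣ) : ℂ) ^ i) ^ (3 * N.index) = 1 := by
    rw [← pow_mul, mul_comm 3, mul_left_comm, pow_mul, (hprim y hyN).pow_eq_one, one_pow]
  have h1 : (Phi N.index K₀ K₁ y x₁ χ).1 = w := by
    change sf (3 * N.index) (vv K₀ y χ) = w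
    rw [a4, sf_of h3q a1 a2]
  have h2 : (Phi N.index K₀ K₁ y x₁ χ').1 = ((l y : ℂˣ) : ℂ) ^ i * w := by
    change sf (3 * N.index) (vv K₀ y χ') = _
    rw [hv, a4, mul_left_comm]
    exact sf_of h3q (by rw [mul_pow, hζ, a1, one_mul]) a2
  rw [h1, h2] at he1
  have hw0 : w ≠ 0 := by
    rintro rfl
    rw [zero_pow h3q.pos.ne'] at a1
    exact zero_ne_one a1
  have h3 : ((l y : ℂˣ) : ℂ) ^ i = 1 := by
    have h4 : ((l y : ℂˣ) : ℂ) ^ i * w = 1 * w := by rw [← he1, one_mul]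
    exact mul_right_cancel₀ hw0 h4
  have h5 : i = 0 := by
    have h6 := (hprim y hyN).dvd_of_pow_eq_one i h3
    exact Nat.eq_zero_of_dvd_of_lt h6 hi
  rw [h5] at hii
  exact hii

lemma Phi_fst {χ : G → ℂ} (hχ : χ ∈ X0 O G) : ∃ ε : ℂ, (ε = 1 ∨ ε = -1) ∧
    (Phi N.index K₀ K₁ y x₁ χ).1 ^ (3 * N.index) = 1 ∧
    (Phi N.index K₀ K₁ y x₁ χ).1 ^ orderOf y = 1 ∧
    (∀ t : ℕ, ¬ 3 ∣ t → vv K₀ (y ^ t) χ = ε * (Phi N.index K₀ K₁ y x₁ χ).1 ^ t) := by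
  obtain ⟨l, hl, hprim, hT, r, hr1, hr⟩ := c.lin hDEF hBRC
  have hq : Odd N.index := by
    rw [hr]
    exact Odd.pow (by decide)
  have h3q : Odd (3 * N.index) := (by decide : Odd 3).mul hq
  obtain ⟨w, ε, a1, a2, a3, a5⟩ := c.facts0 hDEF hBRC hEQ hNV h1P h1N hnc hK₀ hK₁ hc₀ hc₁ hχ
  have a4 := a3 1 (by norm_num)
  rw [pow_one, pow_one] at a4
  have h1 : (Phi N.index K₀ K₁ y x₁ χ).1 = w := by
    change sf (3 * N.index) (vv K₀ y χ) = w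
    rw [a4, sf_of h3q a1 a2]
  rw [h1]
  exact ⟨ε, a2, a1, a5, a3⟩

/-- the image in the split case -/
theorem image_a (hα : ∀ χ ∈ X0 O G, (Phi N.index K₀ K₁ y x₁ χ).1 ^ N.index = 1) :
    Phi N.index K₀ K₁ y x₁ '' (X0 O G) = {p : ℂ × ℂ | p.1 ^ N.index = 1 ∧ p.2 ^ 3 = 1} := by
  obtain ⟨l, hl, hprim, hT, r, hr1, hr⟩ := c.lin hDEF hBRC
  have hyN : y⁻¹ * y ∈ N := by rw [inv_mul_cancel]; exact N.one_mem
  have hq0 : 0 < N.index := by rw [hr]; positivity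
  obtain ⟨m1, m2⟩ := c.m3 hDEF hBRC hEQ hNV h1P h1N hnc hK₀ hK₁ hc₀ hc₁
  set F := Polynomial.nthRootsFinset N.index (1 : ℂ) ×ˢ Polynomial.nthRootsFinset 3 (1 : ℂ) with hF
  have hFc : F.card = 3 * N.index := by
    rw [hF, Finset.card_product, (hprim y hyN).card_nthRootsFinset,
      (Complex.isPrimitiveRoot_exp 3 (by norm_num)).card_nthRootsFinset, mul_comm]
  have hsub : (T0 O G).image (Phi N.index K₀ K₁ y x₁) ⊆ F := by
    intro p hp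
    obtain ⟨χ, hχ, rfl⟩ := Finset.mem_image.mp hp
    rw [hF, Finset.mem_product, Polynomial.mem_nthRootsFinset hq0,
      Polynomial.mem_nthRootsFinset (by norm_num)]
    exact ⟨hα χ (mem_T0.mp hχ), m1 χ (mem_T0.mp hχ)⟩
  have hcard : ((T0 O G).image (Phi N.index K₀ K₁ y x₁)).card = 3 * N.index := by
    rw [Finset.card_image_of_injOn, c.card_T0 hDEF hBRC]
    intro χ hχ χ' hχ' h
    exact m2 (mem_T0.mp hχ) (mem_T0.mp hχ') h
  have heq := Finset.eq_of_subset_of_card_le hsub (by rw [hcard, hFc])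
  ext p
  have h1 : p ∈ Phi N.index K₀ K₁ y x₁ '' (X0 O G) ↔
      p ∈ (T0 O G).image (Phi N.index K₀ K₁ y x₁) := by
    rw [Finset.mem_image]
    constructor
    · rintro ⟨χ, hχ, h⟩
      exact ⟨χ, mem_T0.mpr hχ, h⟩
    · rintro ⟨χ, hχ, h⟩
      exact ⟨χ, mem_T0.mp hχ, h⟩
  rw [h1, heq, hF, Finset.mem_product, Polynomial.mem_nthRootsFinset hq0,
      Polynomial.mem_nthRootsFinset (by norm_num)]
  rfl

/-- the image in the cyclic case -/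
theorem image_b {t : ℕ}
    (hβ : ∀ χ ∈ X0 O G, (Phi N.index K₀ K₁ y x₁ χ).2 = (Phi N.index K₀ K₁ y x₁ χ).1 ^ t) :
    Phi N.index K₀ K₁ y x₁ '' (X0 O G) =
      {p : ℂ × ℂ | p.1 ^ (3 * N.index) = 1 ∧ p.2 = p.1 ^ t} := by
  obtain ⟨l, hl, hprim, hT, r, hr1, hr⟩ := c.lin hDEF hBRC
  have hq0 : 0 < 3 * N.index := by rw [hr]; positivity
  obtain ⟨m1, m2⟩ := c.m3 hDEF hBRC hEQ hNV h1P h1N hnc hK₀ hK₁ hc₀ hc₁
  set F := (Polynomial.nthRootsFinset (3 * N.index) (1 : ℂ)).image (fun u => (u, u ^ t)) with hF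
  have hFc : F.card ≤ 3 * N.index := by
    rw [hF]
    refine Finset.card_image_le.trans ?_
    rw [(Complex.isPrimitiveRoot_exp (3 * N.index) hq0.ne').card_nthRootsFinset]
  have hsub : (T0 O G).image (Phi N.index K₀ K₁ y x₁) ⊆ F := by
    intro p hp
    obtain ⟨χ, hχ, rfl⟩ := Finset.mem_image.mp hp
    rw [hF, Finset.mem_image]
    refine ⟨(Phi N.index K₀ K₁ y x₁ χ).1, ?_, ?_⟩
    · rw [Polynomial.mem_nthRootsFinset hq0]
      obtain ⟨ε, -, h, -⟩ := c.Phi_fst hDEF hBRC hEQ hNV h1P h1N hnc hK₀ hK₁ hc₀ hc₁ (mem_T0.mp hχ)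
      exact h
    · exact Prod.ext rfl (hβ χ (mem_T0.mp hχ)).symm
  have hcard : ((T0 O G).image (Phi N.index K₀ K₁ y x₁)).card = 3 * N.index := by
    rw [Finset.card_image_of_injOn, c.card_T0 hDEF hBRC]
    intro χ hχ χ' hχ' h
    exact m2 (mem_T0.mp hχ) (mem_T0.mp hχ') h
  have heq := Finset.eq_of_subset_of_card_le hsub (by rw [hcard]; exact hFc)
  ext p
  have h1 : p ∈ Phi N.index K₀ K₁ y x₁ '' (X0 O G) ↔
      p ∈ (T0 O G).image (Phi N.index K₀ K₁ y x₁) := by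
    rw [Finset.mem_image]
    constructor
    · rintro ⟨χ, hχ, h⟩
      exact ⟨χ, mem_T0.mpr hχ, h⟩
    · rintro ⟨χ, hχ, h⟩
      exact ⟨χ, mem_T0.mp hχ, h⟩
  rw [h1, heq, hF, Finset.mem_image]
  constructor
  · rintro ⟨u, hu, rfl⟩
    exact ⟨(Polynomial.mem_nthRootsFinset hq0 _).mp hu, rfl⟩
  · rintro ⟨h2, h3⟩
    exact ⟨p.1, (Polynomial.mem_nthRootsFinset hq0 _).mpr h2, Prod.ext rfl h3.symm⟩

end two

end Ctx

end Pool.Agent.Y62.GA
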