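import Pool.Agent.Y62.GA.Fin
import Pool.Agent.Y824.GA.Irr
import Pool.Agent.Y467.GA.Eq
import Pool.Agent.Y467.GA.NV
import Pool.Agent.Y467.GA.Dat
import Pool.Agent.Y655.GA.Fus
import Pool.Agent.Y68.GA.Reg
import Pool.Agent.Y109.GA.TwoFin
import Pool.Agent.Y508.GA.Def

/-!
The main theorem.
-/

set_option linter.style.haveILetI false
set_option linter.unusedSectionVars false

open scoped BigOperators Classical
open Pool.Agent.Helper884 Representation Pool.Agent.H254R3.IN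

noncomputable section

namespace Pool.Agent.Y62.GA

open Pool.Agent.Y62

theorem blocks : Blocks :=
  { hI := Pool.Agent.Y824.GA.S_IRR
    hEQ := Pool.Agent.Y467.GA.S_EQ
    hNV := Pool.Agent.Y467.GA.S_NV
    hDAT := Pool.Agent.Y467.GA.S_DAT
    hFUS := Pool.Agent.Y655.GA.S_FUS
    hREG := Pool.Agent.Y68.GA.S_REG
    hTWO := Pool.Agent.Y109.GA.S_TWO
    hDEF := Pool.Agent.Y508.GA.S_DEF
    hBRC := Pool.Agent.Y508.GA.S_BRC }

lemma Nav.dvd {m m' : ℕ} (h : m' ∣ m) {σ : ℂ ≃+* ℂ} (hσ : Nav m σ) : Nav m' σ := by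
  obtain ⟨e, he⟩ := hσ
  refine ⟨e, fun ξ hξ => he ξ ?_⟩
  obtain ⟨d, rfl⟩ := h
  rw [pow_mul, hξ, one_pow]

variable {G : Type} [Group G] [Fintype G]

/-- **Main theorem.** -/
theorem equivariant {O : ValuationSubring ℂ} {N : Subgroup G} {y : G} {P : Sylow 3 G}
    (c : Ctx O N y P) {b m : ℕ} (hm : ¬ 3 ∣ m) (hG : Nat.card G = 3 ^ b * m) :
    ∃ f : X0 O G ≃ X0 O (NN (P : Subgroup G)), ∀ σ : ℂ ≃+* ℂ, Nav m σ → ∀ χ : X0 O G,
      ∃ h : gal σ (χ : G → ℂ) ∈ X0 O G,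
        (f ⟨gal σ (χ : G → ℂ), h⟩ : NN (P : Subgroup G) → ℂ) = gal σ (f χ : NN (P : Subgroup G) → ℂ) := by
  obtain ⟨S, Φ, Ψ, ⟨g1, g2, g3⟩, ⟨h1, h2, h3⟩⟩ := c.models blocks
  have hm0 : m ≠ 0 := by
    rintro rfl
    exact hm (dvd_zero _)
  obtain ⟨b', m', hm', hH⟩ : ∃ b' m' : ℕ, ¬ 3 ∣ m' ∧ Nat.card (NN (P : Subgroup G)) = 3 ^ b' * m' := by
    obtain ⟨b', m', hm', hH⟩ := Nat.exists_eq_pow_mul_and_not_dvd
      (n := Nat.card (NN (P : Subgroup G))) Nat.card_pos.ne' 3 (by norm_num)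
    exact ⟨b', m', hm', hH⟩
  have hm'0 : m' ≠ 0 := by
    rintro rfl
    exact hm' (dvd_zero _)
  have hdvd : m' ∣ m := by
    have h4 : m' ∣ 3 ^ b * m := by
      rw [← hG]
      exact (Dvd.intro_left _ hH.symm).trans (Subgroup.card_subgroup_dvd_card _)
    have h5 : Nat.Coprime m' (3 ^ b) :=
      (Nat.Coprime.pow_left b ((Nat.Prime.coprime_iff_not_dvd Nat.prime_three).mpr hm')).symm
    exact h5.dvd_of_dvd_mul_left h4
  have e1 : Set.BijOn Φ (X0 O G) S := ⟨fun χ hχ => by rw [← g3]; exact Set.mem_image_of_mem _ hχ,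
    g2, fun p hp => by rw [← g3] at hp; exact hp⟩
  have e2 : Set.BijOn Ψ (X0 O (NN (P : Subgroup G))) S :=
    ⟨fun χ hχ => by rw [← h3]; exact Set.mem_image_of_mem _ hχ,
      h2, fun p hp => by rw [← h3] at hp; exact hp⟩
  let f : X0 O G ≃ X0 O (NN (P : Subgroup G)) := (e1.equiv Φ).trans (e2.equiv Ψ).symm
  have hf : ∀ χ : X0 O G, Ψ (f χ) = Φ χ := by
    intro χ
    have h4 : (e2.equiv Ψ) (f χ) = e1.equiv Φ χ := by
      change (e2.equiv Ψ) ((e2.equiv Ψ).symm (e1.equiv Φ χ)) = _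
      rw [Equiv.apply_symm_apply]
    exact congrArg Subtype.val h4
  refine ⟨f, fun σ hσ χ => ?_⟩
  have hmem := gal_X0 blocks.hI c.hO hm0 hσ hG χ.2
  refine ⟨hmem, ?_⟩
  have hmem' := gal_X0 blocks.hI c.hO hm'0 (hσ.dvd hdvd) hH (f χ).2
  apply h2 (f ⟨gal σ (χ : G → ℂ), hmem⟩).2 hmem'
  rw [hf, h1, hf, ← g1]

end Pool.Agent.Y62.GA
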