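import Pool.Agent.Y62.Main2

/-!
Statements of the building blocks for the Galois version of the theorem on principal 3-blocks.
-/

open scoped BigOperators Classical
open Pool.Agent.Helper884 Representation Pool.Agent.H254R3.IN

noncomputable section

namespace Pool.Agent.Y62.GA

open Pool.Agent.Y62

/-- the principal block -/
def B0 (O : ValuationSubring ℂ) (G : Type) [Group G] : Set (G → ℂ) :=
  {χ | IsIrr χ ∧ ∀ x : G, omega χ x - omega (fun _ => (1 : ℂ)) x ∈ O.nonunits}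

/-- Galois conjugates of irreducible characters are irreducible -/
def S_IRR : Prop := ∀ (G : Type) [Group G] [Finite G] (σ : ℂ ≃+* ℂ) (χ : G → ℂ),
  IsIrr χ → IsIrr (fun g => σ (χ g))

/-- equality in the averaged bound `cnt_bound` -/
def S_EQ : Prop := ∀ (G : Type) [Group G] [Fintype G] (y : G) (k : ℕ) (_ : orderOf y = 3 ^ (k + 1))
  (H : Subgroup G) (_ : ∀ h ∈ H, Commute y h) (X : Finset (H → ℂ)) (_ : ∀ ψ ∈ X, IsIrr ψ)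
  (e : (H → ℂ) → ℤ)
  (_ : ∀ h : H, 3 ∣ orderOf (h : G) → ∑ ψ ∈ X, (e ψ : ℂ) * ψ h = 0) (T : Finset (G → ℂ))
  (_ : ∀ χ ∈ T, IsIrr χ ∧ ∑ ψ ∈ X, (e ψ : ℂ) * ips H y χ ψ ≠ 0)
  (_ : (Nat.card (Subgroup.centralizer ({y} : Set G)) : ℝ) * ∑ ψ ∈ X, (e ψ : ℝ) ^ 2 ≤
    (T.card : ℝ) * Nat.card H),
  (∀ χ ∈ T, ∃ w ε : ℂ, w ^ 3 ^ (k + 1) = 1 ∧ (ε = 1 ∨ ε = -1) ∧
    ∀ t : ℕ, ¬ 3 ∣ t → ∑ ψ ∈ X, (e ψ : ℂ) * ips H (y ^ t) χ ψ = ε * w ^ t) ∧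
  (∀ χ, IsIrr χ → χ ∉ T → ∑ ψ ∈ X, (e ψ : ℂ) * ips H y χ ψ = 0)

/-- non-vanishing of the averages of the characters of height zero of the principal block -/
def S_NV : Prop := ∀ (G : Type) [Group G] [Fintype G] (O : ValuationSubring ℂ)
  (_ : ((3 : ℕ) : ℂ) ∈ O.nonunits) (P : Sylow 3 G) (χ : G → ℂ) (_ : χ ∈ B0 O G)
  (_ : red O (χ 1) ≠ 0) (R : Subgroup G) (_ : R ≤ P) (K : Subgroup G)
  (_ : ∀ s, s ∈ K ↔ (∀ x ∈ R, Commute x s) ∧ ¬ 3 ∣ orderOf s),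
  red O (ips K 1 χ (fun _ => 1)) = red O (χ 1)

/-- the three characters over the trivial character, when `z` is inverted -/
def S_DAT : Prop := ∀ (M : Type) [Group M] [Fintype M] (O : ValuationSubring ℂ)
  (_ : ((3 : ℕ) : ℂ) ∈ O.nonunits) (z : M) (L : Subgroup M) (_ : Dat M z L)
  (t : M) (_ : t⁻¹ * z * t = z ^ 2),
  ∃ X : Finset (M → ℂ), X.card = 3 ∧ (∀ ψ ∈ X, IsIrr ψ) ∧ ∃ e : (M → ℂ) → ℤ,
    (∀ ψ ∈ X, e ψ = 1 ∨ e ψ = -1) ∧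
    (∀ ψ, IsIrr ψ → ψ ∉ X → red O (ips L 1 ψ (fun _ => 1)) = 0) ∧
    (∀ ψ ∈ X, red O (ips L 1 ψ (fun _ => 1)) = red O (e ψ : ℂ)) ∧
    (∀ ψ ∈ X, ∀ ψ' ∈ X, ∀ m, 3 ∣ orderOf m → (e ψ : ℂ) * ψ m = e ψ' * ψ' m) ∧
    ∑ ψ ∈ X, (e ψ : ℂ) * ψ 1 = 0

/-- the fusion argument -/
def S_FUS : Prop := ∀ (G : Type) [Group G] [Finite G] (N : Subgroup G) (y : G) (_ : N.Normal)
  (_ : N ⊔ Subgroup.zpowers y = ⊤) (_ : ∃ k, orderOf y = 3 ^ k)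
  (_ : ¬ 9 ∣ Nat.card (Subgroup.centralizer ({y} : Set G) ⊓ N : Subgroup G))
  (z e : G) (_ : orderOf z = 3) (_ : z ∈ N) (_ : Commute z y) (_ : Commute e y)
  (_ : e⁻¹ * z * e = z⁻¹),
  ∃ P : Sylow 3 G, y ∈ P ∧ z ∈ P ∧ ∃ n ∈ Subgroup.normalizer (P : Set G),
    Commute n y ∧ n⁻¹ * z * n = z⁻¹

/-- the regular part of `C_G(x)` when no element inverts -/
def S_REG : Prop := ∀ (G : Type) [Group G] [Finite G] (N : Subgroup G) (y : G) (_ : N.Normal)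
  (_ : N ⊔ Subgroup.zpowers y = ⊤) (_ : ∃ k, orderOf y = 3 ^ k) (_ : 3 ∣ Nat.card N)
  (_ : ¬ 9 ∣ Nat.card (Subgroup.centralizer ({y} : Set G) ⊓ N : Subgroup G))
  (_ : ∀ z e : G, orderOf z = 3 → z ∈ N → Commute z y → Commute e y → e⁻¹ * z * e ≠ z⁻¹),
  ∃ K : Subgroup G, (∀ s, s ∈ K ↔ Commute y s ∧ ¬ 3 ∣ orderOf s) ∧
    Nat.card (Subgroup.centralizer ({y} : Set G)) = 3 * N.index * Nat.card K

/-- there are several classes of 3-elements in the coset -/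
def S_TWO : Prop := ∀ (G : Type) [Group G] [Finite G] (N : Subgroup G) (y : G) (_ : N.Normal)
  (_ : N ⊔ Subgroup.zpowers y = ⊤) (_ : ∃ k, orderOf y = 3 ^ k)
  (_ : ∀ x : G, (∃ k, orderOf x = 3 ^ k) → y⁻¹ * x ∈ N →
    ∃ K : Subgroup G, (∀ s, s ∈ K ↔ Commute x s ∧ ¬ 3 ∣ orderOf s) ∧
      Nat.card (Subgroup.centralizer ({x} : Set G)) = 3 * N.index * Nat.card K),
  ∃ x : G, (∃ k, orderOf x = 3 ^ k) ∧ y⁻¹ * x ∈ N ∧ ¬ IsConj y x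

/-- the principal block has the Sylow subgroups as defect groups -/
def S_DEF : Prop := ∀ (G : Type) [Group G] [Finite G] (O : ValuationSubring ℂ)
  (_ : ((3 : ℕ) : ℂ) ∈ O.nonunits) (P : Sylow 3 G), IsDefectGroup 3 O (B0 O G) P

/-- Brauer's third main theorem for the normaliser of a Sylow subgroup -/
def S_BRC : Prop := ∀ (G : Type) [Group G] [Finite G] (O : ValuationSubring ℂ)
  (_ : ((3 : ℕ) : ℂ) ∈ O.nonunits) (P : Sylow 3 G),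
  IsBrauerCorrespondent 3 O (P : Subgroup G) (B0 O G)
    (B0 O (Subgroup.normalizer ((P : Subgroup G) : Set G)))

end Pool.Agent.Y62.GA
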