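import Pool.Agent.Y62.GA.Main

/-!
Characters of degree prime to 3; the case in which the principal block is the only block of
maximal defect.
-/

set_option linter.style.haveILetI false
set_option linter.unusedSectionVars false

open scoped BigOperators Classical Pointwise
open Pool.Agent.Helper884 Representation Pool.Agent.H254R3.IN

noncomputable section

namespace Pool.Agent.Y62.GA

open Pool.Agent.Y62

section

variable {G : Type} [Group G]

lemma fact_index {Q : Subgroup G} (hQ : ¬ 3 ∣ Q.index) : Q.index.factorization 3 = 0 :=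
  Nat.factorization_eq_zero_of_not_dvd hQ

/-- height zero in a block of maximal defect: the degree is prime to 3 -/
lemma mem_X0_iff {O : ValuationSubring ℂ} (hO : ((3 : ℕ) : ℂ) ∈ O.nonunits) {χ : G → ℂ} :
    χ ∈ X0 O G ↔ χ ∈ B0 O G ∧ ∃ n : ℕ, (n : ℂ) = χ 1 ∧ ¬ 3 ∣ n := by
  constructor
  · rintro ⟨h1, h2⟩
    obtain ⟨n, -, hn⟩ := h1.1.deg
    refine ⟨h1, n, hn, fun h3 => h2 ?_⟩
    rw [← hn]
    exact (red_nat_eq_zero_iff (p := 3) hO n).mpr h3
  · rintro ⟨h1, n, hn, h3⟩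
    refine ⟨h1, fun h2 => h3 ?_⟩
    rw [← hn] at h2
    exact (red_nat_eq_zero_iff (p := 3) hO n).mp h2

lemma mem_X0_iff' {O : ValuationSubring ℂ} (hO : ((3 : ℕ) : ℂ) ∈ O.nonunits) {χ : G → ℂ}
    {Q : Subgroup G} (hQ : ¬ 3 ∣ Q.index) :
    χ ∈ X0 O G ↔ χ ∈ B0 O G ∧ ∃ n : ℕ, (n : ℂ) = χ 1 ∧
      n.factorization 3 = Q.index.factorization 3 := by
  rw [mem_X0_iff hO, fact_index hQ]
  constructor
  · rintro ⟨h1, n, hn, h3⟩
    exact ⟨h1, n, hn, Nat.factorization_eq_zero_of_not_dvd h3⟩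
  · rintro ⟨h1, n, hn, h3⟩
    refine ⟨h1, n, hn, fun h4 => ?_⟩
    obtain ⟨n', hn'0, hn'⟩ := h1.1.deg
    have h5 : n' = n := by exact_mod_cast hn'.trans hn.symm
    have h6 : n ≠ 0 := by omega
    rcases (Nat.factorization_eq_zero_iff n 3).mp h3 with h7 | h7 | h7
    · exact h7 Nat.prime_three
    · exact h7 h4
    · exact h6 h7

end

variable {G : Type} [Group G] [Fintype G]

/-- an element whose class has length prime to 3 centralizes a Sylow 3-subgroup -/
lemma exists_conj_cent (P : Sylow 3 G) {x : G} (hx : ¬ 3 ∣ Nat.card {y : G // IsConj x y}) :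
    ∃ g : G, g * x * g⁻¹ ∈ Subgroup.centralizer ((P : Subgroup G) : Set G) := by
  haveI : Fact (Nat.Prime 3) := ⟨Nat.prime_three⟩
  let C : Subgroup G := Subgroup.centralizer ({x} : Set G)
  let Q : Sylow 3 C := default
  have hC : C.index = Nat.card {y : G // IsConj x y} := by
    have h1 := card_class_mul x
    have h2 := C.card_mul_index
    have h3 : 0 < Nat.card C := Nat.card_pos
    apply Nat.eq_of_mul_eq_mul_left h3
    rw [h2, ← h1]
    ring
  have hi : ¬ 3 ∣ ((Q : Subgroup C).map C.subtype).index := by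
    rw [Subgroup.index_map_subtype, hC]
    exact Nat.Prime.not_dvd_mul Nat.prime_three Q.not_dvd_index hx
  have hp : IsPGroup 3 ((Q : Subgroup C).map C.subtype) := Q.isPGroup'.map _
  let R : Sylow 3 G := hp.toSylow hi
  obtain ⟨g, hg⟩ := MulAction.exists_smul_eq G R P
  refine ⟨g, ?_⟩
  rw [Subgroup.mem_centralizer_iff]
  intro w hw
  have hw' : w ∈ P := hw
  rw [← hg] at hw'
  have hw2 : g⁻¹ * w * g ∈ R := by
    have := (Subgroup.mem_pointwise_smul_iff_inv_smul_mem (a := MulAut.conj g) (S := (R : Subgroup G))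
      (x := w)).mp hw'
    have h5 : g⁻¹ * w * g ∈ (R : Subgroup G) := by
      simpa [MulAut.smul_def] using this
    exact h5
  have hw3 : g⁻¹ * w * g ∈ C := by
    have h1 : g⁻¹ * w * g ∈ (Q : Subgroup C).map C.subtype := hw2
    obtain ⟨c, -, hc⟩ := Subgroup.mem_map.mp h1
    rw [← hc]
    exact c.2
  have h4 := Subgroup.mem_centralizer_iff.mp hw3 x (Set.mem_singleton x)
  -- x * (g⁻¹ w g) = (g⁻¹ w g) * x
  calc w * (g * x * g⁻¹) = g * ((g⁻¹ * w * g) * x) * g⁻¹ := by group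
    _ = g * (x * (g⁻¹ * w * g)) * g⁻¹ := by rw [h4]
    _ = g * x * g⁻¹ * w := by group

/-- if `C_G(P) ≤ P`, every irreducible character of degree prime to 3 is in the principal block -/
lemma mem_B0_of_cent {O : ValuationSubring ℂ} (hO : ((3 : ℕ) : ℂ) ∈ O.nonunits) (P : Sylow 3 G)
    (hP : Subgroup.centralizer ((P : Subgroup G) : Set G) ≤ P) {χ : G → ℂ} (hχ : IsIrr χ)
    (h1 : red O (χ 1) ≠ 0) : χ ∈ B0 O G := by
  haveI : Fact (Nat.Prime 3) := ⟨Nat.prime_three⟩
  rw [mem_B0_iff hχ h1]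
  intro x hx
  have hx' : ¬ 3 ∣ Nat.card {y : G // IsConj x y} := fun h =>
    hx ((red_nat_eq_zero_iff (p := 3) hO _).mpr h)
  obtain ⟨g, hg⟩ := exists_conj_cent P hx'
  have h2 : g * x * g⁻¹ ∈ P := hP hg
  obtain ⟨k, hk⟩ := P.2.exists_card_eq
  have h3 : orderOf (g * x * g⁻¹) ∣ Nat.card (P : Subgroup G) := Subgroup.orderOf_dvd_natCard _ h2
  rw [hk] at h3
  obtain ⟨j, _, hj⟩ := (Nat.dvd_prime_pow Nat.prime_three).mp h3
  have h4 := val_red (p := 3) hO hχ hj (Commute.one_right (g * x * g⁻¹)) 1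
  rw [pow_one, mul_one, hχ.conj] at h4
  exact h4

lemma sub_index (P : Sylow 3 G) :
    ¬ 3 ∣ ((P : Subgroup G).subgroupOf (Subgroup.normalizer ((P : Subgroup G) : Set G))).index := by
  haveI : Fact (Nat.Prime 3) := ⟨Nat.prime_three⟩
  intro h
  apply P.not_dvd_index
  rw [← Subgroup.relIndex_mul_index
    (Subgroup.le_normalizer (H := (P : Subgroup G)))]
  exact Dvd.dvd.mul_right h _

lemma cent_normalizer (P : Sylow 3 G)
    (hP : Subgroup.centralizer ((P : Subgroup G) : Set G) ≤ P) (Q : Sylow 3 (NN (P : Subgroup G)))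
    (hQ : (Q : Subgroup (NN (P : Subgroup G))) = (P : Subgroup G).subgroupOf (NN (P : Subgroup G))) :
    Subgroup.centralizer ((Q : Subgroup (NN (P : Subgroup G))) : Set (NN (P : Subgroup G))) ≤ Q := by
  intro x hx
  have h1 : (x : G) ∈ Subgroup.centralizer ((P : Subgroup G) : Set G) := by
    rw [Subgroup.mem_centralizer_iff]
    intro w hw
    have hwn : w ∈ NN (P : Subgroup G) := Subgroup.le_normalizer hw
    have h2 : (⟨w, hwn⟩ : NN (P : Subgroup G)) ∈ Q := by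
      change _ ∈ (Q : Subgroup (NN (P : Subgroup G)))
      rw [hQ, Subgroup.mem_subgroupOf]
      exact hw
    have h3 := Subgroup.mem_centralizer_iff.mp hx _ h2
    exact congrArg Subtype.val h3
  change x ∈ (Q : Subgroup (NN (P : Subgroup G)))
  rw [hQ, Subgroup.mem_subgroupOf]
  exact hP h1

lemma X0_of_cent {O : ValuationSubring ℂ} (hO : ((3 : ℕ) : ℂ) ∈ O.nonunits) (P : Sylow 3 G)
    (hP : Subgroup.centralizer ((P : Subgroup G) : Set G) ≤ P) :
    X0 O G = {χ : G → ℂ | IsIrr χ ∧ ∃ n : ℕ, (n : ℂ) = χ 1 ∧ ¬ 3 ∣ n} := by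
  ext χ
  rw [mem_X0_iff hO]
  constructor
  · rintro ⟨h1, h2⟩
    exact ⟨h1.1, h2⟩
  · rintro ⟨h1, n, hn, h3⟩
    refine ⟨mem_B0_of_cent hO P hP h1 fun h2 => h3 ?_, n, hn, h3⟩
    rw [← hn] at h2
    exact (red_nat_eq_zero_iff (p := 3) hO n).mp h2

lemma X0_of_cent_normalizer {O : ValuationSubring ℂ} (hO : ((3 : ℕ) : ℂ) ∈ O.nonunits)
    (P : Sylow 3 G) (hP : Subgroup.centralizer ((P : Subgroup G) : Set G) ≤ P) :
    X0 O (NN (P : Subgroup G)) =
      {χ : NN (P : Subgroup G) → ℂ | IsIrr χ ∧ ∃ n : ℕ, (n : ℂ) = χ 1 ∧ ¬ 3 ∣ n} :=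
  X0_of_cent hO (P.subtype Subgroup.le_normalizer)
    (cent_normalizer P hP (P.subtype Subgroup.le_normalizer) (Sylow.coe_subtype _ _))

end Pool.Agent.Y62.GA
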